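import Pool.Agent.Q291.NL.Arm
import Pool.Agent.Q291.EP.Law

/-!
Stability of the law of the exploration path under dependent laws.
-/

set_option autoImplicit false
set_option maxHeartbeats 2000000

namespace Q291.NL

open H974 Finset H12S Q291.EP Q291.FK H342P H984P H984N TH291.NW

/-- The expected number of edges whose state changes the coarse path, for dependent laws: the
bound on the probability at each edge is the same for all laws. -/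
theorem piv_near : ∃ C ε : ℝ, 1 ≤ C ∧ 0 < ε ∧ ∀ (D : Dm) (n w : ℕ), D.Ok → 1 ≤ w → w ≤ n →
    D.r - D.l ≤ n → D.h + 1 ≤ n → 8 * (w:ℤ) ≤ -D.l → 8 * (w:ℤ) ≤ D.r → 8 * (w:ℤ) ≤ D.h →
    ∃ U : Edg → ℝ, (∀ r : ℝ, 1 ≤ r → (r - 1) / (2 * (r + 1)) ≤ ε * (n:ℝ) ^ (-(3/4) : ℝ) →
      ∀ μ : Finset Edg → ℝ, Law D.edges μ → Near D.edges μ r → ∀ e ∈ D.edges,
        pr μ D.edges (fun F => cp D w (insert e F) ≠ cp D w (F.erase e)) ≤ U e) ∧
      ∑ e ∈ D.edges, U e ≤ C * ((n:ℝ) ^ (3/4 : ℝ) * ((n:ℝ) / w) ^ (31/24 : ℝ)) := by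
  classical
  obtain ⟨C1, ε, hC1, hε, harm⟩ := arms_near
  obtain ⟨C2, hC2, hstrip⟩ := strip
  refine ⟨16 * (13 * (49 * (2 * (C1 * C2)))), ε, by nlinarith, hε, ?_⟩
  intro D n w hD hw hwn hn1 hn2 hl hr hh
  have hw0 : (0:ℝ) < w := by exact_mod_cast hw
  have hn0 : (0:ℝ) < n := by exact_mod_cast lt_of_lt_of_le hw hwn
  obtain ⟨I, hI⟩ : ∃ I : Finset ((Bool × Bool × Bool × Bool) × (ℤ × ℕ)),
      I = Finset.univ ×ˢ (Lf D n w ×ˢ Finset.range (Nat.log 2 n + 1)) := ⟨_, rfl⟩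
  obtain ⟨hh', hhe⟩ : ∃ h : Edg → ℝ, h = fun e => ((Rr D w e : ℝ) + 1) ^ (-(7/24) : ℝ) := ⟨_, rfl⟩
  have hh0 : ∀ e, 0 ≤ hh' e := by intro e; rw [hhe]; positivity
  obtain ⟨u, hu⟩ : ∃ u : ((Bool × Bool × Bool × Bool) × (ℤ × ℕ)) → Edg → ℝ,
      u = fun i e => C1 * (((2:ℝ) ^ i.2.2) ^ (-(23/24) : ℝ) *
        (if |co i.1.1 (src e) - i.2.1| ≤ ((2 ^ (i.2.2 + 1) : ℕ) : ℤ) then hh' e else 0)) := ⟨_, rfl⟩
  have hu0 : ∀ i e, 0 ≤ u i e := by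
    intro i e
    rw [hu]
    have : 0 ≤ (if |co i.1.1 (src e) - i.2.1| ≤ ((2 ^ (i.2.2 + 1) : ℕ) : ℤ) then hh' e else 0) := by
      split_ifs
      · exact hh0 e
      · exact le_rfl
    simp only
    positivity
  have s1 : ∀ r : ℝ, 1 ≤ r → (r - 1) / (2 * (r + 1)) ≤ ε * (n:ℝ) ^ (-(3/4) : ℝ) →
      ∀ μ : Finset Edg → ℝ, Law D.edges μ → Near D.edges μ r → ∀ e ∈ D.edges,
      pr μ D.edges (fun F => cp D w (insert e F) ≠ cp D w (F.erase e)) ≤ ∑ i ∈ I, u i e := by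
    intro r0 hr0 hη μ hμ hN
    intro e he
    by_cases hwir : e ∈ D.wir
    · rw [pr_false'' hμ (fun F _ h => h (cp_wired hwir F))]
      exact Finset.sum_nonneg (fun i _ => hu0 i e)
    · have he' : e ∈ rnd D := mem_rnd.mpr ⟨he, hwir⟩
      refine (pr_mono' hμ (B := fun F => ∃ i ∈ I,
        Arms D w e F i.1.1 i.1.2.1 i.1.2.2.1 i.1.2.2.2 i.2.1 i.2.2) ?_).trans
        ((pr_ex hμ I _).trans (Finset.sum_le_sum ?_))
      · intro F hF hne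
        obtain ⟨aa, ss, κ, κ', X, J, hA⟩ := arms_of hD hF he' (by omega) hl hr hh hne
        refine ⟨((aa, ss, κ, κ'), (X, J)), ?_, hA⟩
        rw [hI, Finset.mem_product, Finset.mem_product]
        refine ⟨Finset.mem_univ _, ?_, ?_⟩
        · have hlneg := hD.l_neg
          have hrpos := hD.r_pos
          apply mem_Lf hw hA.line
          · cases aa
            · have := hA.rh rfl
              omega
            · have := hA.rv rfl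
              omega
          · cases aa
            · have := hA.rh rfl
              omega
            · have := hA.rv rfl
              omega
        · rw [Finset.mem_range]
          have h2 : (2:ℤ) ^ J ≤ n := hA.scale.trans hn2
          have h3 : 2 ^ J ≤ n := by exact_mod_cast h2
          have h4 : J ≤ Nat.log 2 n := Nat.le_log_of_pow_le (by norm_num) h3
          show J < Nat.log 2 n + 1
          omega
      · rintro ⟨⟨aa, ss, κ, κ'⟩, X, J⟩ _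
        rw [hu]
        simp only
        by_cases hnear : |co aa (src e) - X| ≤ ((2 ^ (J + 1) : ℕ) : ℤ)
        · rw [if_pos hnear, hhe]
          exact harm D n w hn2 hwn e r0 hr0 hη μ hμ hN aa ss κ κ' X J
        · rw [if_neg hnear, pr_false'' hμ (fun F _ h => hnear (by push_cast; exact h.near))]
          simp
  refine ⟨fun e => ∑ i ∈ I, u i e, s1, ?_⟩
  rw [Finset.sum_comm]
  obtain ⟨Z, hZ⟩ : ∃ Z : ℝ, Z = (n:ℝ) * (w:ℝ) ^ (-(7/24) : ℝ) := ⟨_, rfl⟩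
  have hZ0 : 0 ≤ Z := by rw [hZ]; positivity
  have s2 : ∀ i ∈ I, ∑ e ∈ D.edges, u i e ≤
      2 * (C1 * C2) * Z * ((2:ℝ) ^ i.2.2) ^ (1/24 : ℝ) := by
    rintro ⟨⟨aa, ss, κ, κ'⟩, X, J⟩ _
    rw [hu]
    simp only
    rw [← Finset.mul_sum, ← Finset.mul_sum]
    have h2 := hstrip D n w hD hw hwn hn1 (by omega) aa X (2 ^ (J + 1)) Nat.one_le_two_pow
    rw [← hZ] at h2
    have hx : (0:ℝ) < 2 ^ J := by positivity
    have hp : 0 ≤ ((2:ℝ) ^ J) ^ (-(23/24) : ℝ) := by positivity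
    have h3 : ((2:ℝ) ^ J) ^ (-(23/24) : ℝ) * (2:ℝ) ^ J = ((2:ℝ) ^ J) ^ (1/24 : ℝ) := by
      have : ((2:ℝ) ^ J) ^ (-(23/24) : ℝ) * ((2:ℝ) ^ J) ^ (1:ℝ) = ((2:ℝ) ^ J) ^ (1/24 : ℝ) := by
        rw [← Real.rpow_add hx]; norm_num
      rwa [Real.rpow_one] at this
    have h4 : ∑ e ∈ D.edges, (if |co aa (src e) - X| ≤ ((2 ^ (J + 1) : ℕ) : ℤ) then hh' e else 0) ≤
        C2 * (2 * (2:ℝ) ^ J * Z) := by
      rw [hhe]
      refine h2.trans (le_of_eq ?_)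
      push_cast
      rw [pow_succ]
      ring
    calc C1 * (((2:ℝ) ^ J) ^ (-(23/24) : ℝ) * ∑ e ∈ D.edges,
          (if |co aa (src e) - X| ≤ ((2 ^ (J + 1) : ℕ) : ℤ) then hh' e else 0))
        ≤ C1 * (((2:ℝ) ^ J) ^ (-(23/24) : ℝ) * (C2 * (2 * (2:ℝ) ^ J * Z))) :=
          mul_le_mul_of_nonneg_left (mul_le_mul_of_nonneg_left h4 hp) (by linarith)
      _ = 2 * (C1 * C2) * Z * (((2:ℝ) ^ J) ^ (-(23/24) : ℝ) * (2:ℝ) ^ J) := by ring
      _ = _ := by rw [h3]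
  refine (Finset.sum_le_sum s2).trans ?_
  rw [hI, ← Finset.mul_sum, Finset.sum_product]
  have e1 : ∀ t : Bool × Bool × Bool × Bool,
      ∑ y ∈ Lf D n w ×ˢ Finset.range (Nat.log 2 n + 1), ((2:ℝ) ^ (t, y).2.2) ^ (1/24 : ℝ) =
      ((Lf D n w).card : ℝ) * ∑ J ∈ Finset.range (Nat.log 2 n + 1), ((2:ℝ) ^ J) ^ (1/24 : ℝ) := by
    intro t
    show ∑ y ∈ Lf D n w ×ˢ Finset.range (Nat.log 2 n + 1), ((2:ℝ) ^ y.2) ^ (1/24 : ℝ) = _
    rw [Finset.sum_product]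
    show ∑ _x ∈ Lf D n w, ∑ J ∈ Finset.range (Nat.log 2 n + 1), ((2:ℝ) ^ J) ^ (1/24 : ℝ) = _
    rw [Finset.sum_const, nsmul_eq_mul]
  rw [Finset.sum_congr rfl (fun t _ => e1 t), Finset.sum_const, Finset.card_univ, nsmul_eq_mul]
  have hcard : Fintype.card (Bool × Bool × Bool × Bool) = 16 := by simp
  rw [hcard]
  have f1 := card_Lf (D := D) hw hwn
  have f2 := geo_le (hw.trans hwn)
  have f3 : 0 ≤ ∑ J ∈ Finset.range (Nat.log 2 n + 1), ((2:ℝ) ^ J) ^ (1/24 : ℝ) :=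
    Finset.sum_nonneg (fun J _ => by positivity)
  have f4 : ((Lf D n w).card : ℝ) * ∑ J ∈ Finset.range (Nat.log 2 n + 1),
      ((2:ℝ) ^ J) ^ (1/24 : ℝ) ≤ (13 * ((n:ℝ) / w)) * (49 * (n:ℝ) ^ (1/24 : ℝ)) :=
    mul_le_mul f1 f2 f3 (by positivity)
  have hid : ((n:ℝ) / w) * ((n:ℝ) ^ (1/24 : ℝ) * Z) =
      (n:ℝ) ^ (3/4 : ℝ) * ((n:ℝ) / w) ^ (31/24 : ℝ) := by
    rw [hZ, Real.div_rpow hn0.le hw0.le]
    have a1 : (n:ℝ) * (n:ℝ) ^ (1/24 : ℝ) * n = (n:ℝ) ^ (3/4 : ℝ) * (n:ℝ) ^ (31/24 : ℝ) := by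
      rw [← Real.rpow_add hn0]
      have : (n:ℝ) * (n:ℝ) ^ (1/24 : ℝ) * n = (n:ℝ) ^ (1:ℝ) * (n:ℝ) ^ (1/24 : ℝ) * (n:ℝ) ^ (1:ℝ) := by
        rw [Real.rpow_one]
      rw [this, ← Real.rpow_add hn0, ← Real.rpow_add hn0]
      norm_num
    have a2 : (w:ℝ)⁻¹ * (w:ℝ) ^ (-(7/24) : ℝ) = ((w:ℝ) ^ (31/24 : ℝ))⁻¹ := by
      rw [← Real.rpow_neg hw0.le]
      have : (w:ℝ)⁻¹ = (w:ℝ) ^ (-1:ℝ) := by rw [Real.rpow_neg hw0.le, Real.rpow_one]
      rw [this, ← Real.rpow_add hw0]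
      norm_num
    calc ((n:ℝ) / w) * ((n:ℝ) ^ (1/24 : ℝ) * ((n:ℝ) * (w:ℝ) ^ (-(7/24) : ℝ)))
        = ((n:ℝ) * (n:ℝ) ^ (1/24 : ℝ) * n) * ((w:ℝ)⁻¹ * (w:ℝ) ^ (-(7/24) : ℝ)) := by
          rw [div_eq_mul_inv]; ring
      _ = _ := by rw [a1, a2]; rw [div_eq_mul_inv]; ring
  have hCC : 0 ≤ 2 * (C1 * C2) * Z := by positivity
  push_cast
  calc 2 * (C1 * C2) * Z * (16 * (((Lf D n w).card : ℝ) * ∑ J ∈ Finset.range (Nat.log 2 n + 1),
        ((2:ℝ) ^ J) ^ (1/24 : ℝ)))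
      ≤ 2 * (C1 * C2) * Z * (16 * ((13 * ((n:ℝ) / w)) * (49 * (n:ℝ) ^ (1/24 : ℝ)))) :=
        mul_le_mul_of_nonneg_left (by linarith) hCC
    _ = 16 * (13 * (49 * (2 * (C1 * C2)))) * (((n:ℝ) / w) * ((n:ℝ) ^ (1/24 : ℝ) * Z)) := by ring
    _ = _ := by rw [hid]


theorem abs_em {S : Finset Edg} {μ : Finset Edg → ℝ} (hμ : Law S μ) {f g : Finset Edg → ℝ}
    (h : ∀ F, F ⊆ S → |f F| ≤ g F) : |FK.em μ S f| ≤ FK.em μ S g := by
  rw [abs_le]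
  constructor
  · have h1 : FK.em μ S (fun F => (-1) * g F) ≤ FK.em μ S f :=
      hμ.mono (fun F hF => by have := (abs_le.mp (h F hF)).1; linarith)
    rw [em_smul] at h1
    linarith
  · exact hμ.mono (fun F hF => (abs_le.mp (h F hF)).2)

/-- Stability of the law of the coarse path under dependent laws. -/
theorem coarse_near : ∃ C : ℝ, 1 ≤ C ∧ ∀ (D : Dm) (n w : ℕ), D.Ok → 1 ≤ w → w ≤ n →
    D.r - D.l ≤ n → D.h + 1 ≤ n → 8 * (w:ℤ) ≤ -D.l → 8 * (w:ℤ) ≤ D.r → 8 * (w:ℤ) ≤ D.h →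
    ∀ g : List (ℤ × ℤ) → ℝ, (∀ c, |g c| ≤ 1) → ∀ r : ℝ, 1 ≤ r →
      ∀ μ : Finset Edg → ℝ, Law D.edges μ → Near D.edges μ r →
      |FK.em μ D.edges (fun F => g (cp D w F)) -
        FK.em (un D.edges) D.edges (fun F => g (cp D w F))| ≤
        C * ((n:ℝ) ^ (3/4 : ℝ) * ((n:ℝ) / w) ^ (31/24 : ℝ)) * ((r - 1) / (2 * (r + 1))) := by
  obtain ⟨C, ε, hC, hε, hmain⟩ := piv_near
  refine ⟨2 * C + 2 / ε, by have : 0 < 2 / ε := by positivity
                            linarith, ?_⟩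
  intro D n w hD hw hwn hn1 hn2 hl hr hh g hg r hr1 μ hμ hN
  have hw0 : (0:ℝ) < w := by exact_mod_cast hw
  have hn0 : (0:ℝ) < n := by exact_mod_cast lt_of_lt_of_le hw hwn
  obtain ⟨Z, hZ⟩ : ∃ Z : ℝ, Z = (n:ℝ) ^ (3/4 : ℝ) * ((n:ℝ) / w) ^ (31/24 : ℝ) := ⟨_, rfl⟩
  have hZ0 : 0 ≤ Z := by rw [hZ]; positivity
  obtain ⟨η, hη⟩ : ∃ η : ℝ, η = (r - 1) / (2 * (r + 1)) := ⟨_, rfl⟩
  have hη0 : 0 ≤ η := by rw [hη]; exact div_nonneg (by linarith) (by linarith)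
  have hp : 0 < 2 / ε := by positivity
  rw [← hZ, ← hη]
  by_cases hq : η ≤ ε * (n:ℝ) ^ (-(3/4) : ℝ)
  · obtain ⟨U, hU, hsum⟩ := hmain D n w hD hw hwn hn1 hn2 hl hr hh
    rw [← hZ] at hsum
    have h1 := interp hμ hN hr1 (fun F => g (cp D w F)) (fun _ => 0) (fun e => 2 * U e) (by
      intro e he T hT _ _ _
      have h2 := hU r hr1 (by rw [← hη]; exact hq) _ (hyb_law hT hμ) (hyb_near hT hμ hN hr1) e he
      refine le_trans ?_ (mul_le_mul_of_nonneg_left h2 (by norm_num : (0:ℝ) ≤ 2))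
      unfold pr
      rw [← em_smul]
      refine (hyb_law hT hμ).mono fun F hF => ?_
      show |g (cp D w (insert e F)) - g (cp D w (F.erase e))| ≤
        2 * ind (cp D w (insert e F) ≠ cp D w (F.erase e))
      by_cases hc : cp D w (insert e F) = cp D w (F.erase e)
      · rw [hc, sub_self, abs_zero]
        have := ind_nonneg (cp D w (F.erase e) ≠ cp D w (F.erase e))
        linarith
      · rw [ind_of hc]
        have a1 := abs_le.mp (hg (cp D w (insert e F)))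
        have a2 := abs_le.mp (hg (cp D w (F.erase e)))
        rw [abs_le]
        constructor <;> linarith)
    rw [← hη, ← Finset.mul_sum] at h1
    refine h1.trans ?_
    have h2 : η * (2 * ∑ e ∈ D.edges, U e) ≤ η * (2 * (C * Z)) :=
      mul_le_mul_of_nonneg_left (mul_le_mul_of_nonneg_left hsum (by norm_num)) hη0
    have h3 : 0 ≤ 2 / ε * Z * η := by positivity
    nlinarith
  · push Not at hq
    have b1 := abs_em hμ (f := fun F => g (cp D w F)) (g := fun _ => 1) (fun F _ => hg _)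
    have b2 := abs_em (un_law D.edges) (f := fun F => g (cp D w F)) (g := fun _ => 1)
      (fun F _ => hg _)
    rw [hμ.const] at b1
    rw [(un_law D.edges).const] at b2
    rw [abs_le] at b1 b2
    have hle : |FK.em μ D.edges (fun F => g (cp D w F)) -
        FK.em (un D.edges) D.edges (fun F => g (cp D w F))| ≤ 2 := by
      rw [abs_le]
      constructor <;> linarith
    refine hle.trans ?_
    have hn34 : 0 < (n:ℝ) ^ (3/4 : ℝ) := by positivity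
    have h3 : (n:ℝ) ^ (3/4 : ℝ) ≤ Z := by
      rw [hZ]
      have : 1 ≤ ((n:ℝ) / w) ^ (31/24 : ℝ) := by
        apply Real.one_le_rpow _ (by norm_num)
        rw [le_div_iff₀ hw0, one_mul]
        exact_mod_cast hwn
      nlinarith
    have h4 : (n:ℝ) ^ (-(3/4) : ℝ) * (n:ℝ) ^ (3/4 : ℝ) = 1 := by
      rw [← Real.rpow_add hn0]; norm_num
    have h5 : 2 ≤ 2 / ε * (n:ℝ) ^ (3/4 : ℝ) * η := by
      have : 2 / ε * (n:ℝ) ^ (3/4 : ℝ) * (ε * (n:ℝ) ^ (-(3/4) : ℝ)) = 2 := by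
        have h6 : 2 / ε * (n:ℝ) ^ (3/4 : ℝ) * (ε * (n:ℝ) ^ (-(3/4) : ℝ)) =
            (2 / ε * ε) * ((n:ℝ) ^ (-(3/4) : ℝ) * (n:ℝ) ^ (3/4 : ℝ)) := by ring
        rw [h6, h4]
        field_simp
      calc (2:ℝ) = 2 / ε * (n:ℝ) ^ (3/4 : ℝ) * (ε * (n:ℝ) ^ (-(3/4) : ℝ)) := this.symm
        _ ≤ _ := mul_le_mul_of_nonneg_left hq.le (by positivity)
    have h6 : 2 / ε * (n:ℝ) ^ (3/4 : ℝ) * η ≤ (2 * C + 2 / ε) * Z * η := by
      apply mul_le_mul_of_nonneg_right _ hη0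
      have h7 : 2 / ε * (n:ℝ) ^ (3/4 : ℝ) ≤ 2 / ε * Z := mul_le_mul_of_nonneg_left h3 hp.le
      nlinarith
    linarith

end Q291.NL
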