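import Pool.Agent.Q291.NL.Rec

/-!
The arms of the exploration path under dependent laws.
-/

set_option autoImplicit false
set_option maxHeartbeats 2000000

namespace Q291.NL

open H974 Finset H12S Q291.EP Q291.FK H342P H984P H984N TH291.NW

/-- The set of edges whose colour configuration is `G`. -/
noncomputable def uf (κ : Bool) (S G : Finset Edg) : Finset Edg :=
  if κ then G else S \ G.map dl.symm.toEmbedding

theorem cf_sub {κ : Bool} {S F : Finset Edg} (hF : F ⊆ S) : cf κ S F ⊆ cS κ S := by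
  cases κ
  · simp only [cf, cS, Bool.false_eq_true, if_false]
    intro e he
    rw [mem_dmp] at he ⊢
    exact (Finset.mem_sdiff.mp he).1
  · simpa only [cf, cS, if_true] using hF

theorem mem_mapsymm {G : Finset Edg} {e : Edg} : e ∈ G.map dl.symm.toEmbedding ↔ dl e ∈ G := by
  rw [Finset.mem_map]
  constructor
  · rintro ⟨a, ha, rfl⟩
    simpa using ha
  · intro h
    exact ⟨_, h, by simp⟩

theorem uf_sub {κ : Bool} {S G : Finset Edg} (hG : G ⊆ cS κ S) : uf κ S G ⊆ S := by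
  cases κ
  · simp only [uf, Bool.false_eq_true, if_false]
    exact Finset.sdiff_subset
  · simpa only [cS, uf, if_true] using hG

theorem uf_cf {κ : Bool} {S F : Finset Edg} (hF : F ⊆ S) : uf κ S (cf κ S F) = F := by
  cases κ
  · simp only [uf, cf, Bool.false_eq_true, if_false]
    ext e
    rw [Finset.mem_sdiff, mem_mapsymm, mem_dmp, Equiv.symm_apply_apply, Finset.mem_sdiff]
    constructor
    · rintro ⟨h1, h2⟩
      by_contra h3
      exact h2 ⟨h1, h3⟩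
    · intro h
      exact ⟨hF h, fun h2 => h2.2 h⟩
  · simp only [uf, cf, if_true]

theorem cf_uf {κ : Bool} {S G : Finset Edg} (hG : G ⊆ cS κ S) : cf κ S (uf κ S G) = G := by
  cases κ
  · simp only [cS, uf, cf, Bool.false_eq_true, if_false] at *
    ext e
    rw [mem_dmp, Finset.mem_sdiff, Finset.mem_sdiff, mem_mapsymm, Equiv.apply_symm_apply]
    constructor
    · rintro ⟨h1, h2⟩
      by_contra h3
      exact h2 ⟨h1, h3⟩
    · intro h
      have h1 := hG h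
      rw [mem_dmp] at h1
      exact ⟨h1, fun h2 => h2.2 h⟩
  · simp only [uf, cf, if_true]

/-- The law of the colour configuration. -/
noncomputable def tr (κ : Bool) (S : Finset Edg) (μ : Finset Edg → ℝ) (G : Finset Edg) : ℝ :=
  μ (uf κ S G)

theorem em_tr (κ : Bool) (S : Finset Edg) (μ : Finset Edg → ℝ) (g : Finset Edg → ℝ) :
    FK.em μ S (fun F => g (cf κ S F)) = FK.em (tr κ S μ) (cS κ S) g := by
  unfold FK.em
  refine Finset.sum_bij' (fun F _ => cf κ S F) (fun G _ => uf κ S G) ?_ ?_ ?_ ?_ ?_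
  · intro F hF
    rw [Finset.mem_powerset] at hF ⊢
    exact cf_sub hF
  · intro G hG
    rw [Finset.mem_powerset] at hG ⊢
    exact uf_sub hG
  · intro F hF
    exact uf_cf (Finset.mem_powerset.mp hF)
  · intro G hG
    exact cf_uf (Finset.mem_powerset.mp hG)
  · intro F hF
    unfold tr
    rw [uf_cf (Finset.mem_powerset.mp hF)]

theorem tr_law {κ : Bool} {S : Finset Edg} {μ : Finset Edg → ℝ} (hμ : Law S μ) :
    Law (cS κ S) (tr κ S μ) where
  pos G hG := hμ.pos _ (uf_sub hG)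
  one := by
    have h := em_tr κ S μ (fun _ => 1)
    rw [hμ.const] at h
    unfold FK.em at h
    simp only [mul_one] at h
    exact h.symm

theorem tr_near {κ : Bool} {S : Finset Edg} {μ : Finset Edg → ℝ} {r : ℝ} (hN : Near S μ r) :
    Near (cS κ S) (tr κ S μ) r := by
  intro e he G hG heG
  unfold tr
  cases κ
  · simp only [cS, Bool.false_eq_true, if_false] at he hG
    rw [mem_dmp] at he
    have h1 : uf false S (insert e G) = (uf false S G).erase (dl.symm e) := by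
      simp only [uf, Bool.false_eq_true, if_false]
      ext x
      rw [Finset.mem_sdiff, mem_mapsymm, Finset.mem_insert, Finset.mem_erase, Finset.mem_sdiff,
        mem_mapsymm]
      have : dl x = e ↔ x = dl.symm e := by
        constructor
        · rintro rfl; simp
        · rintro rfl; simp
      rw [this]
      tauto
    have h2 : dl.symm e ∈ uf false S G := by
      simp only [uf, Bool.false_eq_true, if_false]
      rw [Finset.mem_sdiff, mem_mapsymm, Equiv.apply_symm_apply]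
      exact ⟨he, heG⟩
    have h3 : uf false S G ⊆ S := by
      simp only [uf, Bool.false_eq_true, if_false]
      exact Finset.sdiff_subset
    have h4 := hN (dl.symm e) he ((uf false S G).erase (dl.symm e))
      ((Finset.erase_subset _ _).trans h3) (Finset.notMem_erase _ _)
    rw [Finset.insert_erase h2] at h4
    rw [h1]
    exact ⟨h4.2, h4.1⟩
  · simp only [cS, uf, if_true] at *
    exact hN e he G hG heG

theorem pr_tr (κ : Bool) (S : Finset Edg) (μ : Finset Edg → ℝ) (A : Finset Edg → Prop) :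
    pr μ S (fun F => A (cf κ S F)) = pr (tr κ S μ) (cS κ S) A :=
  em_tr κ S μ (fun F => ind (A F))

/-- Two colours, for dependent laws. -/
theorem two_near (κ κ' : Bool) {S X Y : Finset Edg} {μ : Finset Edg → ℝ} {r : ℝ} (hX : X ⊆ S)
    (hd : Disjoint X Y) (hμ : Law S μ) (hN : Near S μ r) {A B : Finset Edg → Prop}
    (hA : ∀ F, A F ↔ A (F ∩ cS κ X)) (hB : ∀ F, B F ↔ B (F ∩ cS κ' Y)) {b : ℝ} (hb0 : 0 ≤ b)
    (hb : ∀ ν, Law (cS κ X) ν → Near (cS κ X) ν r → pr ν (cS κ X) A ≤ b) :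
    pr μ S (fun F => A (cf κ S F) ∧ B (cf κ' S F)) ≤ b * pr μ S (fun F => B (cf κ' S F)) := by
  have e1 : ∀ F, F ⊆ X → (A (cf κ S F) ↔ A (cf κ X F)) := by
    intro F hF
    rw [hA (cf κ S F), hA (cf κ X F)]
    have : cf κ S F ∩ cS κ X = cf κ X F ∩ cS κ X := by
      cases κ
      · simp only [cf, cS, Bool.false_eq_true, if_false]
        ext e
        rw [Finset.mem_inter, Finset.mem_inter, mem_dmp, mem_dmp, mem_dmp, Finset.mem_sdiff,
          Finset.mem_sdiff]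
        constructor
        · rintro ⟨⟨_, h2⟩, h3⟩; exact ⟨⟨h3, h2⟩, h3⟩
        · rintro ⟨⟨_, h2⟩, h3⟩; exact ⟨⟨hX h3, h2⟩, h3⟩
      · simp only [cf, if_true]
    rw [this]
  refine pr_two hX hμ hN (B := fun F => A (cf κ S F)) (C := fun F => B (cf κ' S F)) ?_ ?_ ?_ hb0 ?_
  · intro F _ h
    beta_reduce at h ⊢
    rw [hA, cf_loc, ← hA] at h
    exact h
  · intro F _ h
    beta_reduce at h ⊢
    rw [hB, cf_loc] at h ⊢
    have : (F \ X) ∩ Y = F ∩ Y := by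
      ext e
      rw [Finset.mem_inter, Finset.mem_inter, Finset.mem_sdiff]
      constructor
      · rintro ⟨⟨h1, _⟩, h2⟩; exact ⟨h1, h2⟩
      · rintro ⟨h1, h2⟩; exact ⟨⟨h1, fun h3 => (Finset.disjoint_left.mp hd) h3 h2⟩, h2⟩
    rw [this]
    exact h
  · intro F _ h
    beta_reduce at h ⊢
    rw [hB, cf_loc] at h ⊢
    have : (F \ X) ∩ Y = F ∩ Y := by
      ext e
      rw [Finset.mem_inter, Finset.mem_inter, Finset.mem_sdiff]
      constructor
      · rintro ⟨⟨h1, _⟩, h2⟩; exact ⟨h1, h2⟩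
      · rintro ⟨h1, h2⟩; exact ⟨⟨h1, fun h3 => (Finset.disjoint_left.mp hd) h3 h2⟩, h2⟩
    rw [this] at h
    exact h
  · intro ν h1 h2
    have h3 : pr ν X (fun F => A (cf κ S F)) = pr ν X (fun F => A (cf κ X F)) :=
      em_congr fun F hF => ind_congr (e1 F hF)
    rw [h3, pr_tr]
    exact hb _ (tr_law h1) (tr_near h2)

/-- Half-plane crossings. -/
theorem cross_near {C ε : ℝ} (hC : ∀ a s : Bool, Sta C ε a s) {r : ℝ} (hr : 1 ≤ r) {D : Dm}
    {aa ss κ : Bool} {X : ℤ} {z : Vtx} (hz : co aa z = X) {n : ℕ}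
    (hη : (r - 1) / (2 * (r + 1)) ≤ ε * (n:ℝ) ^ (-(3/4) : ℝ)) {μ : Finset Edg → ℝ}
    (hμ : Law D.edges μ) (hN : Near D.edges μ r) {r0 R0 : ℕ} (h1 : 1 ≤ r0) (h2 : r0 ≤ R0)
    (h3 : R0 ≤ n) :
    pr μ D.edges (fun F => Cr z r0 R0 (↑(cf κ D.edges F ∩ cS κ (Th D aa ss X)) : Set Edg)) ≤
      C * ((r0:ℝ) / R0) ^ (7/24 : ℝ) := by
  have hTh : Th D aa ss X ⊆ D.edges := fun g hg => (mem_Th.mp hg).1
  have hsub : cS κ (Th D aa ss X) ⊆ cS κ D.edges := by
    cases κ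
    · intro g hg
      simp only [cS, Bool.false_eq_true, if_false] at hg ⊢
      rw [mem_dmp] at hg ⊢
      exact hTh hg
    · simp only [cS, if_true]
      exact hTh
  rw [pr_tr κ D.edges μ (fun F => Cr z r0 R0 (↑(F ∩ cS κ (Th D aa ss X)) : Set Edg))]
  have hL := tr_law (κ := κ) hμ
  have hN' := tr_near (κ := κ) hN
  rw [pr_mg hsub]
  swap
  · intro F _
    rw [Finset.inter_assoc, Finset.inter_self]
  have h4 : pr (mg (tr κ D.edges μ) (cS κ D.edges \ cS κ (Th D aa ss X))) (cS κ (Th D aa ss X))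
      (fun F => Cr z r0 R0 (↑(F ∩ cS κ (Th D aa ss X)) : Set Edg)) =
      pr (mg (tr κ D.edges μ) (cS κ D.edges \ cS κ (Th D aa ss X))) (cS κ (Th D aa ss X))
      (fun F => Cr z r0 R0 (↑F : Set Edg)) := by
    refine em_congr fun F hF => ?_
    beta_reduce
    rw [Finset.inter_eq_left.mpr hF]
  rw [h4]
  have hX : ∃ X' : ℤ, |X - X'| ≤ 1 ∧ ∀ e ∈ cS κ (Th D aa ss X),
      hpl aa ss X' (src e) ∧ hpl aa ss X' (tgt e) := by
    cases κ
    · refine ⟨if ss then X else X - 1, ?_, ?_⟩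
      · cases ss <;> simp
      · intro e he
        simp only [cS, Bool.false_eq_true, if_false] at he
        rw [mem_dmp, mem_Th] at he
        obtain ⟨-, h2, h3⟩ := he
        obtain ⟨x, y, _ | _⟩ := e
        · rw [dls_f] at h2 h3
          cases aa <;> cases ss <;>
            simp only [hpl, src_mk, tgt_true, tgt_false, Bool.false_eq_true, if_false,
              if_true] at h2 h3 ⊢ <;> omega
        · rw [dls_t] at h2 h3
          cases aa <;> cases ss <;>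
            simp only [hpl, src_mk, tgt_true, tgt_false, Bool.false_eq_true, if_false,
              if_true] at h2 h3 ⊢ <;> omega
    · refine ⟨X, by simp, ?_⟩
      intro e he
      simp only [cS, if_true] at he
      exact (mem_Th.mp he).2
  obtain ⟨X', hX1, hX2⟩ := hX
  exact cr_near hC hr hX2 (by rw [hz]; exact hX1) hη (mg_law' hsub hL) (mg_near' hsub hN') h1 h2 h3

theorem ics_sub {D : Dm} {e : Edg} {κ : Bool} {k : ℕ} (hins : Ins D e k) :
    ics κ (ebx (ce κ e) k) ⊆ D.edges := by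
  have hcn := ce_near κ e
  intro g hg
  rw [mem_ics] at hg
  unfold ebx at hg
  unfold Ins at hins
  unfold Dm.edges
  cases κ
  · simp only [ce, Bool.false_eq_true, if_false] at hg hcn
    obtain ⟨x, y, _ | _⟩ := g
    · rw [dl_f, mem_RE_true] at hg
      rw [mem_RE_false]
      omega
    · rw [dl_t, mem_RE_false] at hg
      rw [mem_RE_true]
      omega
  · simp only [ce, if_true] at hg
    obtain ⟨x, y, _ | _⟩ := g
    · rw [mem_RE_false] at hg ⊢
      omega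
    · rw [mem_RE_true] at hg ⊢
      omega

/-- Both arms. -/
theorem both_near {C ε K r : ℝ} (hC : ∀ a s : Bool, Sta C ε a s) (hr : 1 ≤ r) {D : Dm} {e : Edg}
    {aa ss κ κ' : Bool} {X : ℤ} {J k R n : ℕ} (hη : (r - 1) / (2 * (r + 1)) ≤
      ε * (n:ℝ) ^ (-(3/4) : ℝ)) (hNF : NF K r k) {μ : Finset Edg → ℝ}
    (hμ : Law D.edges μ) (hN : Near D.edges μ r)
    (hkJ : k + 4 ≤ 2 ^ (J + 1)) (hins : Ins D e k)
    (hnear : |co aa (src e) - X| ≤ 2 ^ (J + 1)) (hR : 8 * 2 ^ J < R) (hRn : R ≤ n) :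
    pr μ D.edges (fun F => A4e k (ce κ e) (↑(cf κ D.edges F) : Set Edg) ∧
      Cr (zl aa X e) (8 * 2 ^ J) R (↑(cf κ' D.edges F ∩ cS κ' (Th D aa ss X)) : Set Edg)) ≤
      (K * ((k:ℝ) + 1) ^ (-(5/4) : ℝ)) * (C * (((8 * 2 ^ J : ℕ) : ℝ) / R) ^ (7/24 : ℝ)) := by
  obtain ⟨r0, hr0⟩ : ∃ r : ℕ, r = 8 * 2 ^ J := ⟨_, rfl⟩
  have hJ3 : 2 ^ (J + 1) = 2 * 2 ^ J := by rw [pow_succ]; ring
  have hP1 : 1 ≤ 2 ^ J := Nat.one_le_two_pow
  have hr1 : 1 ≤ r0 := by omega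
  have hr4 : 4 * 2 ^ (J + 1) = r0 := by omega
  rw [← hr0] at hR ⊢
  obtain ⟨X0, hX0⟩ : ∃ X0 : Finset Edg, X0 = ics κ (ebx (ce κ e) k) := ⟨_, rfl⟩
  obtain ⟨Y0, hY0⟩ : ∃ Y0 : Finset Edg, Y0 = Th D aa ss X \ ics κ' (bx (zl aa X e) r0) := ⟨_, rfl⟩
  have hXs : X0 ⊆ D.edges := by rw [hX0]; exact ics_sub hins
  have hez : sd (src e) (zl aa X e) ≤ 2 ^ (J + 1) :=
    sd_zl_le hnear (by rw [det_sd_self]; positivity)
  have hcn := ce_near κ e
  have hd : Disjoint X0 Y0 := by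
    rw [Finset.disjoint_left]
    intro g hg hg'
    rw [hY0, Finset.mem_sdiff] at hg'
    apply hg'.2
    rw [mem_ics]
    apply mem_bx_of
    rw [hX0, mem_ics] at hg
    have c1 := ce_near κ g
    have c2 := ce_near κ' g
    have hge : sd ((ce κ' g).1, (ce κ' g).2.1) (e.1, e.2.1) ≤ k + 2 := by
      have h3 := RE_ends (show ce κ g ∈ RE ((ce κ e).1 - k) ((ce κ e).1 + k) ((ce κ e).2.1 - k)
        ((ce κ e).2.1 + k) from hg)
      have h4 : src (ce κ g) = ((ce κ g).1, (ce κ g).2.1) := rfl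
      unfold inR at h3
      rw [h4] at h3
      simp only at h3
      unfold sd
      rw [max_le_iff, abs_le, abs_le]
      simp only
      omega
    have h5 := det_sd_tri ((ce κ' g).1, (ce κ' g).2.1) (e.1, e.2.1) (zl aa X e)
    have h6 : sd (e.1, e.2.1) (zl aa X e) ≤ 2 ^ (J + 1) := hez
    have h7 : (r0:ℤ) = 4 * 2 ^ (J + 1) := by rw [← hr4]; push_cast; ring
    have h8 : (k:ℤ) + 4 ≤ 2 ^ (J + 1) := by exact_mod_cast hkJ
    rw [h7]
    linarith
  have hA : ∀ F : Finset Edg, A4e k (ce κ e) (↑F : Set Edg) ↔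
      A4e k (ce κ e) (↑(F ∩ cS κ X0) : Set Edg) := by
    intro F
    rw [hX0, cS_ics]
    apply A4e_local
    rw [Finset.coe_inter, Set.inter_assoc, Set.inter_self]
  have hB : ∀ F : Finset Edg, Cr (zl aa X e) r0 R (↑(F ∩ cS κ' (Th D aa ss X)) : Set Edg) ↔
      Cr (zl aa X e) r0 R (↑((F ∩ cS κ' Y0) ∩ cS κ' (Th D aa ss X)) : Set Edg) := by
    intro F
    constructor
    · intro h
      refine (h.loc hR.le).mono ?_
      rintro g ⟨h2, h3, h4⟩
      rw [Finset.mem_coe, Finset.mem_inter] at h2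
      rw [Finset.mem_coe, Finset.mem_inter, Finset.mem_inter, hY0, cS_sdiff, cS_ics,
        Finset.mem_sdiff]
      exact ⟨⟨h2.1, h2.2, fun h => h4 (Finset.mem_coe.mpr h)⟩, h2.2⟩
    · intro h
      refine h.mono ?_
      rw [Finset.coe_inter, Finset.coe_inter, Finset.coe_inter]
      rintro g ⟨⟨h2, _⟩, h4⟩
      exact ⟨h2, h4⟩
  have hb0 : 0 ≤ K * ((k:ℝ) + 1) ^ (-(5/4) : ℝ) := by
    have := hNF.nonneg hr
    positivity
  have h1 := two_near κ κ' (S := D.edges) (X := X0) (Y := Y0) hXs hd hμ hN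
    (A := fun F => A4e k (ce κ e) (↑F : Set Edg))
    (B := fun F => Cr (zl aa X e) r0 R (↑(F ∩ cS κ' (Th D aa ss X)) : Set Edg)) hA hB hb0
    (by
      intro ν h2 h3
      have h4 : cS κ X0 = ebx (ce κ e) k := by rw [hX0, cS_ics]
      rw [h4] at h2 h3 ⊢
      exact hNF (ce κ e) ν h2 h3)
  refine h1.trans (mul_le_mul_of_nonneg_left ?_ hb0)
  exact cross_near hC hr (co_zl _ _ _) hη hμ hN hr1 hR.le hRn

/-- The four arms. -/
theorem four_near {K r : ℝ} {D : Dm} {e : Edg} {κ : Bool} {k : ℕ} (hNF : NF K r k)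
    {μ : Finset Edg → ℝ} (hμ : Law D.edges μ) (hN : Near D.edges μ r) (hins : Ins D e k) :
    pr μ D.edges (fun F => A4e k (ce κ e) (↑(cf κ D.edges F) : Set Edg)) ≤
      K * ((k:ℝ) + 1) ^ (-(5/4) : ℝ) := by
  rw [pr_tr κ D.edges μ (fun F => A4e k (ce κ e) (↑F : Set Edg))]
  apply hNF.big _ (tr_law hμ) (tr_near hN)
  rw [← cS_ics κ (ebx (ce κ e) k)]
  have h := ics_sub (κ := κ) hins
  cases κ
  · intro g hg
    simp only [cS, Bool.false_eq_true, if_false] at hg ⊢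
    rw [mem_dmp] at hg ⊢
    exact h hg
  · simpa only [cS, if_true] using h

theorem pr_false'' {S : Finset Edg} {μ : Finset Edg → ℝ} (hμ : Law S μ) {A : Finset Edg → Prop}
    (h : ∀ F, F ⊆ S → ¬ A F) : pr μ S A = 0 := by
  unfold pr
  rw [em_congr (g := fun _ => 0) (fun F hF => ind_not_of (h F hF)), hμ.const]

/-- The bound for given types, line and scale. -/
theorem arms_near : ∃ C ε : ℝ, 1 ≤ C ∧ 0 < ε ∧ ∀ (D : Dm) (n w : ℕ), D.h + 1 ≤ n → w ≤ n →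
    ∀ (e : Edg) (r : ℝ), 1 ≤ r → (r - 1) / (2 * (r + 1)) ≤ ε * (n:ℝ) ^ (-(3/4) : ℝ) →
    ∀ μ : Finset Edg → ℝ, Law D.edges μ → Near D.edges μ r →
    ∀ (aa ss κ κ' : Bool) (X : ℤ) (J : ℕ),
      pr μ D.edges (fun F => Arms D w e F aa ss κ κ' X J) ≤
        C * (((2:ℝ) ^ J) ^ (-(23/24) : ℝ) * ((Rr D w e : ℝ) + 1) ^ (-(7/24) : ℝ)) := by
  obtain ⟨C, ε1, hC, hε1, hhp⟩ := hp_all
  obtain ⟨C0, c0, hC0, hc0, hst⟩ := four
  refine ⟨(64 * C0) * (16 * C), min ε1 c0, ?_, lt_min hε1 hc0, ?_⟩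
  · nlinarith
  intro D n w hn hw e r hr hη μ hμ hN aa ss κ κ' X J
  have hC00 : (0:ℝ) < C0 := by linarith
  have hx : (0:ℝ) < 2 ^ J := by positivity
  have hR1 : (0:ℝ) < (Rr D w e : ℝ) + 1 := by positivity
  have hid : ((2:ℝ) ^ J) ^ (-(5/4) : ℝ) * ((2:ℝ) ^ J / ((Rr D w e : ℝ) + 1)) ^ (7/24 : ℝ) =
      ((2:ℝ) ^ J) ^ (-(23/24) : ℝ) * ((Rr D w e : ℝ) + 1) ^ (-(7/24) : ℝ) := by
    have hinv : ((Rr D w e : ℝ) + 1) ^ (-(7/24) : ℝ) = (((Rr D w e : ℝ) + 1) ^ (7/24 : ℝ))⁻¹ :=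
      Real.rpow_neg hR1.le _
    have hx2 : ((2:ℝ) ^ J) ^ (-(5/4) : ℝ) * ((2:ℝ) ^ J) ^ (7/24 : ℝ) =
        ((2:ℝ) ^ J) ^ (-(23/24) : ℝ) := by
      rw [← Real.rpow_add hx]; norm_num
    rw [Real.div_rpow hx.le hR1.le, hinv, ← hx2]
    ring
  -- outside the range of scales the event is empty
  by_cases hsc : (2:ℤ) ^ J ≤ D.h + 1
  swap
  · rw [pr_false'' hμ (fun F _ h => hsc h.scale)]
    positivity
  have hJn : 2 ^ J ≤ n := by
    have : (2:ℤ) ^ J ≤ n := hsc.trans hn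
    exact_mod_cast this
  have hn1 : 1 ≤ n := le_trans Nat.one_le_two_pow hJn
  by_cases hne : |co aa (src e) - X| ≤ 2 ^ (J + 1)
  swap
  · rw [pr_false'' hμ (fun F _ h => hne h.near)]
    positivity
  have hnp : 0 ≤ (n:ℝ) ^ (-(3/4) : ℝ) := by positivity
  have hη1 : (r - 1) / (2 * (r + 1)) ≤ ε1 * (n:ℝ) ^ (-(3/4) : ℝ) :=
    hη.trans (mul_le_mul_of_nonneg_right (min_le_left _ _) hnp)
  have hη2 : (r - 1) / (2 * (r + 1)) ≤ c0 * (n:ℝ) ^ (-(3/4) : ℝ) :=
    hη.trans (mul_le_mul_of_nonneg_right (min_le_right _ _) hnp)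
  have hA4 := hst r hr n hn1 hη2
  have hRn : Rr D w e ≤ n := by
    refine le_trans ?_ hw
    unfold Rr
    have := min_le_left w (min (sd (src e) (0, 0)).toNat (sd (src e) (D.t, D.h)).toNat)
    omega
  -- the three bounds
  have hkJ : 4 ≤ J → 2 ^ (J - 2) + 4 ≤ 2 ^ (J + 1) ∧ 1 ≤ 2 ^ (J - 2) ∧ 2 ^ (J - 2) ≤ n := by
    intro h
    have h1 : J + 1 = (J - 2) + 3 := by omega
    have h2 : 1 ≤ 2 ^ (J - 2) := Nat.one_le_two_pow
    have h3 : J = (J - 2) + 2 := by omega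
    have h4 : 2 ^ J = 4 * 2 ^ (J - 2) := by
      conv_lhs => rw [h3, pow_add]
      ring
    refine ⟨?_, h2, by omega⟩
    rw [h1, pow_add]
    omega
  have key : ∃ α β : ℝ, 0 ≤ α ∧ pr μ D.edges (fun F => Arms D w e F aa ss κ κ' X J) ≤
      α * β ∧ ((4 ≤ J ∧ α ≤ C0 * (((2 ^ (J - 2) : ℕ) : ℝ) + 1) ^ (-(5/4) : ℝ)) ∨
        (J < 4 ∧ α ≤ 1)) ∧ ((8 * 2 ^ J < Rr D w e ∧
          β ≤ C * (((8 * 2 ^ J : ℕ) : ℝ) / (Rr D w e : ℕ)) ^ (7/24 : ℝ)) ∨
      (Rr D w e ≤ 8 * 2 ^ J ∧ β ≤ 1)) := by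
    rcases Nat.lt_or_ge J 4 with hJ4 | hJ4
    · rcases Nat.lt_or_ge (8 * 2 ^ J) (Rr D w e) with hR | hR
      · refine ⟨1, _, by norm_num, ?_, Or.inr ⟨hJ4, le_rfl⟩, Or.inl ⟨hR, le_rfl⟩⟩
        rw [one_mul]
        refine (pr_mono' hμ (B := fun F => Cr (zl aa X e) (8 * 2 ^ J) (Rr D w e)
          (↑(cf κ' D.edges F ∩ cS κ' (Th D aa ss X)) : Set Edg)) (fun F _ h => h.cross hR)).trans ?_
        exact cross_near hhp hr (co_zl _ _ _) hη1 hμ hN
          (by have : 1 ≤ 2 ^ J := Nat.one_le_two_pow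
              omega) hR.le hRn
      · exact ⟨1, 1, by norm_num, by rw [one_mul]; exact pr_le_one' hμ _,
          Or.inr ⟨hJ4, le_rfl⟩, Or.inr ⟨hR, le_rfl⟩⟩
    · obtain ⟨k1, k2, k3⟩ := hkJ hJ4
      have hNFJ := hA4 (2 ^ (J - 2)) k3
      obtain ⟨α, hα⟩ : ∃ α : ℝ, α = C0 * (((2 ^ (J - 2) : ℕ) : ℝ) + 1) ^ (-(5/4) : ℝ) := ⟨_, rfl⟩
      have hα0 : 0 ≤ α := by rw [hα]; positivity
      by_cases hins : Ins D e (2 ^ (J - 2))
      swap
      · have hz : pr μ D.edges (fun F => Arms D w e F aa ss κ κ' X J) = 0 :=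
          pr_false'' hμ (fun F _ h => hins (h.four hJ4).2)
        rcases Nat.lt_or_ge (8 * 2 ^ J) (Rr D w e) with hR | hR
        · exact ⟨0, _, le_rfl, by rw [hz, zero_mul], Or.inl ⟨hJ4, by positivity⟩,
            Or.inl ⟨hR, le_rfl⟩⟩
        · exact ⟨0, 1, le_rfl, by rw [hz, zero_mul], Or.inl ⟨hJ4, by positivity⟩,
            Or.inr ⟨hR, le_rfl⟩⟩
      rcases Nat.lt_or_ge (8 * 2 ^ J) (Rr D w e) with hR | hR
      · refine ⟨α, _, hα0, ?_, Or.inl ⟨hJ4, hα.le⟩, Or.inl ⟨hR, le_rfl⟩⟩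
        refine (pr_mono' hμ
          (B := fun F => A4e (2 ^ (J - 2)) (ce κ e) (↑(cf κ D.edges F) : Set Edg) ∧
            Cr (zl aa X e) (8 * 2 ^ J) (Rr D w e)
              (↑(cf κ' D.edges F ∩ cS κ' (Th D aa ss X)) : Set Edg))
          (fun F _ h => ⟨(h.four hJ4).1, h.cross hR⟩)).trans ?_
        rw [hα]
        exact both_near hhp hr hη1 hNFJ hμ hN k1 hins hne hR hRn
      · refine ⟨α, 1, hα0, ?_, Or.inl ⟨hJ4, hα.le⟩, Or.inr ⟨hR, le_rfl⟩⟩
        rw [mul_one, hα]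
        exact (pr_mono' hμ (fun F _ h => (h.four hJ4).1)).trans (four_near hNFJ hμ hN hins)
  obtain ⟨α, β, hα0, hP, hα, hβ⟩ := key
  have h2 := alpha_le hC0 hα
  have h3 := beta_le hC hβ
  refine hP.trans ?_
  have h4 : 0 ≤ 16 * C * ((2:ℝ) ^ J / ((Rr D w e : ℝ) + 1)) ^ (7/24 : ℝ) := by positivity
  calc α * β ≤ α * (16 * C * ((2:ℝ) ^ J / ((Rr D w e : ℝ) + 1)) ^ (7/24 : ℝ)) :=
        mul_le_mul_of_nonneg_left h3 hα0
    _ ≤ (64 * C0 * ((2:ℝ) ^ J) ^ (-(5/4) : ℝ)) *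
        (16 * C * ((2:ℝ) ^ J / ((Rr D w e : ℝ) + 1)) ^ (7/24 : ℝ)) :=
        mul_le_mul_of_nonneg_right h2 h4
    _ = (64 * C0) * (16 * C) * (((2:ℝ) ^ J) ^ (-(5/4) : ℝ) *
        ((2:ℝ) ^ J / ((Rr D w e : ℝ) + 1)) ^ (7/24 : ℝ)) := by ring
    _ = _ := by rw [hid]

end Q291.NL
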