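import Mathlib

/-!
Elementary inequalities.
-/

set_option autoImplicit false

namespace Q291.NL

open Finset

theorem pow_sum {b : ℝ} (hb0 : 0 ≤ b) (hb : b < 1) (n : ℕ) :
    ∑ s ∈ range n, ((s:ℝ) + 1) ^ (-b) ≤ (n:ℝ) ^ (1 - b) / (1 - b) := by
  have h1b : 0 < 1 - b := by linarith
  induction n with
  | zero => simp [Real.zero_rpow h1b.ne']
  | succ n ih =>
    rw [Finset.sum_range_succ]
    have hy : (0:ℝ) < (n:ℝ) + 1 := by positivity
    have h1 : (1 + -(1 / ((n:ℝ) + 1))) ^ (1 - b) ≤ 1 + (1 - b) * -(1 / ((n:ℝ) + 1)) := by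
      apply rpow_one_add_le_one_add_mul_self
      · rw [neg_le_neg_iff, div_le_one hy]
        have : (0:ℝ) ≤ n := Nat.cast_nonneg n
        linarith
      · exact h1b.le
      · linarith
    have h2 : (1 + -(1 / ((n:ℝ) + 1))) = (n:ℝ) / ((n:ℝ) + 1) := by field_simp; ring
    rw [h2, Real.div_rpow (Nat.cast_nonneg n) hy.le, div_le_iff₀ (by positivity)] at h1
    have h3 : ((n:ℝ) + 1) ^ (1 - b) = ((n:ℝ) + 1) ^ (-b) * ((n:ℝ) + 1) := by
      rw [show (1 - b) = -b + 1 by ring, Real.rpow_add hy, Real.rpow_one]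
    have h4 : (1 + (1 - b) * -(1 / ((n:ℝ) + 1))) * ((n:ℝ) + 1) ^ (1 - b) =
        ((n:ℝ) + 1) ^ (1 - b) - (1 - b) * ((n:ℝ) + 1) ^ (-b) := by
      rw [h3]; field_simp; ring
    rw [h4] at h1
    rw [le_div_iff₀ h1b] at ih ⊢
    push_cast
    rw [add_mul]
    linarith

theorem pow_mono_neg {x y c a : ℝ} (hc : 1 ≤ c) (ha : 0 ≤ a) (h : y ≤ c * x)
    (hy : 0 < y) : x ^ (-a) ≤ c ^ a * y ^ (-a) := by
  have hc0 : 0 < c := by linarith
  have h1 : y / c ≤ x := by rw [div_le_iff₀ hc0]; linarith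
  have h2 : x ^ (-a) ≤ (y / c) ^ (-a) :=
    Real.rpow_le_rpow_of_nonpos (by positivity) h1 (by linarith)
  refine h2.trans (le_of_eq ?_)
  rw [Real.div_rpow hy.le hc0.le, Real.rpow_neg hc0.le, div_inv_eq_mul, mul_comm]

end Q291.NL
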