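import Pool.Agent.Q291.EP.Pc
import Pool.Agent.W347.DPAA

/-!
Edges which are pivotal for the four-arm event of another edge.
-/

set_option autoImplicit false

namespace Q291.NL

open H974 Finset H12S Q291.EP H389NS H984N

/-- The base point of an edge. -/
def bp (e : Edg) : ℤ × ℤ := (e.1, e.2.1)

theorem ebx_eq (e : Edg) (k : ℕ) : ebx e k = blk (bp e) k := rfl

/-- First entrance into a box, from outside. -/
theorem enter {c : ℤ × ℤ} {d : ℕ} {G : Set Edg} {w v : Vtx}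
    (hw : w.1 ≤ c.1 - d ∨ c.1 + d ≤ w.1 ∨ w.2 ≤ c.2 - d ∨ c.2 + d ≤ w.2) (h : Reach G w v)
    (hv : inR (c.1 - d) (c.1 + d) (c.2 - d) (c.2 + d) v) :
    ∃ u ∈ bdB c d, Reach (G \ ↑(blk c d)) w u ∧ Reach G u v := by
  have bd : ∀ u : Vtx, inR (c.1 - d) (c.1 + d) (c.2 - d) (c.2 + d) u →
      (u.1 ≤ c.1 - d ∨ c.1 + d ≤ u.1 ∨ u.2 ≤ c.2 - d ∨ c.2 + d ≤ u.2) → u ∈ bdB c d := by
    intro u h1 h2
    unfold inR at h1
    unfold bdB
    refine ⟨by rw [abs_le]; omega, by rw [abs_le]; omega, ?_⟩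
    rcases h2 with h2 | h2 | h2 | h2
    · left; rw [abs_of_nonpos (by omega)]; omega
    · left; rw [abs_of_nonneg (by omega)]; omega
    · right; rw [abs_of_nonpos (by omega)]; omega
    · right; rw [abs_of_nonneg (by omega)]; omega
  have key : ∀ x, Reach G w x → (∃ u ∈ bdB c d, Reach (G \ ↑(blk c d)) w u ∧ Reach G u x) ∨
      (¬ inR (c.1 - d) (c.1 + d) (c.2 - d) (c.2 + d) x ∧ Reach (G \ ↑(blk c d)) w x) := by
    intro x hx
    induction hx with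
    | refl =>
      by_cases h1 : inR (c.1 - d) (c.1 + d) (c.2 - d) (c.2 + d) w
      · exact Or.inl ⟨w, bd w h1 hw, Reach.refl _ _, Reach.refl _ _⟩
      · exact Or.inr ⟨h1, Reach.refl _ _⟩
    | @tail x y _ hs ih =>
      rcases ih with ⟨u, h1, h2, h3⟩ | ⟨h1, h2⟩
      · exact Or.inl ⟨u, h1, h2, h3.trans (Adj.reach hs)⟩
      · obtain ⟨e, he, hc⟩ := hs
        have heb : e ∉ blk c d := by
          intro hb
          obtain ⟨b1, b2⟩ := BS_adj_box hb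
          rcases hc with ⟨c1, c2⟩ | ⟨c1, c2⟩
          · rw [c1] at b1; exact h1 b1
          · rw [c2] at b2; exact h1 b2
        have hr : Reach (G \ ↑(blk c d)) w y :=
          h2.trans (Adj.reach ⟨e, ⟨he, by exact_mod_cast heb⟩, hc⟩)
        by_cases h3 : inR (c.1 - d) (c.1 + d) (c.2 - d) (c.2 + d) y
        · left
          refine ⟨y, bd y h3 ?_, hr, Reach.refl _ _⟩
          obtain ⟨a, b, _ | _⟩ := e
          · simp only [src_mk, tgt_false] at hc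
            unfold inR at h1 h3
            rcases hc with ⟨rfl, rfl⟩ | ⟨rfl, rfl⟩ <;> simp only at h1 h3 ⊢ <;> omega
          · simp only [src_mk, tgt_true] at hc
            unfold inR at h1 h3
            rcases hc with ⟨rfl, rfl⟩ | ⟨rfl, rfl⟩ <;> simp only at h1 h3 ⊢ <;> omega
        · exact Or.inr ⟨h3, hr⟩
  rcases key v h with h1 | ⟨h1, -⟩
  · exact h1
  · exact absurd hv h1

/-- The configuration used by the four-arm event. -/
def cfe (e : Edg) (k : ℕ) (F : Set Edg) : Set Edg := (F ∩ ↑(ebx e k)) \ {e}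

/-- The boundary of the box around `e`. -/
def bde (e : Edg) (k : ℕ) : Set Vtx := bdR (e.1 - k) (e.1 + k) (e.2.1 - k) (e.2.1 + k)

theorem A4e_def {e : Edg} {k : ℕ} {F : Set Edg} : A4e k e F ↔
    (∃ w ∈ bde e k, Reach (cfe e k F) (src e) w) ∧ (∃ w ∈ bde e k, Reach (cfe e k F) (tgt e) w) ∧
      ¬ Reach (cfe e k F) (src e) (tgt e) := Iff.rfl

theorem cfe_insert {e f : Edg} {k : ℕ} (hf : f ∈ ebx e k) (hfe : f ≠ e) (F : Set Edg) :
    cfe e k (insert f F) = insert f (cfe e k F) := by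
  unfold cfe
  ext x
  simp only [Set.mem_sdiff, Set.mem_inter_iff, Set.mem_insert_iff, Set.mem_singleton_iff,
    Finset.mem_coe]
  constructor
  · rintro ⟨⟨h1 | h1, h2⟩, h3⟩
    · exact Or.inl h1
    · exact Or.inr ⟨⟨h1, h2⟩, h3⟩
  · rintro (rfl | ⟨⟨h1, h2⟩, h3⟩)
    · exact ⟨⟨Or.inl rfl, hf⟩, hfe⟩
    · exact ⟨⟨Or.inr h1, h2⟩, h3⟩

theorem cfe_erase {e f : Edg} {k : ℕ} (F : Set Edg) :
    cfe e k (F \ {f}) = cfe e k F \ {f} := by
  unfold cfe
  ext x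
  simp only [Set.mem_sdiff, Set.mem_inter_iff, Set.mem_singleton_iff, Finset.mem_coe]
  tauto

/-- The event that `f` is pivotal for the four-arm event of `e`. -/
def PV (k : ℕ) (e f : Edg) (F : Set Edg) : Prop := ¬ (A4e k e (insert f F) ↔ A4e k e (F \ {f}))

theorem pv_data {k : ℕ} {e f : Edg} {F : Set Edg} (hf : f ∈ ebx e k) (hfe : f ≠ e)
    (h : PV k e f F) : ∃ a : Vtx, (a = src e ∨ a = tgt e) ∧ ∃ J : Set Vtx,
      (∀ v ∈ J, v ∈ bde e k ∨ v = tgt e) ∧ Pv {a} J f (cfe e k F) := by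
  unfold PV at h
  rw [A4e_def, A4e_def, cfe_insert hf hfe, cfe_erase] at h
  obtain ⟨G, hG⟩ : ∃ G, G = cfe e k F := ⟨_, rfl⟩
  rw [← hG] at h ⊢
  have hsub : G \ {f} ⊆ insert f G := fun x hx => Or.inr hx.1
  by_cases h1 : Pv {src e} (bde e k) f G
  · exact ⟨src e, Or.inl rfl, bde e k, fun v hv => Or.inl hv, h1⟩
  by_cases h2 : Pv {tgt e} (bde e k) f G
  · exact ⟨tgt e, Or.inr rfl, bde e k, fun v hv => Or.inl hv, h2⟩
  by_cases h3 : Pv {src e} {tgt e} f G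
  · exact ⟨src e, Or.inl rfl, {tgt e}, fun v hv => Or.inr hv, h3⟩
  exfalso
  apply h
  have k1 : (∃ w ∈ bde e k, Reach (insert f G) (src e) w) ↔
      ∃ w ∈ bde e k, Reach (G \ {f}) (src e) w := by
    constructor
    · intro h4
      by_contra h5
      apply h1
      refine ⟨?_, ?_⟩
      · obtain ⟨w, hw, hr⟩ := h4
        exact ⟨src e, rfl, w, hw, hr⟩
      · rintro ⟨u, hu, w, hw, hr⟩
        rw [Set.mem_singleton_iff] at hu
        rw [hu] at hr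
        exact h5 ⟨w, hw, hr⟩
    · rintro ⟨w, hw, hr⟩
      exact ⟨w, hw, hr.mono hsub⟩
  have k2 : (∃ w ∈ bde e k, Reach (insert f G) (tgt e) w) ↔
      ∃ w ∈ bde e k, Reach (G \ {f}) (tgt e) w := by
    constructor
    · intro h4
      by_contra h5
      apply h2
      refine ⟨?_, ?_⟩
      · obtain ⟨w, hw, hr⟩ := h4
        exact ⟨tgt e, rfl, w, hw, hr⟩
      · rintro ⟨u, hu, w, hw, hr⟩
        rw [Set.mem_singleton_iff] at hu
        rw [hu] at hr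
        exact h5 ⟨w, hw, hr⟩
    · rintro ⟨w, hw, hr⟩
      exact ⟨w, hw, hr.mono hsub⟩
  have k3 : Reach (insert f G) (src e) (tgt e) ↔ Reach (G \ {f}) (src e) (tgt e) := by
    constructor
    · intro h4
      by_contra h5
      apply h3
      refine ⟨⟨src e, rfl, tgt e, rfl, h4⟩, ?_⟩
      rintro ⟨u, hu, w, hw, hr⟩
      rw [Set.mem_singleton_iff] at hu hw
      rw [hu, hw] at hr
      exact h5 hr
    · exact fun hr => hr.mono hsub
  rw [k1, k2, k3]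

/-- Four arms around `f`. -/
theorem pv_f {k s : ℕ} {e f : Edg} {F : Set Edg} (hf : f ∈ ebx e k) (hfe : f ≠ e)
    (h : PV k e f F) (hs : 1 ≤ s) (h1 : |f.1 - e.1| + s ≤ k) (h2 : |f.2.1 - e.2.1| + s ≤ k)
    (h3 : (s:ℤ) + 1 < |f.1 - e.1| ∨ (s:ℤ) + 1 < |f.2.1 - e.2.1|) : A4e s f F := by
  obtain ⟨a, ha, J, hJ, hP⟩ := pv_data hf hfe h
  have hend : src e = (e.1, e.2.1) ∧ (tgt e = (e.1 + 1, e.2.1) ∨ tgt e = (e.1, e.2.1 + 1)) := by
    obtain ⟨x, y, _ | _⟩ := e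
    · exact ⟨rfl, Or.inr rfl⟩
    · exact ⟨rfl, Or.inl rfl⟩
  have hne : ∀ v : Vtx, v = src e ∨ v = tgt e →
      ¬ (f.1 - s < v.1 ∧ v.1 < f.1 + s ∧ f.2.1 - s < v.2 ∧ v.2 < f.2.1 + s) := by
    intro v hv hcon
    have h4 : (v.1 = e.1 ∨ v.1 = e.1 + 1) ∧ (v.2 = e.2.1 ∨ v.2 = e.2.1 + 1) := by
      rcases hv with rfl | rfl
      · rw [hend.1]; simp
      · rcases hend.2 with h5 | h5 <;> rw [h5] <;> simp
    rw [lt_abs, lt_abs] at h3
    omega
  have h4 : A4e s f (cfe e k F) := by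
    apply loc_a4 (I := {a}) (J := J) (mem_ebx hs) _ hP
    intro v hv
    rcases hv with hv | hv
    · rw [Set.mem_singleton_iff] at hv
      subst hv
      exact hne _ ha
    · rcases hJ v hv with h5 | h5
      · intro hcon
        obtain ⟨-, h6⟩ := h5
        have a1 := abs_le.mp (le_refl |f.1 - e.1|)
        have a2 := abs_le.mp (le_refl |f.2.1 - e.2.1|)
        omega
      · exact hne v (Or.inr h5)
  apply (A4e_local _).mp h4
  unfold cfe
  ext x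
  simp only [Set.mem_sdiff, Set.mem_inter_iff, Set.mem_singleton_iff, Finset.mem_coe]
  constructor
  · rintro ⟨⟨⟨a1, a2⟩, a3⟩, a4⟩
    exact ⟨a1, a4⟩
  · rintro ⟨a1, a4⟩
    refine ⟨⟨⟨a1, ebx_sub (c := (e.1, e.2.1)) h1 h2 a4⟩, ?_⟩, a4⟩
    rintro rfl
    unfold ebx at a4
    have a5 := ends_RE a4
    unfold inR at a5
    rw [hend.1] at a5
    simp only at a5
    rw [lt_abs, lt_abs] at h3
    omega

/-- Four arms around `e`. -/
theorem pv_e {k s : ℕ} {e f : Edg} {F : Set Edg} (h : PV k e f F) (hs : 1 ≤ s) (hsk : s ≤ k)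
    (hf : f ∉ ebx e s) : A4e s e F := by
  have key : ∀ F', (F' ∩ ↑(ebx e s)) = F ∩ ↑(ebx e s) → A4e k e F' → A4e s e F := by
    intro F' h1 h2
    rw [← A4e_local h1]
    exact A4_sub (by omega) (by omega) (by omega) (by omega) (mem_ebx hs) h2
  have i1 : insert f F ∩ ↑(ebx e s) = F ∩ ↑(ebx e s) := by
    ext x
    simp only [Set.mem_inter_iff, Set.mem_insert_iff, Finset.mem_coe]
    constructor
    · rintro ⟨rfl | h1, h2⟩
      · exact absurd h2 hf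
      · exact ⟨h1, h2⟩
    · rintro ⟨h1, h2⟩
      exact ⟨Or.inr h1, h2⟩
  have i2 : (F \ {f}) ∩ ↑(ebx e s) = F ∩ ↑(ebx e s) := by
    ext x
    simp only [Set.mem_inter_iff, Set.mem_sdiff, Set.mem_singleton_iff, Finset.mem_coe]
    constructor
    · rintro ⟨⟨h1, _⟩, h2⟩
      exact ⟨h1, h2⟩
    · rintro ⟨h1, h2⟩
      refine ⟨⟨h1, ?_⟩, h2⟩
      rintro rfl
      exact hf h2
  unfold PV at h
  by_cases h1 : A4e k e (insert f F)
  · exact key _ i1 h1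
  · by_cases h2 : A4e k e (F \ {f})
    · exact key _ i2 h2
    · exact absurd (iff_of_false h1 h2) h

/-- Four arms in the annulus. -/
theorem ann_of {k d : ℕ} {e f : Edg} {F F' : Set Edg} (hF : F' \ ↑(blk (bp e) d) = F \ ↑(blk (bp e) d))
    (hd : 1 ≤ d) (hdk : d ≤ k) (h : A4e k e F') : A4a (bp e) d k F := by
  have _ := f
  obtain ⟨⟨w, hw, h1⟩, ⟨w', hw', h2⟩, h3⟩ := h
  obtain ⟨H, hH⟩ : ∃ H, H = (F' ∩ ↑(ebx e k)) \ {e} := ⟨_, rfl⟩
  have hH' : (F' ∩ ↑(RE (e.1 - k) (e.1 + k) (e.2.1 - k) (e.2.1 + k))) \ {e} = H := hH.symm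
  rw [hH'] at h1 h2 h3
  have hend : src e = (e.1, e.2.1) ∧ (tgt e = (e.1 + 1, e.2.1) ∨ tgt e = (e.1, e.2.1 + 1)) := by
    obtain ⟨x, y, _ | _⟩ := e
    · exact ⟨rfl, Or.inr rfl⟩
    · exact ⟨rfl, Or.inl rfl⟩
  have hs : inR ((bp e).1 - d) ((bp e).1 + d) ((bp e).2 - d) ((bp e).2 + d) (src e) := by
    rw [hend.1]; unfold bp inR; simp only; omega
  have ht : inR ((bp e).1 - d) ((bp e).1 + d) ((bp e).2 - d) ((bp e).2 + d) (tgt e) := by
    rcases hend.2 with h5 | h5 <;> rw [h5] <;> unfold bp inR <;> simp only <;> omega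
  have hout : ∀ w ∈ bdR (e.1 - k) (e.1 + k) (e.2.1 - k) (e.2.1 + k),
      (w.1 ≤ (bp e).1 - d ∨ (bp e).1 + d ≤ w.1 ∨ w.2 ≤ (bp e).2 - d ∨ (bp e).2 + d ≤ w.2) ∧
      w ∈ bdB (bp e) k := by
    rintro w ⟨h5, h6⟩
    unfold inR at h5
    unfold bp bdB
    simp only
    refine ⟨by omega, by rw [abs_le]; omega, by rw [abs_le]; omega, ?_⟩
    rcases h6 with h6 | h6 | h6 | h6
    · left; rw [abs_of_nonpos (by omega)]; omega
    · left; rw [abs_of_nonneg (by omega)]; omega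
    · right; rw [abs_of_nonpos (by omega)]; omega
    · right; rw [abs_of_nonneg (by omega)]; omega
  have hmono : H \ ↑(blk (bp e) d) ⊆ F ∩ ↑(blk (bp e) k \ blk (bp e) d) := by
    rintro x ⟨hx1, hx2⟩
    rw [hH] at hx1
    obtain ⟨⟨a1, a2⟩, -⟩ := hx1
    have a3 : x ∈ F' \ ↑(blk (bp e) d) := ⟨a1, hx2⟩
    rw [hF] at a3
    refine ⟨a3.1, ?_⟩
    rw [Finset.coe_sdiff]
    exact ⟨a2, hx2⟩
  have hmono2 : F ∩ ↑(blk (bp e) k \ blk (bp e) d) ⊆ H := by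
    rintro x ⟨hx1, hx2⟩
    rw [Finset.coe_sdiff] at hx2
    have a3 : x ∈ F \ ↑(blk (bp e) d) := ⟨hx1, hx2.2⟩
    rw [← hF] at a3
    rw [hH]
    refine ⟨⟨a3.1, hx2.1⟩, ?_⟩
    rintro rfl
    exact hx2.2 (Finset.mem_coe.mpr (mem_ebx hd))
  obtain ⟨u, u1, u2, u3⟩ := enter (hout w hw).1 h1.symm hs
  obtain ⟨u', v1, v2, v3⟩ := enter (hout w' hw').1 h2.symm ht
  refine ⟨u, u1, u', v1, ⟨w, (hout w hw).2, (u2.mono hmono).symm⟩,
    ⟨w', (hout w' hw').2, (v2.mono hmono).symm⟩, ?_⟩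
  intro hcon
  exact h3 (u3.symm.trans ((hcon.mono hmono2).trans v3))

theorem pv_ann {k d : ℕ} {e f : Edg} {F : Set Edg} (h : PV k e f F) (hd : 1 ≤ d) (hdk : d ≤ k)
    (hf : f ∈ blk (bp e) d) : A4a (bp e) d k F := by
  have i1 : insert f F \ ↑(blk (bp e) d) = F \ ↑(blk (bp e) d) := by
    ext x
    simp only [Set.mem_sdiff, Set.mem_insert_iff, Finset.mem_coe]
    constructor
    · rintro ⟨rfl | h1, h2⟩
      · exact absurd hf h2
      · exact ⟨h1, h2⟩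
    · rintro ⟨h1, h2⟩
      exact ⟨Or.inr h1, h2⟩
  have i2 : (F \ {f}) \ ↑(blk (bp e) d) = F \ ↑(blk (bp e) d) := by
    ext x
    simp only [Set.mem_sdiff, Set.mem_singleton_iff, Finset.mem_coe]
    constructor
    · rintro ⟨⟨h1, _⟩, h2⟩
      exact ⟨h1, h2⟩
    · rintro ⟨h1, h2⟩
      refine ⟨⟨h1, ?_⟩, h2⟩
      rintro rfl
      exact h2 hf
  unfold PV at h
  by_cases h1 : A4e k e (insert f F)
  · exact ann_of (f := f) i1 hd hdk h1
  · by_cases h2 : A4e k e (F \ {f})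
    · exact ann_of (f := f) i2 hd hdk h2
    · exact absurd (iff_of_false h1 h2) h

/-- An open path from a neighbourhood of `f` to `e`. -/
theorem pv_cr {k r R : ℕ} {e f : Edg} {F : Set Edg} (hf : f ∈ ebx e k) (hfe : f ≠ e)
    (h : PV k e f F) {z : Vtx} (h1 : sd (src f) z + 1 ≤ r) (h2 : (R:ℤ) + 1 ≤ sd (src e) z) :
    Cr z r R (F ∩ ↑(ebx e k)) := by
  obtain ⟨a, ha, J, -, hP⟩ := pv_data hf hfe h
  obtain ⟨⟨u, hu, v, hv, huv⟩, hn⟩ := hP
  rw [Set.mem_singleton_iff] at hu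
  subst hu
  have hno : ¬ Reach (cfe e k F \ {f}) u v := fun h => hn ⟨u, rfl, v, hv, h⟩
  have hfd : sd (tgt f) (src f) ≤ 1 := by
    obtain ⟨x, y, _ | _⟩ := f
    · unfold sd; simp
    · unfold sd; simp
  have hed : sd (tgt e) (src e) ≤ 1 := by
    obtain ⟨x, y, _ | _⟩ := e
    · unfold sd; simp
    · unfold sd; simp
  have hx : ∃ x, (x = src f ∨ x = tgt f) ∧ Reach (cfe e k F \ {f}) u x := by
    rcases H12S.reach_insert huv with h3 | ⟨h3, _⟩ | ⟨h3, _⟩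
    · exact absurd h3 hno
    · exact ⟨_, Or.inl rfl, h3⟩
    · exact ⟨_, Or.inr rfl, h3⟩
  obtain ⟨x, hx1, hx2⟩ := hx
  rw [cr_iff]
  refine ⟨x, u, ?_, ?_, (hx2.symm).mono ?_⟩
  · rcases hx1 with rfl | rfl
    · linarith
    · have := det_sd_tri (tgt f) (src f) z
      linarith
  · rcases ha with rfl | rfl
    · linarith
    · have := det_sd_tri (src e) (tgt e) z
      rw [det_sd_comm (src e) (tgt e)] at this
      linarith
  · rintro y ⟨⟨⟨h3, h4⟩, -⟩, -⟩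
    exact ⟨h3, h4⟩

end Q291.NL
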