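import Pool.Agent.Q291.NL.Near
import Pool.Agent.Q291.NL.Piv
import Pool.Agent.Q291.NL.Num

/-!
The four-arm probability for dependent laws: the probability of a pivotal edge.
-/

set_option autoImplicit false

namespace Q291.NL

open H974 Finset H12S Q291.EP Q291.FK H389NS H984N

/-- An event in `X` and an event outside `X`. -/
theorem pr_two {S X : Finset Edg} {μ : Finset Edg → ℝ} {r : ℝ} (hX : X ⊆ S) (hμ : Law S μ)
    (hN : Near S μ r) {B C : Finset Edg → Prop} {b : ℝ}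
    (hB : ∀ F, F ⊆ S → B F → B (F ∩ X)) (hC : ∀ F, F ⊆ S → C F → C (F \ X))
    (hC' : ∀ F, F ⊆ S → C (F \ X) → C F) (hb0 : 0 ≤ b)
    (hb : ∀ ν, Law X ν → Near X ν r → pr ν X B ≤ b) :
    pr μ S (fun F => B F ∧ C F) ≤ b * pr μ S C := by
  refine (pr_mono' hμ (B := fun F => B (F ∩ X) ∧ C (F \ X)) fun F hF h =>
    ⟨hB F hF h.1, hC F hF h.2⟩).trans ((pr_prod hX hμ hN hb).trans ?_)
  exact mul_le_mul_of_nonneg_left (pr_mono' hμ fun F hF h => hC' F hF h) hb0

/-- The bound for the four-arm probability at scale `k`. -/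
def NF (K r : ℝ) (k : ℕ) : Prop := ∀ (e : Edg) (μ : Finset Edg → ℝ), Law (ebx e k) μ →
  Near (ebx e k) μ r → pr μ (ebx e k) (fun F => A4e k e ↑F) ≤ K * ((k:ℝ) + 1) ^ (-(5/4) : ℝ)

theorem mem_co {a b c d : ℤ} {g : Edg} (h : g ∈ RE a b c d) : a ≤ g.1 ∧ g.1 ≤ b ∧
    c ≤ g.2.1 ∧ g.2.1 ≤ d := by
  obtain ⟨x, y, _ | _⟩ := g
  · rw [mem_RE_false] at h; simp only; omega
  · rw [mem_RE_true] at h; simp only; omega

theorem mem_of_co {a b c d : ℤ} {g : Edg} (h1 : a ≤ g.1) (h2 : g.1 + 1 ≤ b) (h3 : c ≤ g.2.1)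
    (h4 : g.2.1 + 1 ≤ d) : g ∈ RE a b c d := by
  obtain ⟨x, y, _ | _⟩ := g
  · rw [mem_RE_false]; simp only at *; omega
  · rw [mem_RE_true]; simp only at *; omega

/-- Distance of two edges. -/
def ds (e f : Edg) : ℕ := max (f.1 - e.1).natAbs (f.2.1 - e.2.1).natAbs

theorem ds_le {e f : Edg} {n : ℕ} : ds e f ≤ n ↔ |f.1 - e.1| ≤ n ∧ |f.2.1 - e.2.1| ≤ n := by
  unfold ds
  rw [max_le_iff, abs_le, abs_le]
  omega

theorem ds_ge {e f : Edg} {n : ℕ} : n ≤ ds e f ↔ (n:ℤ) ≤ |f.1 - e.1| ∨ (n:ℤ) ≤ |f.2.1 - e.2.1| := by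
  unfold ds
  rw [le_max_iff, le_abs, le_abs]
  omega

theorem A4e_inter {k : ℕ} {e : Edg} (F : Finset Edg) (h : A4e k e (↑F : Set Edg)) :
    A4e k e (↑(F ∩ ebx e k) : Set Edg) := by
  rw [A4e_local (G := (↑F : Set Edg))]
  · exact h
  · rw [Finset.coe_inter, Set.inter_assoc, Set.inter_self]

theorem A4e_sdiff {k : ℕ} {e : Edg} {X : Finset Edg} (hd : Disjoint (ebx e k) X)
    (F : Finset Edg) : A4e k e (↑(F \ X) : Set Edg) ↔ A4e k e (↑F : Set Edg) := by
  apply A4e_local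
  ext x
  rw [Finset.coe_sdiff]
  simp only [Set.mem_inter_iff, Set.mem_sdiff, Finset.mem_coe]
  constructor
  · rintro ⟨⟨h1, _⟩, h2⟩; exact ⟨h1, h2⟩
  · rintro ⟨h1, h2⟩; exact ⟨⟨h1, fun h3 => (Finset.disjoint_left.mp hd) h2 h3⟩, h2⟩

theorem A4a_sdiff {c : ℤ × ℤ} {d k : ℕ} {X : Finset Edg} (hX : X ⊆ blk c d) (F : Finset Edg) :
    A4a c d k (↑(F \ X) : Set Edg) ↔ A4a c d k (↑F : Set Edg) := by
  have : (↑(F \ X) : Set Edg) ∩ ↑(blk c k \ blk c d) = (↑F : Set Edg) ∩ ↑(blk c k \ blk c d) := by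
    ext x
    rw [Finset.coe_sdiff, Finset.coe_sdiff]
    simp only [Set.mem_inter_iff, Set.mem_sdiff, Finset.mem_coe]
    constructor
    · rintro ⟨⟨h1, _⟩, h2⟩; exact ⟨h1, h2⟩
    · rintro ⟨h1, h2⟩; exact ⟨⟨h1, fun h3 => h2.2 (hX h3)⟩, h2⟩
  unfold A4a
  rw [this]

variable {K r : ℝ} {k : ℕ}

theorem NF.nonneg (h : NF K r k) (hr : 1 ≤ r) : 0 ≤ K := by
  have h1 := h (0, 0, true) (un _) (un_law _) (by
    intro e _ G _ _
    unfold un
    have : (0:ℝ) < (1 / 2) ^ (ebx (0, 0, true) k).card := by positivity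
    constructor <;> nlinarith)
  have h2 := (pr_nonneg (un_law (ebx (0, 0, true) k)) (fun F => A4e k (0, 0, true) ↑F)).trans h1
  by_contra hK
  push Not at hK
  have h3 : (0:ℝ) < ((k:ℝ) + 1) ^ (-(5/4) : ℝ) := by positivity
  nlinarith

/-- The bound in a larger set. -/
theorem NF.big (h : NF K r k) {e : Edg} {S : Finset Edg} (hS : ebx e k ⊆ S)
    {μ : Finset Edg → ℝ} (hμ : Law S μ) (hN : Near S μ r) :
    pr μ S (fun F => A4e k e ↑F) ≤ K * ((k:ℝ) + 1) ^ (-(5/4) : ℝ) := by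
  rw [pr_mg hS μ (A := fun F => A4e k e ↑F)]
  · exact h e _ (mg_law' hS hμ) (mg_near' hS hN)
  · intro F _
    apply A4e_local
    rw [Finset.coe_inter, Set.inter_assoc, Set.inter_self]

/-- Far from the boundary of the box. -/
theorem bulk {C : ℝ} (hC : ∀ (c : ℤ × ℤ) (d k : ℕ), 1 ≤ d → d ≤ k → ∀ S : Finset Edg,
      blk c k ⊆ S → PQ (1/2) S (fun F => A4a c d k ↑F) ≤ C * ((d:ℝ) / k) ^ (5/4 : ℝ))
    (hr : 1 ≤ r) (hNF : ∀ j < k, NF K r j) {e f : Edg} {μ : Finset Edg → ℝ}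
    (hμ : Law (ebx e k) μ) (hN : Near (ebx e k) μ r) {T : Finset Edg} (hT : T ⊆ ebx e k)
    (hTo : ∀ g ∈ T, ds e g ≤ ds e f) (hf : f ∈ ebx e k) (hfe : f ≠ e)
    (hk : 2 * ds e f + 2 ≤ k) :
    pr (hyb μ (ebx e k) T) (ebx e k) (fun F => PV k e f ↑F) ≤
      (if 4 ≤ ds e f then (K * (((ds e f / 4 : ℕ) : ℝ) + 1) ^ (-(5/4) : ℝ)) ^ 2 else 1) *
        (C * (((2 * ds e f + 2 : ℕ) : ℝ) / k) ^ (5/4 : ℝ)) := by
  obtain ⟨s, hs⟩ : ∃ s, s = ds e f := ⟨_, rfl⟩
  rw [← hs] at hTo hk ⊢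
  obtain ⟨ν, hν⟩ : ∃ ν, ν = hyb μ (ebx e k) T := ⟨_, rfl⟩
  have hνL : Law (ebx e k) ν := by rw [hν]; exact hyb_law hT hμ
  have hνN : Near (ebx e k) ν r := by rw [hν]; exact hyb_near hT hμ hN hr
  rw [← hν]
  obtain ⟨fx, fy⟩ := ds_le.mp (show ds e f ≤ s by omega)
  have fz := ds_ge.mp (show s ≤ ds e f by omega)
  have afx := abs_le.mp fx
  have afy := abs_le.mp fy
  -- the annulus
  have hann : pr ν (ebx e k) (fun F => A4a (bp e) (2 * s + 2) k ↑F) ≤
      C * (((2 * s + 2 : ℕ) : ℝ) / k) ^ (5/4 : ℝ) := by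
    have hTd : T ⊆ blk (bp e) (2 * s + 2) := by
      intro g hg
      have h1 := ds_le.mp (hTo g hg)
      rw [abs_le, abs_le] at h1
      unfold blk bp
      apply mem_of_co <;> simp only <;> omega
    have h1 : pr ν (ebx e k) (fun F => A4a (bp e) (2 * s + 2) k ↑F) =
        PQ (1/2) (ebx e k) (fun F => A4a (bp e) (2 * s + 2) k ↑F) := by
      have e1 : ∀ F : Finset Edg, ind (A4a (bp e) (2 * s + 2) k (↑F : Set Edg)) =
          ind (A4a (bp e) (2 * s + 2) k (↑(F \ T) : Set Edg)) := fun F =>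
        ind_congr (A4a_sdiff hTd F).symm
      have e2 := hyb_out hT hμ (fun F => ind (A4a (bp e) (2 * s + 2) k (↑F : Set Edg)))
      unfold PQ
      rw [← pr_un]
      unfold pr
      rw [em_congr (fun F _ => e1 F), hν, e2]
      exact em_congr (fun F _ => (e1 F).symm)
    rw [h1]
    exact hC (bp e) (2 * s + 2) k (by omega) hk _ (Finset.Subset.refl _)
  have hfann : ∀ F : Finset Edg, PV k e f ↑F → A4a (bp e) (2 * s + 2) k (↑F : Set Edg) := by
    intro F hF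
    apply pv_ann hF (by omega) hk
    unfold blk bp
    apply mem_of_co <;> simp only <;> omega
  by_cases h4 : 4 ≤ s
  · rw [if_pos h4]
    obtain ⟨s1, hs1⟩ : ∃ s1, s1 = s / 4 := ⟨_, rfl⟩
    rw [← hs1]
    have hs11 : 1 ≤ s1 := by omega
    have hs1k : s1 < k := by omega
    have hX1 : ebx e s1 ⊆ ebx e k := by
      unfold ebx
      exact RE_subset (by omega) (by omega) (by omega) (by omega)
    have hX2 : ebx f s1 ⊆ ebx e k := by
      unfold ebx
      exact RE_subset (by omega) (by omega) (by omega) (by omega)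
    have hd12 : Disjoint (ebx f s1) (ebx e s1) := by
      rw [Finset.disjoint_left]
      intro g h1 h2
      unfold ebx at h1 h2
      have a1 := mem_co h1
      have a2 := mem_co h2
      rw [le_abs, le_abs] at fz
      omega
    have hb1 : ebx e s1 ⊆ blk (bp e) (2 * s + 2) := by
      unfold ebx blk bp
      exact RE_subset (by simp only; omega) (by simp only; omega) (by simp only; omega)
        (by simp only; omega)
    have hb2 : ebx f s1 ⊆ blk (bp e) (2 * s + 2) := by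
      unfold ebx blk bp
      exact RE_subset (by simp only; omega) (by simp only; omega) (by simp only; omega)
        (by simp only; omega)
    obtain ⟨A, hA⟩ : ∃ A, A = K * ((s1:ℝ) + 1) ^ (-(5/4) : ℝ) := ⟨_, rfl⟩
    have hA0 : 0 ≤ A := by
      rw [hA]
      have := (hNF s1 hs1k).nonneg hr
      positivity
    rw [← hA]
    have h1 : pr ν (ebx e k) (fun F => PV k e f ↑F) ≤ pr ν (ebx e k) (fun F => A4e s1 e ↑F ∧
        (A4e s1 f ↑F ∧ A4a (bp e) (2 * s + 2) k ↑F)) := by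
      apply pr_mono' hνL
      intro F _ hF
      refine ⟨pv_e hF hs11 hs1k.le ?_, pv_f hf hfe hF hs11 ?_ ?_ ?_, hfann F hF⟩
      · intro h2
        unfold ebx at h2
        have a1 := mem_co h2
        rw [le_abs, le_abs] at fz
        omega
      · omega
      · omega
      · rcases fz with h | h
        · left; omega
        · right; omega
    have h2 : pr ν (ebx e k) (fun F => A4e s1 e ↑F ∧
        (A4e s1 f ↑F ∧ A4a (bp e) (2 * s + 2) k ↑F)) ≤
        A * pr ν (ebx e k) (fun F => A4e s1 f ↑F ∧ A4a (bp e) (2 * s + 2) k ↑F) := by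
      refine pr_two hX1 hνL hνN (B := fun F => A4e s1 e ↑F)
        (C := fun F => A4e s1 f ↑F ∧ A4a (bp e) (2 * s + 2) k ↑F)
        (fun F _ h => A4e_inter F h) (fun F _ h => ?_) (fun F _ h => ?_) hA0 ?_
      · exact ⟨(A4e_sdiff hd12 F).mpr h.1, (A4a_sdiff hb1 F).mpr h.2⟩
      · exact ⟨(A4e_sdiff hd12 F).mp h.1, (A4a_sdiff hb1 F).mp h.2⟩
      · intro ν' h3 h4
        rw [hA]
        exact hNF s1 hs1k e ν' h3 h4
    have h3 : pr ν (ebx e k) (fun F => A4e s1 f ↑F ∧ A4a (bp e) (2 * s + 2) k ↑F) ≤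
        A * pr ν (ebx e k) (fun F => A4a (bp e) (2 * s + 2) k ↑F) := by
      refine pr_two hX2 hνL hνN (B := fun F => A4e s1 f ↑F)
        (C := fun F => A4a (bp e) (2 * s + 2) k ↑F)
        (fun F _ h => A4e_inter F h) (fun F _ h => ?_) (fun F _ h => ?_) hA0 ?_
      · exact (A4a_sdiff hb2 F).mpr h
      · exact (A4a_sdiff hb2 F).mp h
      · intro ν' h3 h4
        rw [hA]
        exact hNF s1 hs1k f ν' h3 h4
    calc pr ν (ebx e k) (fun F => PV k e f ↑F)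
        ≤ A * (A * pr ν (ebx e k) (fun F => A4a (bp e) (2 * s + 2) k ↑F)) :=
          h1.trans (h2.trans (mul_le_mul_of_nonneg_left h3 hA0))
      _ ≤ A * (A * (C * (((2 * s + 2 : ℕ) : ℝ) / k) ^ (5/4 : ℝ))) := by gcongr
      _ = _ := by ring
  · rw [if_neg h4, one_mul]
    exact (pr_mono' hνL fun F _ hF => hfann F hF).trans hann

/-- The corner point used for the crossing. -/
def zz (e f : Edg) (k s : ℕ) : Vtx :=
  if (s:ℤ) ≤ |f.1 - e.1| then (if e.1 ≤ f.1 then (e.1 + k, f.2.1) else (e.1 - k, f.2.1))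
  else (if e.2.1 ≤ f.2.1 then (f.1, e.2.1 + k) else (f.1, e.2.1 - k))

theorem zz_spec {e f : Edg} {k s t : ℕ} (hs : ds e f = s) (ht : t + s = k) :
    sd (src f) (zz e f k s) ≤ t ∧ (k:ℤ) ≤ sd (src e) (zz e f k s) := by
  obtain ⟨fx, fy⟩ := ds_le.mp (show ds e f ≤ s by omega)
  have fz := ds_ge.mp (show s ≤ ds e f by omega)
  rw [abs_le] at fx fy
  have hsrcf : src f = (f.1, f.2.1) := rfl
  have hsrce : src e = (e.1, e.2.1) := rfl
  rw [hsrcf, hsrce]
  unfold zz sd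
  rw [le_abs, le_abs] at fz
  by_cases h1 : (s:ℤ) ≤ |f.1 - e.1|
  · rw [if_pos h1]
    rw [le_abs] at h1
    by_cases h2 : e.1 ≤ f.1
    · rw [if_pos h2]
      constructor
      · rw [max_le_iff, abs_le, abs_le]; simp only; omega
      · rw [le_max_iff, le_abs, le_abs]; simp only; omega
    · rw [if_neg h2]
      constructor
      · rw [max_le_iff, abs_le, abs_le]; simp only; omega
      · rw [le_max_iff, le_abs, le_abs]; simp only; omega
  · rw [if_neg h1]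
    rw [le_abs] at h1
    by_cases h2 : e.2.1 ≤ f.2.1
    · rw [if_pos h2]
      constructor
      · rw [max_le_iff, abs_le, abs_le]; simp only; omega
      · rw [le_max_iff, le_abs, le_abs]; simp only; omega
    · rw [if_neg h2]
      constructor
      · rw [max_le_iff, abs_le, abs_le]; simp only; omega
      · rw [le_max_iff, le_abs, le_abs]; simp only; omega

/-- The box around `e` is in a half-plane with `zz` on its boundary. -/
theorem zz_half (e f : Edg) (k s : ℕ) : ∃ (a b : Bool) (X : ℤ),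
    (∀ g ∈ ebx e k, hpl a b X (src g) ∧ hpl a b X (tgt g)) ∧ |co a (zz e f k s) - X| ≤ 1 := by
  have key : ∀ g ∈ ebx e k, inR (e.1 - k) (e.1 + k) (e.2.1 - k) (e.2.1 + k) (src g) ∧
      inR (e.1 - k) (e.1 + k) (e.2.1 - k) (e.2.1 + k) (tgt g) := fun g hg => ends_RE hg
  unfold inR at key
  unfold zz
  split_ifs with h1 h2 h2
  · refine ⟨true, true, e.1 + k, fun g hg => ?_, ?_⟩
    · obtain ⟨a1, a2⟩ := key g hg
      exact ⟨a1.1.2, a2.1.2⟩
    · unfold co; simp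
  · refine ⟨true, false, e.1 - k, fun g hg => ?_, ?_⟩
    · obtain ⟨a1, a2⟩ := key g hg
      exact ⟨a1.1.1, a2.1.1⟩
    · unfold co; simp
  · refine ⟨false, true, e.2.1 + k, fun g hg => ?_, ?_⟩
    · obtain ⟨a1, a2⟩ := key g hg
      exact ⟨a1.2.2, a2.2.2⟩
    · unfold co; simp
  · refine ⟨false, false, e.2.1 - k, fun g hg => ?_, ?_⟩
    · obtain ⟨a1, a2⟩ := key g hg
      exact ⟨a1.2.1, a2.2.1⟩
    · unfold co; simp

/-- Half-plane crossings, for dependent laws. -/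
theorem cr_near {C ε : ℝ} (hC : ∀ a s : Bool, Sta C ε a s) (hr : 1 ≤ r) {T : Finset Edg}
    {z : Vtx} {a b : Bool} {X : ℤ} (hT : ∀ g ∈ T, hpl a b X (src g) ∧ hpl a b X (tgt g))
    (hz : |co a z - X| ≤ 1) {n : ℕ} (hη : (r - 1) / (2 * (r + 1)) ≤ ε * (n:ℝ) ^ (-(3/4) : ℝ))
    {ν : Finset Edg → ℝ} (hνL : Law T ν) (hνN : Near T ν r) {r0 R0 : ℕ} (h1 : 1 ≤ r0)
    (h2 : r0 ≤ R0) (h3 : R0 ≤ n) :
    pr ν T (fun F => Cr z r0 R0 ↑F) ≤ C * ((r0:ℝ) / R0) ^ (7/24 : ℝ) := by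
  have hr0 : 0 < r := by linarith
  have hr1 : 0 < 1 + r := by linarith
  have hinc : Incr T (fun F => ind (Cr z r0 R0 (↑F : Set Edg))) := by
    intro A B hAB _
    exact ind_mono (fun h => h.mono (by exact_mod_cast hAB))
  have h4 := dom_up hr0 (fun F hF => (hνL.pos F hF).le) hνN hinc
  rw [hνL.one, one_mul] at h4
  refine h4.trans ?_
  have e1 : r / (1 + r) - 1/2 = (r - 1) / (2 * (r + 1)) := by field_simp; ring
  have h5 : |r / (1 + r) - 1/2| ≤ ε * (n:ℝ) ^ (-(3/4) : ℝ) := by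
    rw [e1, abs_of_nonneg (by apply div_nonneg <;> linarith)]
    exact hη
  exact hC a b T z X hT hz n _ (by positivity) (by rw [div_le_one hr1]; linarith) h5 r0 R0 h1 h2 h3

/-- Near the boundary of the box. -/
theorem bdry {C ε : ℝ} (hC : ∀ a s : Bool, Sta C ε a s) (hr : 1 ≤ r)
    (hNF : ∀ j < k, NF K r j) {e f : Edg} {ν : Finset Edg → ℝ}
    (hνL : Law (ebx e k) ν) (hνN : Near (ebx e k) ν r) (hf : f ∈ ebx e k) (hfe : f ≠ e)
    {s t k1 t1 : ℕ} (hs : ds e f = s) (ht : t + s = k) (hk1 : k1 = k / 16) (ht1 : t1 = min t k1)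
    (hk : k < 2 * s + 2) (hk64 : 64 ≤ k)
    (hη : (r - 1) / (2 * (r + 1)) ≤ ε * (k:ℝ) ^ (-(3/4) : ℝ)) :
    pr ν (ebx e k) (fun F => PV k e f ↑F) ≤
      (K * ((k1:ℝ) + 1) ^ (-(5/4) : ℝ)) *
      ((if 1 ≤ t1 then K * ((t1:ℝ) + 1) ^ (-(5/4) : ℝ) else 1) *
      (if 2 * t + 2 ≤ k / 4 then
        C * (((2 * t + 2 : ℕ) : ℝ) / ((k / 4 : ℕ) : ℝ)) ^ (7/24 : ℝ) else 1)) := by
  obtain ⟨fx, fy⟩ := ds_le.mp (show ds e f ≤ s by omega)
  have fz := ds_ge.mp (show s ≤ ds e f by omega)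
  have afx := abs_le.mp fx
  have afy := abs_le.mp fy
  have hk1k : k1 < k := by omega
  have ht1k : t1 < k := by omega
  obtain ⟨zf, ze⟩ := zz_spec hs ht
  obtain ⟨a, b, X, hhp, hX⟩ := zz_half e f k s
  obtain ⟨z, hz⟩ : ∃ z, z = zz e f k s := ⟨_, rfl⟩
  rw [← hz] at zf ze hX
  -- the crossing
  obtain ⟨D, hD⟩ : ∃ D : Finset Edg → Prop, D = fun F : Finset Edg => 2 * t + 2 ≤ k / 4 →
    Cr z (2 * t + 2) (k / 4) (↑F : Set Edg) := ⟨_, rfl⟩
  have hDmono : ∀ F G : Finset Edg, F ⊆ G → D F → D G := by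
    intro F G hFG h
    rw [hD] at h ⊢
    exact fun h1 => (h h1).mono (by exact_mod_cast hFG)
  have hDloc : ∀ F X : Finset Edg, (2 * t + 2 ≤ k / 4 →
      Disjoint X (bx z (k / 4) \ bx z (2 * t + 2))) → D F → D (F \ X) := by
    intro F X hX h
    rw [hD] at h ⊢
    intro h1
    refine ((h h1).loc h1).mono ?_
    rintro g ⟨h2, h3⟩
    rw [Finset.coe_sdiff]
    refine ⟨h2, fun h4 => (Finset.disjoint_left.mp (hX h1)) h4 ?_⟩
    rw [Finset.mem_sdiff]
    exact h3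
  have hDpr : pr ν (ebx e k) D ≤ (if 2 * t + 2 ≤ k / 4 then
        C * (((2 * t + 2 : ℕ) : ℝ) / ((k / 4 : ℕ) : ℝ)) ^ (7/24 : ℝ) else 1) := by
    split_ifs with h1
    · refine (pr_mono' hνL (B := fun F => Cr z (2 * t + 2) (k / 4) (↑F : Set Edg))
        (fun F _ h => ?_)).trans (cr_near hC hr hhp hX hη hνL hνN (by omega) h1 (by omega))
      rw [hD] at h
      exact h h1
    · exact pr_le_one' hνL _
  have hX1 : ebx e k1 ⊆ ebx e k := by
    unfold ebx
    exact RE_subset (by omega) (by omega) (by omega) (by omega)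
  have hX2 : ebx f t1 ⊆ ebx e k := by
    unfold ebx
    exact RE_subset (by omega) (by omega) (by omega) (by omega)
  have hd12 : Disjoint (ebx f t1) (ebx e k1) := by
    rw [Finset.disjoint_left]
    intro g h1 h2
    unfold ebx at h1 h2
    have a1 := mem_co h1
    have a2 := mem_co h2
    rw [le_abs, le_abs] at fz
    omega
  have hd1 : Disjoint (ebx e k1) (bx z (k / 4)) := by
    rw [Finset.disjoint_left]
    intro g h1 h2
    unfold ebx at h1
    unfold bx at h2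
    have a1 := mem_co h1
    have a2 := mem_co h2
    have hsrce : src e = (e.1, e.2.1) := rfl
    rw [hsrce] at ze
    unfold sd at ze
    simp only at ze
    rw [le_max_iff, le_abs, le_abs] at ze
    omega
  have hd2 : ebx f t1 ⊆ bx z (2 * t + 2) := by
    have hsrcf : src f = (f.1, f.2.1) := rfl
    rw [hsrcf] at zf
    unfold sd at zf
    simp only at zf
    rw [max_le_iff, abs_le, abs_le] at zf
    unfold ebx bx
    push_cast
    exact RE_subset (by omega) (by omega) (by omega) (by omega)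
  obtain ⟨A, hA⟩ : ∃ A, A = K * ((k1:ℝ) + 1) ^ (-(5/4) : ℝ) := ⟨_, rfl⟩
  have hA0 : 0 ≤ A := by
    rw [hA]
    have := (hNF k1 hk1k).nonneg hr
    positivity
  rw [← hA]
  obtain ⟨A', hA'⟩ : ∃ A', A' = (if 1 ≤ t1 then K * ((t1:ℝ) + 1) ^ (-(5/4) : ℝ) else 1) :=
    ⟨_, rfl⟩
  have hA'0 : 0 ≤ A' := by
    rw [hA']
    have := (hNF t1 ht1k).nonneg hr
    split_ifs
    · positivity
    · norm_num
  rw [← hA']
  obtain ⟨B2, hB2⟩ : ∃ B2 : Finset Edg → Prop, B2 = fun F : Finset Edg => 1 ≤ t1 → A4e t1 f (↑F : Set Edg) :=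
    ⟨_, rfl⟩
  have h1 : pr ν (ebx e k) (fun F => PV k e f ↑F) ≤ pr ν (ebx e k) (fun F => A4e k1 e ↑F ∧
      (B2 F ∧ D F)) := by
    apply pr_mono' hνL
    intro F hFS hF
    refine ⟨pv_e hF (by omega) hk1k.le ?_, ?_, ?_⟩
    · intro h2
      unfold ebx at h2
      have a1 := mem_co h2
      rw [le_abs, le_abs] at fz
      omega
    · rw [hB2]
      intro ht1'
      refine pv_f hf hfe hF ht1' ?_ ?_ ?_
      · omega
      · omega
      · rcases fz with h | h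
        · left; omega
        · right; omega
    · rw [hD]
      intro h2
      have h3 := pv_cr (z := z) (r := 2 * t + 2) (R := k / 4) hf hfe hF (by push_cast; omega)
        (by omega)
      have h4 : (↑F : Set Edg) ∩ ↑(ebx e k) ⊆ ↑F := Set.inter_subset_left
      exact h3.mono h4
  have h2 : pr ν (ebx e k) (fun F => A4e k1 e ↑F ∧ (B2 F ∧ D F)) ≤
      A * pr ν (ebx e k) (fun F => B2 F ∧ D F) := by
    refine pr_two hX1 hνL hνN (B := fun F => A4e k1 e ↑F) (C := fun F => B2 F ∧ D F)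
      (fun F _ h => A4e_inter F h) (fun F _ h => ?_) (fun F _ h => ?_) hA0 ?_
    · refine ⟨?_, hDloc F _ (fun _ => hd1.mono_right Finset.sdiff_subset) h.2⟩
      rw [hB2] at h ⊢
      exact fun h3 => (A4e_sdiff hd12 F).mpr (h.1 h3)
    · refine ⟨?_, hDmono _ _ Finset.sdiff_subset h.2⟩
      rw [hB2] at h ⊢
      exact fun h3 => (A4e_sdiff hd12 F).mp (h.1 h3)
    · intro ν' h3 h4
      rw [hA]
      exact hNF k1 hk1k e ν' h3 h4
  have h3 : pr ν (ebx e k) (fun F => B2 F ∧ D F) ≤ A' * pr ν (ebx e k) D := by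
    by_cases ht1' : 1 ≤ t1
    · refine pr_two hX2 hνL hνN (B := B2) (C := D)
        (fun F _ h => ?_) (fun F _ h => ?_) (fun F _ h => hDmono _ _ Finset.sdiff_subset h) hA'0 ?_
      · rw [hB2] at h ⊢
        exact fun h3 => A4e_inter F (h h3)
      · exact hDloc F _ (fun _ => Finset.disjoint_sdiff.mono_left hd2) h
      · intro ν' h3 h4
        rw [hA', if_pos ht1', hB2]
        refine le_trans (pr_mono' h3 (fun F _ h => h ht1')) (hNF t1 ht1k f ν' h3 h4)
    · rw [hA', if_neg ht1', one_mul]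
      exact pr_mono' hνL fun F _ h => h.2
  have hD0 := pr_nonneg hνL D
  calc pr ν (ebx e k) (fun F => PV k e f ↑F)
      ≤ A * (A' * pr ν (ebx e k) D) := h1.trans (h2.trans (mul_le_mul_of_nonneg_left h3 hA0))
    _ ≤ _ := by gcongr

end Q291.NL
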