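import Pool.Agent.Q291.NL.Low
import Pool.Agent.Q291.FK.Crv

/-!
Stability of the law of the curve under dependent laws.
-/

set_option autoImplicit false
set_option maxHeartbeats 2000000

namespace Q291.NL

open H974 Finset H342P H984P H984N Q291.EP Q291.FK

/-- The expectation of a function of the curve under the law `μ`. -/
noncomputable def exm (R : Rect) (μ : Finset Edg → ℝ) (δ : ℝ) (Φ : C(unitInterval, ℂ) → ℝ) : ℝ :=
  FK.em μ (R.dm δ).edges (fun F => Φ (R.curve δ F))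

theorem abs_exm_le {R : Rect} {μ : Finset Edg → ℝ} {δ : ℝ} (hμ : Law (R.dm δ).edges μ)
    {Φ : C(unitInterval, ℂ) → ℝ} (h : ∀ f, |Φ f| ≤ 1) : |exm R μ δ Φ| ≤ 1 := by
  have := abs_em hμ (f := fun F => Φ (R.curve δ F)) (g := fun _ => 1) (fun F _ => h _)
  rwa [hμ.const] at this

/-- For a given mesh of the grid. -/
theorem grid_near {C : ℝ} (hC : 1 ≤ C) (hcs : ∀ (D : Dm) (n w : ℕ), D.Ok → 1 ≤ w → w ≤ n →
    D.r - D.l ≤ n → D.h + 1 ≤ n → 8 * (w:ℤ) ≤ -D.l → 8 * (w:ℤ) ≤ D.r → 8 * (w:ℤ) ≤ D.h →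
    ∀ g : List (ℤ × ℤ) → ℝ, (∀ c, |g c| ≤ 1) → ∀ r : ℝ, 1 ≤ r →
      ∀ μ : Finset Edg → ℝ, Law D.edges μ → Near D.edges μ r →
      |FK.em μ D.edges (fun F => g (cp D w F)) -
        FK.em (un D.edges) D.edges (fun F => g (cp D w F))| ≤
        C * ((n:ℝ) ^ (3/4 : ℝ) * ((n:ℝ) / w) ^ (31/24 : ℝ)) * ((r - 1) / (2 * (r + 1)))) (R : Rect)
    {κ S δ η : ℝ} (hκ : 0 < κ) (hS : 0 < S) (hδ : 0 < δ) (hsh : (R.dm δ).Shape κ (S / δ))
    (hδS : δ ≤ S) (hηδ : δ ≤ η) (hη : 16 * η ≤ κ * S) {r : ℝ} (hr : 1 ≤ r) {μ : Finset Edg → ℝ}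
    (hμ : Law (R.dm δ).edges μ) (hN : Near (R.dm δ).edges μ r)
    {Φ : C(unitInterval, ℂ) → ℝ} (hΦ : ∀ f, |Φ f| ≤ 1)
    (hL : ∀ f g ρ, Fr f g ρ → |Φ f - Φ g| ≤ ρ) :
    |exm R μ δ Φ - exm R (un (R.dm δ).edges) δ Φ| ≤ 28 * η +
      C * (3 * S) ^ (49/24 : ℝ) * (η ^ (-(31/24) : ℝ) *
        ((r - 1) / (2 * (r + 1)) * δ ^ (-(3/4) : ℝ))) := by
  classical
  obtain ⟨ζ, hζ⟩ : ∃ ζ : ℝ, ζ = (r - 1) / (2 * (r + 1)) := ⟨_, rfl⟩
  have hζ0 : 0 ≤ ζ := by rw [hζ]; exact div_nonneg (by linarith) (by linarith)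
  rw [← hζ]
  have hη0 : 0 < η := lt_of_lt_of_le hδ hηδ
  obtain ⟨D, hD⟩ : ∃ D : Dm, D = R.dm δ := ⟨_, rfl⟩
  rw [← hD] at hsh
  have hSδ : 1 ≤ S / δ := by rw [le_div_iff₀ hδ]; linarith
  have hηδ' : 1 ≤ η / δ := by rw [le_div_iff₀ hδ]; linarith
  obtain ⟨n, hn⟩ : ∃ n : ℕ, n = ⌈S / δ⌉₊ + 1 := ⟨_, rfl⟩
  obtain ⟨w, hw⟩ : ∃ w : ℕ, w = ⌈η / δ⌉₊ := ⟨_, rfl⟩
  have n1 : S / δ + 1 ≤ n := by
    rw [hn]; push_cast
    linarith [Nat.le_ceil (S / δ)]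
  have n2 : (n:ℝ) ≤ 3 * S / δ := by
    rw [hn]; push_cast
    have := Nat.ceil_lt_add_one (show 0 ≤ S / δ by positivity)
    have e : 3 * S / δ = 3 * (S / δ) := by ring
    rw [e]
    linarith
  have w1 : η / δ ≤ w := by rw [hw]; exact Nat.le_ceil _
  have w2 : (w:ℝ) ≤ 2 * (η / δ) := by
    rw [hw]
    have := Nat.ceil_lt_add_one (show 0 ≤ η / δ by positivity)
    linarith
  have hn0 : (0:ℝ) < n := by linarith
  have hw0 : (0:ℝ) < w := by linarith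
  have hw1 : 1 ≤ w := by exact_mod_cast hw0
  have h8 : 8 * (w:ℝ) ≤ κ * (S / δ) := by
    have : 16 * (η / δ) ≤ κ * (S / δ) := by
      rw [← mul_div_assoc, ← mul_div_assoc]
      exact div_le_div_of_nonneg_right hη hδ.le
    linarith
  have c1 : 8 * (w:ℤ) ≤ -D.l := by
    have := h8.trans hsh.l_ge
    exact_mod_cast this
  have c2 : 8 * (w:ℤ) ≤ D.r := by
    have := h8.trans hsh.r_ge
    exact_mod_cast this
  have c3 : 8 * (w:ℤ) ≤ D.h := by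
    have := h8.trans hsh.h_ge
    exact_mod_cast this
  have c4 : D.r - D.l ≤ n := by
    have : ((D.r - D.l : ℤ) : ℝ) ≤ n := hsh.w_le.trans (by linarith)
    exact_mod_cast this
  have c5 : D.h + 1 ≤ n := by
    have : ((D.h + 1 : ℤ) : ℝ) ≤ n := by
      push_cast
      linarith [hsh.h_le]
    exact_mod_cast this
  have c6 : w ≤ n := by
    have : (w:ℤ) ≤ n := by omega
    exact_mod_cast this
  -- a function of the coarse path
  obtain ⟨g, hg⟩ : ∃ g : List (ℤ × ℤ) → ℝ, g = fun c =>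
      if h : ∃ G, G ⊆ D.edges ∧ cp D w G = c then Φ (R.curve δ h.choose) else 0 := ⟨_, rfl⟩
  have hg1 : ∀ c, |g c| ≤ 1 := by
    intro c
    rw [hg]
    simp only
    split_ifs with h
    · exact hΦ _
    · simp
  have hg2 : ∀ F, F ⊆ D.edges → |Φ (R.curve δ F) - g (cp D w F)| ≤ 14 * η := by
    intro F hF
    have hex : ∃ G, G ⊆ D.edges ∧ cp D w G = cp D w F := ⟨F, hF, rfl⟩
    have hge : g (cp D w F) = Φ (R.curve δ hex.choose) := by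
      rw [hg]
      simp only
      rw [dif_pos hex]
    rw [hge]
    have hsp := hex.choose_spec
    have hcl := cp_close R hδ.le (by rw [← hD]; exact hsh.ok) (by omega : 0 < w)
      (G := F) (G' := hex.choose) (by rw [← hD]; exact hF) (by rw [← hD]; exact hsp.1)
      (by rw [← hD]; exact hsp.2.symm)
    refine (hL _ _ _ hcl).trans ?_
    have : δ * (6 * w) ≤ 12 * η := by
      have h2 : δ * (6 * (2 * (η / δ))) = 12 * η := by field_simp; ring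
      rw [← h2]
      exact mul_le_mul_of_nonneg_left (by linarith) hδ.le
    linarith
  have hq : ∀ ν : Finset Edg → ℝ, Law D.edges ν →
      |exm R ν δ Φ - FK.em ν D.edges (fun F => g (cp D w F))| ≤ 14 * η := by
    intro ν hν
    unfold exm
    rw [← hD, ← em_sub]
    have := abs_em hν
      (f := fun F => Φ (R.curve δ F) - g (cp D w F)) (g := fun _ => 14 * η) hg2
    rwa [hν.const] at this
  rw [← hD] at hμ hN
  have a1 := hq μ hμ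
  have a2 := hq (un D.edges) (un_law _)
  rw [← hD]
  have a3 := hcs D n w hsh.ok hw1 c6 c4 c5 c1 c2 c3 g hg1 r hr μ hμ hN
  rw [← hζ] at a3
  have hb : (n:ℝ) ^ (3/4 : ℝ) * ((n:ℝ) / w) ^ (31/24 : ℝ) ≤
      (3 * S) ^ (49/24 : ℝ) * (η ^ (-(31/24) : ℝ) * δ ^ (-(3/4) : ℝ)) := by
    have b1 : (n:ℝ) ^ (3/4 : ℝ) ≤ (3 * S) ^ (3/4 : ℝ) * δ ^ (-(3/4) : ℝ) := by
      refine (Real.rpow_le_rpow hn0.le n2 (by norm_num)).trans (le_of_eq ?_)
      rw [Real.div_rpow (by positivity) hδ.le, Real.rpow_neg hδ.le, div_eq_mul_inv]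
    have b2 : ((n:ℝ) / w) ^ (31/24 : ℝ) ≤ (3 * S) ^ (31/24 : ℝ) * η ^ (-(31/24) : ℝ) := by
      have b3 : (n:ℝ) / w ≤ 3 * S / η := by
        rw [div_le_div_iff₀ hw0 hη0]
        have e1 : (n:ℝ) * η ≤ 3 * S / δ * η := mul_le_mul_of_nonneg_right n2 hη0.le
        have e2 : 3 * S / δ * η = 3 * S * (η / δ) := by ring
        have e3 : 3 * S * (η / δ) ≤ 3 * S * w := mul_le_mul_of_nonneg_left w1 (by positivity)
        linarith
      refine (Real.rpow_le_rpow (by positivity) b3 (by norm_num)).trans (le_of_eq ?_)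
      rw [Real.div_rpow (by positivity) hη0.le, Real.rpow_neg hη0.le, div_eq_mul_inv]
    have b4 : (3 * S) ^ (3/4 : ℝ) * (3 * S) ^ (31/24 : ℝ) = (3 * S) ^ (49/24 : ℝ) := by
      rw [← Real.rpow_add (by positivity)]; norm_num
    calc (n:ℝ) ^ (3/4 : ℝ) * ((n:ℝ) / w) ^ (31/24 : ℝ)
        ≤ ((3 * S) ^ (3/4 : ℝ) * δ ^ (-(3/4) : ℝ)) * ((3 * S) ^ (31/24 : ℝ) * η ^ (-(31/24) : ℝ)) :=
          mul_le_mul b1 b2 (by positivity) (by positivity)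
      _ = ((3 * S) ^ (3/4 : ℝ) * (3 * S) ^ (31/24 : ℝ)) *
          (η ^ (-(31/24) : ℝ) * δ ^ (-(3/4) : ℝ)) := by ring
      _ = _ := by rw [b4]
  have a4 : C * ((n:ℝ) ^ (3/4 : ℝ) * ((n:ℝ) / w) ^ (31/24 : ℝ)) * ζ ≤
      C * (3 * S) ^ (49/24 : ℝ) * (η ^ (-(31/24) : ℝ) * (ζ * δ ^ (-(3/4) : ℝ))) := by
    calc C * ((n:ℝ) ^ (3/4 : ℝ) * ((n:ℝ) / w) ^ (31/24 : ℝ)) * ζ
        ≤ C * ((3 * S) ^ (49/24 : ℝ) * (η ^ (-(31/24) : ℝ) * δ ^ (-(3/4) : ℝ))) * ζ :=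
          mul_le_mul_of_nonneg_right (mul_le_mul_of_nonneg_left hb (by linarith)) hζ0
      _ = _ := by ring
  have a5 := a3.trans a4
  rw [abs_le] at a1 a2 a5 ⊢
  constructor <;> linarith [a1.1, a1.2, a2.1, a2.2, a5.1, a5.2]

/-- **Stability of the law of the curve** below the scale `δ ^ (3/4)`. -/
theorem law_near (R : Rect) : ∃ C δ0 : ℝ, 0 < C ∧ 0 < δ0 ∧ ∀ δ : ℝ, 0 < δ → δ ≤ δ0 →
    ∀ r : ℝ, 1 ≤ r → ∀ μ : Finset Edg → ℝ, Law (R.dm δ).edges μ → Near (R.dm δ).edges μ r →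
    ∀ Φ : C(unitInterval, ℂ) → ℝ, (∀ f, |Φ f| ≤ 1) →
      (∀ f g ρ, Fr f g ρ → |Φ f - Φ g| ≤ ρ) →
      |exm R μ δ Φ - exm R (un (R.dm δ).edges) δ Φ| ≤
        C * (((r - 1) / (2 * (r + 1)) * δ ^ (-(3/4) : ℝ)) ^ (24/55 : ℝ) + δ) := by
  obtain ⟨C, hC, hcs⟩ := coarse_near
  obtain ⟨κ, S, δ1, hκ, hS, hδ1, -, hsh⟩ := R.shape
  obtain ⟨η0, hη0⟩ : ∃ η0 : ℝ, η0 = κ * S / 16 := ⟨_, rfl⟩
  have hη00 : 0 < η0 := by rw [hη0]; positivity
  obtain ⟨C', hC'⟩ : ∃ C' : ℝ, C' = C * (3 * S) ^ (49/24 : ℝ) := ⟨_, rfl⟩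
  have hC'0 : 0 ≤ C' := by rw [hC']; positivity
  refine ⟨28 + C' + 2 / η0, min δ1 (min S η0), by positivity, lt_min hδ1 (lt_min hS hη00), ?_⟩
  intro δ hδ hδ0 r hr μ hμ hN Φ hΦ hL
  have hζ0 : 0 ≤ (r - 1) / (2 * (r + 1)) := div_nonneg (by linarith) (by linarith)
  have d1 : δ ≤ δ1 := hδ0.trans (min_le_left _ _)
  have d2 : δ ≤ S := hδ0.trans ((min_le_right _ _).trans (min_le_left _ _))
  have d3 : δ ≤ η0 := hδ0.trans ((min_le_right _ _).trans (min_le_right _ _))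
  obtain ⟨x, hx⟩ : ∃ x : ℝ, x = (r - 1) / (2 * (r + 1)) * δ ^ (-(3/4) : ℝ) := ⟨_, rfl⟩
  have hx0 : 0 ≤ x := by rw [hx]; exact mul_nonneg hζ0 (by positivity)
  rw [← hx]
  obtain ⟨y, hy⟩ : ∃ y : ℝ, y = x ^ (24/55 : ℝ) := ⟨_, rfl⟩
  have hy0 : 0 ≤ y := by rw [hy]; positivity
  rw [← hy]
  have hxy : x = y ^ (55/24 : ℝ) := by
    rw [hy, ← Real.rpow_mul hx0]
    norm_num
  have hη2 : 0 < 2 / η0 := by positivity
  rcases le_or_gt y η0 with hc | hc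
  · obtain ⟨η, hη⟩ : ∃ η : ℝ, η = max y δ := ⟨_, rfl⟩
    have hη1 : 0 < η := by rw [hη]; exact lt_max_of_lt_right hδ
    have e1 := grid_near hC hcs R hκ hS hδ (hsh δ hδ d1) d2 (η := η)
      (by rw [hη]; exact le_max_right _ _)
      (by
        have : η ≤ η0 := by rw [hη]; exact max_le hc d3
        rw [hη0] at this
        linarith) hr hμ hN hΦ hL
    rw [← hx, ← hC'] at e1
    have e2 : η ^ (-(31/24) : ℝ) * x ≤ η := by
      have e3 : x ≤ η ^ (55/24 : ℝ) := by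
        rw [hxy]
        exact Real.rpow_le_rpow hy0 (by rw [hη]; exact le_max_left _ _) (by norm_num)
      calc η ^ (-(31/24) : ℝ) * x ≤ η ^ (-(31/24) : ℝ) * η ^ (55/24 : ℝ) :=
            mul_le_mul_of_nonneg_left e3 (by positivity)
        _ = η := by
            rw [← Real.rpow_add hη1]
            norm_num
    have e4 : η ≤ y + δ := by rw [hη]; exact max_le (by linarith) (by linarith)
    have e5 : C' * (η ^ (-(31/24) : ℝ) * x) ≤ C' * η := mul_le_mul_of_nonneg_left e2 hC'0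
    calc |exm R μ δ Φ - exm R (un (R.dm δ).edges) δ Φ| ≤ 28 * η + C' * (η ^ (-(31/24) : ℝ) * x) := e1
      _ ≤ (28 + C') * η := by linarith
      _ ≤ (28 + C') * (y + δ) := mul_le_mul_of_nonneg_left e4 (by linarith)
      _ ≤ (28 + C' + 2 / η0) * (y + δ) := by
          apply mul_le_mul_of_nonneg_right (by linarith) (by linarith)
  · have a1 := abs_le.mp (abs_exm_le (R := R) (δ := δ) hμ hΦ)
    have a2 := abs_le.mp (abs_exm_le (R := R) (δ := δ) (un_law _) hΦ)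
    have a3 : |exm R μ δ Φ - exm R (un (R.dm δ).edges) δ Φ| ≤ 2 := by
      rw [abs_le]; constructor <;> linarith
    refine a3.trans ?_
    have a4 : 2 ≤ 2 / η0 * y := by
      rw [div_mul_eq_mul_div, le_div_iff₀ hη00]
      linarith
    nlinarith

/-- **Stability of the law of the curve**, for laws of the states of the edges which are not
wired. -/
theorem curve_near (R : Rect) : ∃ C δ0 : ℝ, 0 < C ∧ 0 < δ0 ∧ ∀ δ : ℝ, 0 < δ → δ ≤ δ0 →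
    ∀ r : ℝ, 1 ≤ r → ∀ μ : Finset Edg → ℝ, Law (rnd (R.dm δ)) μ → Near (rnd (R.dm δ)) μ r →
    ∀ Φ : C(unitInterval, ℂ) → ℝ, (∀ f, |Φ f| ≤ 1) →
      (∀ f g ρ, Fr f g ρ → |Φ f - Φ g| ≤ ρ) →
      |FK.em μ (rnd (R.dm δ)) (fun F => Φ (R.curve δ F)) -
        E (R.dm δ).edges (fun F => Φ (R.curve δ F))| ≤
        C * (((r - 1) / (r + 1) * δ ^ (-(3/4) : ℝ)) ^ (24/55 : ℝ) + δ) := by
  obtain ⟨C, δ0, hC, hδ0, h⟩ := law_near R
  obtain ⟨κ, S, δ1, hκ, hS, hδ1, -, hsh⟩ := R.shape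
  refine ⟨C, min δ0 δ1, hC, lt_min hδ0 hδ1, ?_⟩
  intro δ hδ hδ' r hr μ hμ hN Φ hΦ hL
  have hD : (R.dm δ).Ok := (hsh δ hδ (hδ'.trans (min_le_right _ _))).ok
  have hsub : rnd (R.dm δ) ⊆ (R.dm δ).edges := fun e he => (mem_rnd.mp he).1
  have h1 := h δ hδ (hδ'.trans (min_le_left _ _)) r hr _ (ext_law hsub hμ)
    (ext_near hr hμ hN) Φ hΦ hL
  obtain ⟨g, hg⟩ := curve_path R hD
  have hcr : ∀ F, F ⊆ (R.dm δ).edges → R.curve δ F = R.curve δ (F ∩ rnd (R.dm δ)) := by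
    intro F hF
    have e1 := hg F hF
    have e2 := hg (F ∩ rnd (R.dm δ)) (Finset.inter_subset_left.trans hF)
    have e3 : path (R.dm δ) (F ∩ rnd (R.dm δ)) = path (R.dm δ) F := by
      unfold path
      rw [walk_rnd hF, len_rnd hF]
    rw [e3] at e2
    exact congrArg Prod.fst (e1.trans e2.symm)
  have e1 : exm R (ext μ (rnd (R.dm δ)) (R.dm δ).edges) δ Φ =
      FK.em μ (rnd (R.dm δ)) (fun F => Φ (R.curve δ F)) := by
    unfold exm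
    rw [← em_ext hsub μ]
    exact em_congr fun F hF => by rw [hcr F hF]
  have e2 : exm R (un (R.dm δ).edges) δ Φ = E (R.dm δ).edges (fun F => Φ (R.curve δ F)) := by
    unfold exm
    rw [em_un]
  rw [e1, e2] at h1
  refine h1.trans (mul_le_mul_of_nonneg_left ?_ hC.le)
  have e3 : (r - 1) / (2 * (r + 1)) ≤ (r - 1) / (r + 1) :=
    div_le_div_of_nonneg_left (by linarith) (by linarith) (by linarith)
  have e4 : 0 ≤ (r - 1) / (2 * (r + 1)) := div_nonneg (by linarith) (by linarith)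
  have hd : 0 ≤ δ ^ (-(3/4) : ℝ) := by positivity
  have e5 := Real.rpow_le_rpow (mul_nonneg e4 hd) (mul_le_mul_of_nonneg_right e3 hd)
    (by norm_num : (0:ℝ) ≤ 24/55)
  linarith

/-- **Stability of the law of the curve** for the self-dual random-cluster model. -/
theorem curve_fk {R : Rect} {C δ : ℝ} (h : ∀ r : ℝ, 1 ≤ r → ∀ μ : Finset Edg → ℝ,
      Law (rnd (R.dm δ)) μ → Near (rnd (R.dm δ)) μ r →
    ∀ Φ : C(unitInterval, ℂ) → ℝ, (∀ f, |Φ f| ≤ 1) →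
      (∀ f g ρ, Fr f g ρ → |Φ f - Φ g| ≤ ρ) →
      |FK.em μ (rnd (R.dm δ)) (fun F => Φ (R.curve δ F)) -
        E (R.dm δ).edges (fun F => Φ (R.curve δ F))| ≤
        C * (((r - 1) / (r + 1) * δ ^ (-(3/4) : ℝ)) ^ (24/55 : ℝ) + δ)) {q : ℝ} (hq : 0 < q)
    (Φ : C(unitInterval, ℂ) → ℝ) (hΦ : ∀ f, |Φ f| ≤ 1)
    (hL : ∀ f g ρ, Fr f g ρ → |Φ f - Φ g| ≤ ρ) :
    |fke q (R.dm δ) (fun F => Φ (R.curve δ F)) - E (R.dm δ).edges (fun F => Φ (R.curve δ F))| ≤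
      C * ((|th q| * δ ^ (-(3/4) : ℝ)) ^ (24/55 : ℝ) + δ) := by
  have h1 := h (rr q) (one_le_rr hq) _ (fk_law hq _) (fk_near hq _) Φ hΦ hL
  rw [← th_rr hq] at h1
  exact h1

end Q291.NL
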