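import Pool.Agent.Q291.NL.Stab
import Pool.Agent.H988R6.Four

/-!
The four-arm probability for dependent laws: the lower bound.
-/

set_option autoImplicit false
set_option maxHeartbeats 2000000

namespace Q291.NL

open H974 Finset H12S Q291.EP Q291.FK H389NS H984N TH291.NW

section Ext

variable {E : Type*} [DecidableEq E] {S T : Finset E} {μ : Finset E → ℝ} {r : ℝ}

/-- The elements of `S \ T` are fair coins, independent of the ones of `T`. -/
noncomputable def ext (μ : Finset E → ℝ) (T S : Finset E) (F : Finset E) : ℝ :=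
  μ (F ∩ T) * (1 / 2) ^ (S \ T).card

theorem mg_ext (hT : T ⊆ S) {F : Finset E} (hF : F ⊆ T) : mg (ext μ T S) (S \ T) F = μ F := by
  unfold mg ext
  have h : ∀ G ∈ (S \ T).powerset, μ ((F ∪ G) ∩ T) * (1 / 2 : ℝ) ^ (S \ T).card =
      μ F * (1 / 2 : ℝ) ^ (S \ T).card := by
    intro G hG
    rw [Finset.mem_powerset] at hG
    have : (F ∪ G) ∩ T = F := by
      ext e
      rw [Finset.mem_inter, Finset.mem_union]
      constructor
      · rintro ⟨h1 | h1, h2⟩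
        · exact h1
        · exact absurd h2 (Finset.mem_sdiff.mp (hG h1)).2
      · intro h1
        exact ⟨Or.inl h1, hF h1⟩
    rw [this]
  rw [Finset.sum_congr rfl h, Finset.sum_const, Finset.card_powerset, nsmul_eq_mul]
  push_cast
  rw [mul_comm, mul_assoc, ← mul_pow]
  norm_num

theorem em_ext (hT : T ⊆ S) (μ : Finset E → ℝ) (f : Finset E → ℝ) :
    FK.em (ext μ T S) S (fun F => f (F ∩ T)) = FK.em μ T f := by
  rw [em_mg hT]
  unfold FK.em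
  apply Finset.sum_congr rfl
  intro F hF
  rw [mg_ext hT (Finset.mem_powerset.mp hF)]

theorem ext_law (hT : T ⊆ S) (hμ : Law T μ) : Law S (ext μ T S) where
  pos F _ := by
    unfold ext
    have := hμ.pos (F ∩ T) Finset.inter_subset_right
    positivity
  one := by
    have h := em_ext hT μ (fun _ => 1)
    unfold FK.em at h
    simp only [mul_one] at h
    rw [h]
    exact hμ.one

theorem ext_near (hr : 1 ≤ r) (hμ : Law T μ) (hN : Near T μ r) :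
    Near S (ext μ T S) r := by
  intro e he F hF heF
  unfold ext
  have hp := hμ.pos (F ∩ T) Finset.inter_subset_right
  have hc : (0:ℝ) < (1 / 2) ^ (S \ T).card := by positivity
  by_cases heT : e ∈ T
  · have h1 : (insert e F) ∩ T = insert e (F ∩ T) := Finset.insert_inter_of_mem heT
    rw [h1]
    obtain ⟨a, b⟩ := hN e heT (F ∩ T) Finset.inter_subset_right
      (fun h => heF (Finset.mem_inter.mp h).1)
    constructor
    · nlinarith
    · nlinarith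
  · have h1 : (insert e F) ∩ T = F ∩ T := Finset.insert_inter_of_notMem heT
    rw [h1]
    have hpc : 0 < μ (F ∩ T) * (1 / 2) ^ (S \ T).card := mul_pos hp hc
    constructor
    · nlinarith
    · nlinarith

end Ext

/-- The critical lower bound for any edge. -/
theorem crit_low : ∃ c : ℝ, 0 < c ∧ ∀ k : ℕ, 1 ≤ k → ∀ e : Edg,
    c * (k:ℝ) ^ (-(5/4) : ℝ) ≤ PQ (1/2) (ebx e k) (fun F => A4e k e ↑F) := by
  obtain ⟨c, C, hc, hC, h⟩ := Pool.Agent.H988R6.a4b_sharp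
  refine ⟨c, hc, fun k hk e => ?_⟩
  have h1 : c * (k:ℝ) ^ (-(5/4) : ℝ) ≤ a4b (1/2) k e.2.2 := by
    rcases hb : e.2.2 with _ | _
    · rw [← Pool.Agent.H988R6.a4b_swap]; exact (h k hk).1
    · exact (h k hk).1
  refine h1.trans ?_
  have e2 : boxE k = (trl (-e.1) (-e.2.1)).mp (ebx e k) := by
    unfold ebx boxE
    rw [trl_RE]
    congr 1 <;> ring
  unfold a4b
  conv_lhs => rw [e2]
  unfold PQ
  rw [LSym.pr]
  apply Pr_mono (okq (by norm_num) (by norm_num))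
  intro F _ hF
  unfold A4e
  apply LP_A4_trl (s := -e.1) (t := -e.2.1)
  have f1 : (trl (-e.1) (-e.2.1)).φ e = e0 e.2.2 := by
    obtain ⟨x, y, b⟩ := e
    unfold e0
    rw [trl_φ, add_neg_cancel, add_neg_cancel]
  have f2 : e.1 - k + -e.1 = -(k:ℤ) := by ring
  have f3 : e.1 + k + -e.1 = (k:ℤ) := by ring
  have f4 : e.2.1 - k + -e.2.1 = -(k:ℤ) := by ring
  have f5 : e.2.1 + k + -e.2.1 = (k:ℤ) := by ring
  rw [f1, f2, f3, f4, f5]
  exact hF

/-- **The lower bound.** -/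
theorem four_low : ∃ c0 c : ℝ, 0 < c0 ∧ 0 < c ∧ ∀ r : ℝ, 1 ≤ r → ∀ n : ℕ, 1 ≤ n →
    (r - 1) / (2 * (r + 1)) ≤ c * (n:ℝ) ^ (-(3/4) : ℝ) → ∀ k : ℕ, 1 ≤ k → k ≤ n →
    ∀ (e : Edg) (μ : Finset Edg → ℝ), Law (ebx e k) μ → Near (ebx e k) μ r →
      c0 * (k:ℝ) ^ (-(5/4) : ℝ) ≤ pr μ (ebx e k) (fun F => A4e k e ↑F) := by
  obtain ⟨C0, C1, C2, ε, hC0, hC1, hC2, hε, hcrit, hA, hS⟩ := inp
  obtain ⟨K, c1, hK, hc1, hfour⟩ := four
  obtain ⟨c2, hc2, hlow⟩ := crit_low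
  obtain ⟨C3, hC3⟩ : ∃ C3 : ℝ, C3 = 4608 * C1 + 6291456 * C2 := ⟨_, rfl⟩
  have hC30 : 0 < C3 := by rw [hC3]; linarith
  obtain ⟨c', hc'⟩ : ∃ c' : ℝ, c' = min (min ε c1) (c2 / (2 * (C3 * K ^ 2))) := ⟨_, rfl⟩
  have hc'0 : 0 < c' := by rw [hc']; exact lt_min (lt_min hε hc1) (by positivity)
  -- large boxes
  have big : ∀ r : ℝ, 1 ≤ r → ∀ k : ℕ, 64 ≤ k →
      (r - 1) / (2 * (r + 1)) ≤ c' * (k:ℝ) ^ (-(3/4) : ℝ) → ∀ (e : Edg) (μ : Finset Edg → ℝ),
      Law (ebx e k) μ → Near (ebx e k) μ r →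
      c2 / 2 * (k:ℝ) ^ (-(5/4) : ℝ) ≤ pr μ (ebx e k) (fun F => A4e k e ↑F) := by
    intro r hr k hk hη e μ hμ hN
    have hk0 : (0:ℝ) < k := by
      have : 0 < k := by omega
      exact_mod_cast this
    have hp : 0 ≤ (k:ℝ) ^ (-(3/4) : ℝ) := by positivity
    have hη1 : (r - 1) / (2 * (r + 1)) ≤ ε * (k:ℝ) ^ (-(3/4) : ℝ) :=
      hη.trans (mul_le_mul_of_nonneg_right
        (by rw [hc']; exact (min_le_left _ _).trans (min_le_left _ _)) hp)
    have hη2 : (r - 1) / (2 * (r + 1)) ≤ c1 * (k:ℝ) ^ (-(3/4) : ℝ) :=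
      hη.trans (mul_le_mul_of_nonneg_right
        (by rw [hc']; exact (min_le_left _ _).trans (min_le_right _ _)) hp)
    have hη3 : (r - 1) / (2 * (r + 1)) ≤ c2 / (2 * (C3 * K ^ 2)) * (k:ℝ) ^ (-(3/4) : ℝ) :=
      hη.trans (mul_le_mul_of_nonneg_right (by rw [hc']; exact min_le_right _ _) hp)
    have h1 := compare hK hC1 hC2 hA hS hr hk hη1
      (fun j hj => hfour r hr k (by omega) hη2 j (by omega)) e hμ hN
    rw [← hC3] at h1
    have h2 := hlow k (by omega) e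
    have e1 : (k:ℝ) ^ (-(3/4) : ℝ) * (k:ℝ) ^ (-(1/2) : ℝ) = (k:ℝ) ^ (-(5/4) : ℝ) := by
      rw [← Real.rpow_add hk0]; norm_num
    have h3 : (r - 1) / (2 * (r + 1)) * (C3 * K ^ 2 * (k:ℝ) ^ (-(1/2) : ℝ)) ≤
        c2 / 2 * (k:ℝ) ^ (-(5/4) : ℝ) := by
      calc (r - 1) / (2 * (r + 1)) * (C3 * K ^ 2 * (k:ℝ) ^ (-(1/2) : ℝ))
          ≤ (c2 / (2 * (C3 * K ^ 2)) * (k:ℝ) ^ (-(3/4) : ℝ)) *
            (C3 * K ^ 2 * (k:ℝ) ^ (-(1/2) : ℝ)) := mul_le_mul_of_nonneg_right hη3 (by positivity)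
        _ = c2 / 2 * ((k:ℝ) ^ (-(3/4) : ℝ) * (k:ℝ) ^ (-(1/2) : ℝ)) := by
            field_simp
        _ = _ := by rw [e1]
    have h4 := (abs_le.mp h1).1
    linarith
  refine ⟨c2 / 2 * (64:ℝ) ^ (-(5/4) : ℝ), c' * (64:ℝ) ^ (-(3/4) : ℝ), by positivity,
    by positivity, ?_⟩
  intro r hr n hn hη k hk hkn e μ hμ hN
  have hn0 : (0:ℝ) < n := by exact_mod_cast hn
  have hk0 : (0:ℝ) < k := by exact_mod_cast hk
  obtain ⟨m, hm⟩ : ∃ m : ℕ, m = max k 64 := ⟨_, rfl⟩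
  have hm64 : 64 ≤ m := by omega
  have hkm : k ≤ m := by omega
  have hm0 : (0:ℝ) < m := by
    have : 0 < m := by omega
    exact_mod_cast this
  have hsub : ebx e k ⊆ ebx e m := by
    unfold ebx
    exact RE_subset (by omega) (by omega) (by omega) (by omega)
  have hη' : (r - 1) / (2 * (r + 1)) ≤ c' * (m:ℝ) ^ (-(3/4) : ℝ) := by
    refine hη.trans ?_
    rw [mul_assoc, ← Real.mul_rpow (by norm_num) hn0.le]
    apply mul_le_mul_of_nonneg_left _ hc'0.le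
    apply Real.rpow_le_rpow_of_nonpos hm0 _ (by norm_num)
    have : m ≤ 64 * n := by omega
    exact_mod_cast this
  have h1 := big r hr m hm64 hη' e _ (ext_law hsub hμ) (ext_near hr hμ hN)
  have h2 : pr (ext μ (ebx e k) (ebx e m)) (ebx e m) (fun F => A4e m e ↑F) ≤
      pr μ (ebx e k) (fun F => A4e k e ↑F) := by
    have h3 : pr μ (ebx e k) (fun F => A4e k e ↑F) =
        pr (ext μ (ebx e k) (ebx e m)) (ebx e m) (fun F => A4e k e ↑F) := by
      unfold pr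
      rw [← em_ext hsub μ]
      refine em_congr fun F _ => ind_congr ?_
      apply A4e_local
      rw [Finset.coe_inter, Set.inter_assoc, Set.inter_self]
    rw [h3]
    apply pr_mono' (ext_law hsub hμ)
    intro F _ hF
    have he : e ∈ RE (e.1 - k) (e.1 + k) (e.2.1 - k) (e.2.1 + k) := mem_ebx hk
    exact A4_sub (by omega) (by omega) (by omega) (by omega) he hF
  refine le_trans ?_ (h1.trans h2)
  have h5 : (64:ℝ) ^ (-(5/4) : ℝ) * (k:ℝ) ^ (-(5/4) : ℝ) ≤ (m:ℝ) ^ (-(5/4) : ℝ) := by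
    rw [← Real.mul_rpow (by norm_num) hk0.le]
    apply Real.rpow_le_rpow_of_nonpos hm0 _ (by norm_num)
    have : m ≤ 64 * k := by omega
    exact_mod_cast this
  calc c2 / 2 * (64:ℝ) ^ (-(5/4) : ℝ) * (k:ℝ) ^ (-(5/4) : ℝ)
      = c2 / 2 * ((64:ℝ) ^ (-(5/4) : ℝ) * (k:ℝ) ^ (-(5/4) : ℝ)) := by ring
    _ ≤ c2 / 2 * (m:ℝ) ^ (-(5/4) : ℝ) := mul_le_mul_of_nonneg_left h5 (by positivity)

/-- **Both bounds.** -/
theorem four_both : ∃ c C ε : ℝ, 0 < c ∧ 0 < C ∧ 0 < ε ∧ ∀ r : ℝ, 1 ≤ r → ∀ n : ℕ, 1 ≤ n →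
    (r - 1) / (r + 1) ≤ ε * (n:ℝ) ^ (-(3/4) : ℝ) → ∀ k : ℕ, 1 ≤ k → k ≤ n →
    ∀ (e : Edg) (S : Finset Edg), ebx e k ⊆ S → ∀ μ : Finset Edg → ℝ, Law S μ → Near S μ r →
      c * (k:ℝ) ^ (-(5/4) : ℝ) ≤ pr μ S (fun F => A4e k e ↑F) ∧
      pr μ S (fun F => A4e k e ↑F) ≤ C * (k:ℝ) ^ (-(5/4) : ℝ) := by
  obtain ⟨c0, c, hc0, hc, hlow⟩ := four_low
  obtain ⟨K, c1, hK, hc1, hfour⟩ := four
  refine ⟨c0, K, 2 * min c c1, hc0, by linarith, by positivity, ?_⟩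
  intro r hr n hn hη k hk hkn e S hS μ hμ hN
  have hk0 : (0:ℝ) < k := by exact_mod_cast hk
  have hp : 0 ≤ (n:ℝ) ^ (-(3/4) : ℝ) := by positivity
  have e1 : (r - 1) / (2 * (r + 1)) = (r - 1) / (r + 1) / 2 := by
    have : r + 1 ≠ 0 := by positivity
    field_simp
  have hη1 : (r - 1) / (2 * (r + 1)) ≤ min c c1 * (n:ℝ) ^ (-(3/4) : ℝ) := by
    rw [e1]; linarith
  have h0 : pr μ S (fun F => A4e k e ↑F) =
      pr (mg μ (S \ ebx e k)) (ebx e k) (fun F => A4e k e ↑F) := by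
    apply pr_mg hS
    intro F _
    apply A4e_local
    rw [Finset.coe_inter, Set.inter_assoc, Set.inter_self]
  rw [h0]
  constructor
  · exact hlow r hr n hn (hη1.trans (mul_le_mul_of_nonneg_right (min_le_left _ _) hp)) k hk hkn e _
      (mg_law' hS hμ) (mg_near' hS hN)
  · refine (hfour r hr n hn (hη1.trans (mul_le_mul_of_nonneg_right (min_le_right _ _) hp)) k hkn e _
      (mg_law' hS hμ) (mg_near' hS hN)).trans ?_
    apply mul_le_mul_of_nonneg_left _ (by linarith)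
    exact Real.rpow_le_rpow_of_nonpos hk0 (by linarith) (by norm_num)

end Q291.NL
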