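import Pool.Agent.Q291.FK.Sg

/-!
Laws whose single coin ratios are between `1/r` and `r`: marginals, conditional laws, products,
comparison with product laws, interpolation with the fair law.
-/

set_option autoImplicit false

namespace Q291.NL

open Finset H974 Q291.EP Q291.FK

variable {E : Type*} [DecidableEq E]

theorem sum_union {X Y : Finset E} (hd : Disjoint X Y) (g : Finset E → ℝ) :
    ∑ F ∈ (X ∪ Y).powerset, g F = ∑ A ∈ X.powerset, ∑ B ∈ Y.powerset, g (A ∪ B) := by
  classical
  induction X using Finset.induction_on generalizing g with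
  | empty => simp
  | @insert a X ha ih =>
    have haY : a ∉ Y := fun h => (Finset.disjoint_left.mp hd) (Finset.mem_insert_self a X) h
    have hd' : Disjoint X Y := hd.mono_left (Finset.subset_insert _ _)
    rw [Finset.insert_union, Finset.sum_powerset_insert (by
      rw [Finset.mem_union]; tauto), Finset.sum_powerset_insert ha, ih hd', ih hd']
    congr 1
    refine Finset.sum_congr rfl fun A _ => Finset.sum_congr rfl fun B _ => ?_
    rw [Finset.insert_union]

theorem sum_erase {S : Finset E} {e : E} (he : e ∈ S) (g : Finset E → ℝ) :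
    ∑ F ∈ S.powerset, g F = ∑ F ∈ (S.erase e).powerset, (g F + g (insert e F)) := by
  conv_lhs => rw [← Finset.insert_erase he]
  rw [Finset.sum_powerset_insert (Finset.notMem_erase e S), Finset.sum_add_distrib]

/-- The marginal law after summation over the subsets of `Y`. -/
noncomputable def mg (μ : Finset E → ℝ) (Y : Finset E) (F : Finset E) : ℝ :=
  ∑ G ∈ Y.powerset, μ (F ∪ G)

/-- The conditional law on `X`. -/
noncomputable def cd (μ : Finset E → ℝ) (X A : Finset E) (F : Finset E) : ℝ :=
  μ (F ∪ A) / ∑ G ∈ X.powerset, μ (G ∪ A)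

variable {X Y S : Finset E} {μ : Finset E → ℝ} {r : ℝ}

theorem mg_law (hd : Disjoint X Y) (hμ : Law (X ∪ Y) μ) : Law X (mg μ Y) where
  pos F hF := Finset.sum_pos (fun G hG => hμ.pos _ (Finset.union_subset_union hF
    (Finset.mem_powerset.mp hG))) ⟨∅, Finset.mem_powerset.mpr (Finset.empty_subset _)⟩
  one := by
    rw [← hμ.one, sum_union hd]
    rfl

theorem mg_near (hd : Disjoint X Y) (hN : Near (X ∪ Y) μ r) : Near X (mg μ Y) r := by
  intro e he G hG heG
  unfold mg
  rw [Finset.mul_sum, Finset.mul_sum]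
  have key : ∀ H ∈ Y.powerset, μ (insert e G ∪ H) ≤ r * μ (G ∪ H) ∧
      μ (G ∪ H) ≤ r * μ (insert e G ∪ H) := by
    intro H hH
    rw [Finset.mem_powerset] at hH
    rw [Finset.insert_union]
    apply hN e (Finset.mem_union_left _ he) _ (Finset.union_subset_union hG hH)
    rw [Finset.mem_union]
    rintro (h | h)
    · exact heG h
    · exact (Finset.disjoint_left.mp hd) he (hH h)
  exact ⟨Finset.sum_le_sum fun H hH => (key H hH).1, Finset.sum_le_sum fun H hH => (key H hH).2⟩

theorem cd_den (hμ : Law (X ∪ Y) μ) {A : Finset E} (hA : A ⊆ Y) :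
    0 < ∑ G ∈ X.powerset, μ (G ∪ A) :=
  Finset.sum_pos (fun G hG => hμ.pos _ (Finset.union_subset_union
    (Finset.mem_powerset.mp hG) hA)) ⟨∅, Finset.mem_powerset.mpr (Finset.empty_subset _)⟩

theorem cd_law (hμ : Law (X ∪ Y) μ) {A : Finset E} (hA : A ⊆ Y) : Law X (cd μ X A) where
  pos F hF := div_pos (hμ.pos _ (Finset.union_subset_union hF hA)) (cd_den hμ hA)
  one := by
    unfold cd
    rw [← Finset.sum_div]
    exact div_self (cd_den hμ hA).ne'

theorem cd_near (hd : Disjoint X Y) (hμ : Law (X ∪ Y) μ) (hN : Near (X ∪ Y) μ r) {A : Finset E}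
    (hA : A ⊆ Y) : Near X (cd μ X A) r := by
  intro e he G hG heG
  have hpos := cd_den hμ hA
  have h := hN e (Finset.mem_union_left _ he) (G ∪ A) (Finset.union_subset_union hG hA) (by
    rw [Finset.mem_union]
    rintro (h | h)
    · exact heG h
    · exact (Finset.disjoint_left.mp hd) he (hA h))
  unfold cd
  rw [Finset.insert_union, ← mul_div_assoc, ← mul_div_assoc]
  exact ⟨div_le_div_of_nonneg_right h.1 hpos.le, div_le_div_of_nonneg_right h.2 hpos.le⟩

theorem pr_nonneg (hμ : Law S μ) (A : Finset E → Prop) : 0 ≤ pr μ S A := by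
  have h := hμ.mono (f := fun _ => 0) (g := fun F => ind (A F)) (fun _ _ => ind_nonneg _)
  rw [hμ.const] at h
  exact h

theorem pr_le_one' (hμ : Law S μ) (A : Finset E → Prop) : pr μ S A ≤ 1 := by
  have h := hμ.mono (g := fun _ => 1) (f := fun F => ind (A F)) (fun _ _ => ind_le_one _)
  rw [hμ.const] at h
  exact h

theorem pr_mono' (hμ : Law S μ) {A B : Finset E → Prop} (h : ∀ F, F ⊆ S → A F → B F) :
    pr μ S A ≤ pr μ S B :=
  hμ.mono fun F hF => ind_mono (h F hF)

theorem pr_ex (hμ : Law S μ) {ι : Type*} [DecidableEq ι] (J : Finset ι)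
    (A : ι → Finset E → Prop) : pr μ S (fun F => ∃ j ∈ J, A j F) ≤ ∑ j ∈ J, pr μ S (A j) := by
  classical
  unfold pr
  rw [← em_sum]
  apply hμ.mono
  intro F _
  by_cases h : ∃ j ∈ J, A j F
  · rw [ind_of h]
    obtain ⟨j, hj, hA⟩ := h
    have := Finset.single_le_sum (f := fun j => ind (A j F)) (fun i _ => ind_nonneg _) hj
    rwa [ind_of hA] at this
  · rw [ind_not_of h]
    exact Finset.sum_nonneg fun _ _ => ind_nonneg _

/-- Marginals. -/
theorem em_mg (hX : X ⊆ S) (μ : Finset E → ℝ) (f : Finset E → ℝ) :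
    em μ S (fun F => f (F ∩ X)) = em (mg μ (S \ X)) X f := by
  have hd : Disjoint X (S \ X) := Finset.disjoint_sdiff
  have hS : X ∪ (S \ X) = S := Finset.union_sdiff_of_subset hX
  unfold FK.em
  conv_lhs => rw [← hS]
  rw [sum_union hd]
  refine Finset.sum_congr rfl fun A hA => ?_
  rw [Finset.mem_powerset] at hA
  unfold mg
  rw [Finset.sum_mul]
  refine Finset.sum_congr rfl fun B hB => ?_
  rw [Finset.mem_powerset] at hB
  beta_reduce
  congr 2
  rw [Finset.union_inter_distrib_right, Finset.inter_eq_left.mpr hA,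
    Finset.disjoint_iff_inter_eq_empty.mp (hd.symm.mono_left hB), Finset.union_empty]

theorem mg_law' (hX : X ⊆ S) (hμ : Law S μ) : Law X (mg μ (S \ X)) :=
  mg_law Finset.disjoint_sdiff (by rwa [Finset.union_sdiff_of_subset hX])

theorem mg_near' (hX : X ⊆ S) (hN : Near S μ r) : Near X (mg μ (S \ X)) r :=
  mg_near Finset.disjoint_sdiff (by rwa [Finset.union_sdiff_of_subset hX])

theorem pr_mg (hX : X ⊆ S) (μ : Finset E → ℝ) {A : Finset E → Prop}
    (hA : ∀ F, F ⊆ S → (A F ↔ A (F ∩ X))) : pr μ S A = pr (mg μ (S \ X)) X A := by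
  unfold pr
  rw [← em_mg hX]
  exact em_congr fun F hF => ind_congr (hA F hF)

/-- An event in `X` and an event outside `X`. -/
theorem pr_prod (hX : X ⊆ S) (hμ : Law S μ) (hN : Near S μ r) {B C : Finset E → Prop} {b : ℝ}
    (hb : ∀ ν, Law X ν → Near X ν r → pr ν X B ≤ b) :
    pr μ S (fun F => B (F ∩ X) ∧ C (F \ X)) ≤ b * pr μ S (fun F => C (F \ X)) := by
  have hd : Disjoint X (S \ X) := Finset.disjoint_sdiff
  have hS : X ∪ (S \ X) = S := Finset.union_sdiff_of_subset hX
  rw [← hS] at hμ hN
  have e1 : ∀ A, A ⊆ X → ∀ B, B ⊆ S \ X → (A ∪ B) ∩ X = A ∧ (A ∪ B) \ X = B := by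
    intro A hA B hB
    constructor
    · rw [Finset.union_inter_distrib_right, Finset.inter_eq_left.mpr hA,
        Finset.disjoint_iff_inter_eq_empty.mp (hd.symm.mono_left hB), Finset.union_empty]
    · rw [Finset.union_sdiff_distrib, Finset.sdiff_eq_empty_iff_subset.mpr hA,
        Finset.empty_union, Finset.sdiff_eq_self_of_disjoint (hd.symm.mono_left hB)]
  unfold pr FK.em
  rw [Finset.mul_sum]
  conv_lhs => rw [← hS, sum_union hd, Finset.sum_comm]
  conv_rhs => rw [← hS, sum_union hd, Finset.sum_comm]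
  refine Finset.sum_le_sum fun A hA => ?_
  rw [Finset.mem_powerset] at hA
  have hden := cd_den hμ hA
  have h1 := hb _ (cd_law hμ hA) (cd_near hd hμ hN hA)
  unfold pr FK.em at h1
  have e2 : ∑ x ∈ X.powerset, μ (x ∪ A) * ind (B ((x ∪ A) ∩ X) ∧ C ((x ∪ A) \ X)) =
      (∑ x ∈ X.powerset, cd μ X A x * ind (B x)) * (∑ G ∈ X.powerset, μ (G ∪ A)) * ind (C A) := by
    rw [Finset.sum_mul, Finset.sum_mul]
    refine Finset.sum_congr rfl fun F hF => ?_
    rw [Finset.mem_powerset] at hF
    obtain ⟨a, b⟩ := e1 F hF A hA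
    rw [a, b, ind_and]
    unfold cd
    field_simp
  have e3 : ∑ x ∈ X.powerset, b * (μ (x ∪ A) * ind (C ((x ∪ A) \ X))) =
      b * (∑ G ∈ X.powerset, μ (G ∪ A)) * ind (C A) := by
    rw [Finset.mul_sum, Finset.sum_mul]
    refine Finset.sum_congr rfl fun F hF => ?_
    rw [Finset.mem_powerset] at hF
    rw [(e1 F hF A hA).2]
    ring
  rw [e2, e3]
  exact mul_le_mul_of_nonneg_right (mul_le_mul_of_nonneg_right h1 hden.le) (ind_nonneg _)

/-- Comparison with a product law, increasing functions. -/
theorem dom_up (hr : 0 < r) (hμ : ∀ F, F ⊆ S → 0 ≤ μ F) (hN : Near S μ r) {f : Finset E → ℝ}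
    (hf : Incr S f) : em μ S f ≤ (∑ F ∈ S.powerset, μ F) * Ex (fun _ => r / (1 + r)) S f := by
  classical
  induction S using Finset.induction_on generalizing μ f with
  | empty =>
    unfold FK.em
    rw [Ex_empty]
    simp
  | @insert a S ha ih =>
    have hr1 : 0 < 1 + r := by linarith
    obtain ⟨p, hp⟩ : ∃ p : ℝ, p = r / (1 + r) := ⟨_, rfl⟩
    have hp1 : 1 - p = 1 / (1 + r) := by rw [hp]; field_simp; ring
    obtain ⟨ν, hν⟩ : ∃ ν : Finset E → ℝ, ν = fun F => μ F + μ (insert a F) := ⟨_, rfl⟩
    obtain ⟨g, hg⟩ : ∃ g : Finset E → ℝ, g = fun F => (1 - p) * f F + p * f (insert a F) :=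
      ⟨_, rfl⟩
    have hsub : S ⊆ insert a S := Finset.subset_insert _ _
    have h1 : em μ (insert a S) f ≤ em ν S g := by
      unfold FK.em
      rw [Finset.sum_powerset_insert ha, ← Finset.sum_add_distrib]
      refine Finset.sum_le_sum fun F hF => ?_
      rw [Finset.mem_powerset] at hF
      have haF : a ∉ F := fun h => ha (hF h)
      have h2 := (hN a (Finset.mem_insert_self _ _) F (hF.trans hsub) haF).1
      have h3 : f F ≤ f (insert a F) := hf _ _ (Finset.subset_insert _ _)
        (Finset.insert_subset_insert _ hF)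
      have h4 : μ (insert a F) ≤ p * (μ F + μ (insert a F)) := by
        rw [hp, div_mul_eq_mul_div, le_div_iff₀ hr1]
        linarith
      rw [hν, hg]
      simp only
      have h5 := mul_nonneg (sub_nonneg.mpr h4) (sub_nonneg.mpr h3)
      nlinarith
    have h2 := ih (μ := ν) (f := g) (fun F hF => by
      rw [hν]
      exact add_nonneg (hμ F (hF.trans hsub)) (hμ _ (Finset.insert_subset_insert _ hF)))
      (by
        intro e he G hG heG
        have hea : e ≠ a := by rintro rfl; exact ha he
        have haG : a ∉ G := fun h => ha (hG h)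
        obtain ⟨a1, a2⟩ := hN e (hsub he) G (hG.trans hsub) heG
        obtain ⟨b1, b2⟩ := hN e (hsub he) (insert a G) (Finset.insert_subset_insert _ hG) (by
          rw [Finset.mem_insert]; tauto)
        rw [hν]
        simp only
        rw [Finset.insert_comm a e G]
        constructor <;> linarith)
      (by
        intro A B hAB hB
        rw [hg]
        simp only
        have a1 := hf A B hAB (hB.trans hsub)
        have a2 := hf (insert a A) (insert a B) (Finset.insert_subset_insert _ hAB)
          (Finset.insert_subset_insert _ hB)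
        have q1 : 0 ≤ 1 - p := by rw [hp1]; positivity
        have q2 : 0 ≤ p := by rw [hp]; positivity
        exact add_le_add (mul_le_mul_of_nonneg_left a1 q1) (mul_le_mul_of_nonneg_left a2 q2))
    refine h1.trans (h2.trans (le_of_eq ?_))
    rw [Ex_insert _ ha, Finset.sum_powerset_insert ha, ← Finset.sum_add_distrib, ← hp, hg, hν]
    congr 1
    rw [Ex_add, Ex_mul_left, Ex_mul_left]
    ring

/-- Comparison with a product law, decreasing functions. -/
theorem dom_down (hr : 0 < r) (hμ : ∀ F, F ⊆ S → 0 ≤ μ F) (hN : Near S μ r)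
    {f : Finset E → ℝ} (hf : Incr S f) :
    (∑ F ∈ S.powerset, μ F) * Ex (fun _ => 1 / (1 + r)) S f ≤ em μ S f := by
  classical
  induction S using Finset.induction_on generalizing μ f with
  | empty =>
    unfold FK.em
    rw [Ex_empty]
    simp
  | @insert a S ha ih =>
    have hr1 : 0 < 1 + r := by linarith
    obtain ⟨p, hp⟩ : ∃ p : ℝ, p = 1 / (1 + r) := ⟨_, rfl⟩
    have hp1 : 1 - p = r / (1 + r) := by rw [hp]; field_simp; ring
    obtain ⟨ν, hν⟩ : ∃ ν : Finset E → ℝ, ν = fun F => μ F + μ (insert a F) := ⟨_, rfl⟩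
    obtain ⟨g, hg⟩ : ∃ g : Finset E → ℝ, g = fun F => (1 - p) * f F + p * f (insert a F) :=
      ⟨_, rfl⟩
    have hsub : S ⊆ insert a S := Finset.subset_insert _ _
    have h1 : em ν S g ≤ em μ (insert a S) f := by
      unfold FK.em
      rw [Finset.sum_powerset_insert ha, ← Finset.sum_add_distrib]
      refine Finset.sum_le_sum fun F hF => ?_
      rw [Finset.mem_powerset] at hF
      have haF : a ∉ F := fun h => ha (hF h)
      have h2 := (hN a (Finset.mem_insert_self _ _) F (hF.trans hsub) haF).2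
      have h3 : f F ≤ f (insert a F) := hf _ _ (Finset.subset_insert _ _)
        (Finset.insert_subset_insert _ hF)
      have h4 : p * (μ F + μ (insert a F)) ≤ μ (insert a F) := by
        rw [hp, div_mul_eq_mul_div, div_le_iff₀ hr1]
        linarith
      rw [hν, hg]
      simp only
      have h5 := mul_nonneg (sub_nonneg.mpr h4) (sub_nonneg.mpr h3)
      nlinarith
    have h2 := ih (μ := ν) (f := g) (fun F hF => by
      rw [hν]
      exact add_nonneg (hμ F (hF.trans hsub)) (hμ _ (Finset.insert_subset_insert _ hF)))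
      (by
        intro e he G hG heG
        have hea : e ≠ a := by rintro rfl; exact ha he
        have haG : a ∉ G := fun h => ha (hG h)
        obtain ⟨a1, a2⟩ := hN e (hsub he) G (hG.trans hsub) heG
        obtain ⟨b1, b2⟩ := hN e (hsub he) (insert a G) (Finset.insert_subset_insert _ hG) (by
          rw [Finset.mem_insert]; tauto)
        rw [hν]
        simp only
        rw [Finset.insert_comm a e G]
        constructor <;> linarith)
      (by
        intro A B hAB hB
        rw [hg]
        simp only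
        have a1 := hf A B hAB (hB.trans hsub)
        have a2 := hf (insert a A) (insert a B) (Finset.insert_subset_insert _ hAB)
          (Finset.insert_subset_insert _ hB)
        have q1 : 0 ≤ 1 - p := by rw [hp1]; positivity
        have q2 : 0 ≤ p := by rw [hp]; positivity
        exact add_le_add (mul_le_mul_of_nonneg_left a1 q1) (mul_le_mul_of_nonneg_left a2 q2))
    refine le_trans (le_of_eq ?_) (h2.trans h1)
    rw [Ex_insert _ ha, Finset.sum_powerset_insert ha, ← Finset.sum_add_distrib, ← hp, hg, hν]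
    congr 1
    rw [Ex_add, Ex_mul_left, Ex_mul_left]
    ring

/-- The law which is `μ` on `T` and fair outside `T`, independently. -/
noncomputable def hyb (μ : Finset E → ℝ) (S T : Finset E) (F : Finset E) : ℝ :=
  mg μ (S \ T) (F ∩ T) * (1 / 2) ^ (S \ T).card

variable {T : Finset E}

theorem hyb_split (hT : T ⊆ S) {A B : Finset E} (hA : A ⊆ T) (hB : B ⊆ S \ T) :
    hyb μ S T (A ∪ B) = mg μ (S \ T) A * (1 / 2) ^ (S \ T).card := by
  have _ := hT
  unfold hyb
  rw [Finset.union_inter_distrib_right, Finset.inter_eq_left.mpr hA,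
    Finset.disjoint_iff_inter_eq_empty.mp (Finset.disjoint_sdiff.symm.mono_left hB),
    Finset.union_empty]

theorem hyb_law (hT : T ⊆ S) (hμ : Law S μ) : Law S (hyb μ S T) where
  pos F hF := by
    unfold hyb
    have := (mg_law' hT hμ).pos (F ∩ T) Finset.inter_subset_right
    positivity
  one := by
    have hd : Disjoint T (S \ T) := Finset.disjoint_sdiff
    conv_lhs => rw [← Finset.union_sdiff_of_subset hT]
    rw [sum_union hd, Finset.union_sdiff_of_subset hT, ← (mg_law' hT hμ).one]
    refine Finset.sum_congr rfl fun A hA => ?_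
    rw [Finset.mem_powerset] at hA
    have : ∀ B ∈ (S \ T).powerset, hyb μ S T (A ∪ B) =
        mg μ (S \ T) A * (1 / 2) ^ (S \ T).card := fun B hB =>
      hyb_split hT hA (Finset.mem_powerset.mp hB)
    rw [Finset.sum_congr rfl this, Finset.sum_const, Finset.card_powerset, nsmul_eq_mul]
    push_cast
    have h2 : (2:ℝ) ^ (S \ T).card * (1 / 2) ^ (S \ T).card = 1 := by
      rw [← mul_pow]; norm_num
    calc (2:ℝ) ^ (S \ T).card * (mg μ (S \ T) A * (1 / 2) ^ (S \ T).card)
        = mg μ (S \ T) A * ((2:ℝ) ^ (S \ T).card * (1 / 2) ^ (S \ T).card) := by ring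
      _ = _ := by rw [h2, mul_one]

theorem hyb_near (hT : T ⊆ S) (hμ : Law S μ) (hN : Near S μ r) (hr : 1 ≤ r) :
    Near S (hyb μ S T) r := by
  intro e _ G hG heG
  unfold hyb
  have hp : (0:ℝ) < (1 / 2) ^ (S \ T).card := by positivity
  have h0 := (mg_law' hT hμ).pos (G ∩ T) Finset.inter_subset_right
  by_cases heT : e ∈ T
  · rw [Finset.insert_inter_of_mem heT, ← mul_assoc, ← mul_assoc]
    have h := mg_near' hT hN e heT (G ∩ T) Finset.inter_subset_right (fun h =>
      heG (Finset.mem_inter.mp h).1)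
    exact ⟨mul_le_mul_of_nonneg_right h.1 hp.le, mul_le_mul_of_nonneg_right h.2 hp.le⟩
  · rw [Finset.insert_inter_of_notMem heT]
    have : 0 < mg μ (S \ T) (G ∩ T) * (1 / 2) ^ (S \ T).card := by positivity
    constructor <;> nlinarith

theorem hyb_empty (hμ : Law S μ) : hyb μ S ∅ = un S := by
  funext F
  unfold hyb mg un
  rw [Finset.sdiff_empty, Finset.inter_empty]
  have : ∑ G ∈ S.powerset, μ (∅ ∪ G) = 1 := by
    simp only [Finset.empty_union]
    exact hμ.one
  rw [this, one_mul]

theorem hyb_full {F : Finset E} (hF : F ⊆ S) : hyb μ S S F = μ F := by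
  unfold hyb mg
  rw [Finset.sdiff_self, Finset.powerset_empty, Finset.sum_singleton, Finset.union_empty,
    Finset.inter_eq_left.mpr hF, Finset.card_empty, pow_zero, mul_one]

/-- Events outside `T` have their fair probability. -/
theorem hyb_out (hT : T ⊆ S) (hμ : Law S μ) (f : Finset E → ℝ) :
    em (hyb μ S T) S (fun F => f (F \ T)) = em (un S) S (fun F => f (F \ T)) := by
  have hd : Disjoint T (S \ T) := Finset.disjoint_sdiff
  have hS := Finset.union_sdiff_of_subset hT
  have e1 : ∀ A, A ⊆ T → ∀ B, B ⊆ S \ T → (A ∪ B) \ T = B := by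
    intro A hA B hB
    rw [Finset.union_sdiff_distrib, Finset.sdiff_eq_empty_iff_subset.mpr hA,
      Finset.empty_union, Finset.sdiff_eq_self_of_disjoint (hd.symm.mono_left hB)]
  have key : ∀ ν : Finset E → ℝ, em ν S (fun F => f (F \ T)) =
      ∑ B ∈ (S \ T).powerset, (∑ A ∈ T.powerset, ν (A ∪ B)) * f B := by
    intro ν
    unfold FK.em
    conv_lhs => rw [← hS]
    rw [sum_union hd, Finset.sum_comm]
    refine Finset.sum_congr rfl fun B hB => ?_
    rw [Finset.sum_mul]
    refine Finset.sum_congr rfl fun A hA => ?_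
    beta_reduce
    rw [e1 A (Finset.mem_powerset.mp hA) B (Finset.mem_powerset.mp hB)]
  rw [key, key]
  refine Finset.sum_congr rfl fun B hB => ?_
  congr 1
  rw [Finset.mem_powerset] at hB
  have e2 : ∑ A ∈ T.powerset, hyb μ S T (A ∪ B) = (1 / 2) ^ (S \ T).card := by
    have : ∀ A ∈ T.powerset, hyb μ S T (A ∪ B) = mg μ (S \ T) A * (1 / 2) ^ (S \ T).card :=
      fun A hA => hyb_split hT (Finset.mem_powerset.mp hA) hB
    rw [Finset.sum_congr rfl this, ← Finset.sum_mul, (mg_law' hT hμ).one, one_mul]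
  have e3 : ∑ A ∈ T.powerset, un S (A ∪ B) = (1 / 2) ^ (S \ T).card := by
    unfold un
    rw [Finset.sum_const, Finset.card_powerset, nsmul_eq_mul]
    have h1 : S.card = T.card + (S \ T).card := by
      have := Finset.card_sdiff_add_card_eq_card hT
      omega
    rw [h1, pow_add]
    push_cast
    have h2 : (2:ℝ) ^ T.card * (1 / 2) ^ T.card = 1 := by rw [← mul_pow]; norm_num
    rw [← mul_assoc, h2, one_mul]
  rw [e2, e3]

/-- One step of the interpolation. -/
theorem hyb_step (hT : T ⊆ S) (hμ : Law S μ) (hN : Near S μ r) (hr : 1 ≤ r) {e : E} (he : e ∈ S)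
    (heT : e ∉ T) (g : Finset E → ℝ) :
    |em (hyb μ S (insert e T)) S g - em (hyb μ S T) S g| ≤
      (r - 1) / (2 * (r + 1)) * em (hyb μ S T) S (fun F => |g (insert e F) - g (F.erase e)|) := by
  have hT' : insert e T ⊆ S := Finset.insert_subset he hT
  obtain ⟨m, hm⟩ : ∃ m : Finset E → ℝ, m = mg μ (S \ insert e T) := ⟨_, rfl⟩
  obtain ⟨c, hc⟩ : ∃ c : ℝ, c = (1 / 2) ^ (S \ insert e T).card := ⟨_, rfl⟩
  have hc0 : 0 < c := by rw [hc]; positivity
  have hd : S \ T = insert e (S \ insert e T) := by
    ext x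
    simp only [Finset.mem_sdiff, Finset.mem_insert]
    by_cases hx : x = e
    · subst hx; simp [he, heT]
    · simp [hx]
  have hen : e ∉ S \ insert e T := by simp
  have hM : ∀ A, A ⊆ T → mg μ (S \ T) A = m A + m (insert e A) := by
    intro A _
    unfold mg
    rw [hd, Finset.sum_powerset_insert hen, hm]
    unfold mg
    congr 1
    refine Finset.sum_congr rfl fun G _ => ?_
    rw [Finset.union_insert, Finset.insert_union]
  have hcard : (1 / 2 : ℝ) ^ (S \ T).card = c / 2 := by
    rw [hd, Finset.card_insert_of_notMem hen, pow_succ, ← hc]; ring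
  have hmN : Near (insert e T) m r := by rw [hm]; exact mg_near' hT' hN
  have hmL : Law (insert e T) m := by rw [hm]; exact mg_law' hT' hμ
  obtain ⟨η, hη⟩ : ∃ η : ℝ, η = (r - 1) / (2 * (r + 1)) := ⟨_, rfl⟩
  rw [← hη]
  have hr1 : 0 < 2 * (r + 1) := by linarith
  have hη0 : 0 ≤ η := by rw [hη]; apply div_nonneg <;> linarith
  unfold FK.em
  rw [← Finset.sum_sub_distrib, sum_erase he, Finset.mul_sum, sum_erase he]
  refine (Finset.abs_sum_le_sum_abs _ _).trans (Finset.sum_le_sum fun F hF => ?_)
  rw [Finset.mem_powerset] at hF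
  have heF : e ∉ F := fun h => (Finset.mem_erase.mp (hF h)).1 rfl
  have i1 : F ∩ insert e T = F ∩ T := by
    rw [Finset.inter_comm, Finset.insert_inter_of_notMem heF, Finset.inter_comm]
  have i2 : insert e F ∩ insert e T = insert e (F ∩ T) := by
    rw [Finset.insert_inter_distrib]
  have i3 : insert e F ∩ T = F ∩ T := Finset.insert_inter_of_notMem heT
  have h1 : hyb μ S (insert e T) F = m (F ∩ T) * c := by
    unfold hyb; rw [i1, ← hm, ← hc]
  have h2 : hyb μ S (insert e T) (insert e F) = m (insert e (F ∩ T)) * c := by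
    unfold hyb; rw [i2, ← hm, ← hc]
  have h3 : hyb μ S T F = (m (F ∩ T) + m (insert e (F ∩ T))) * (c / 2) := by
    unfold hyb; rw [hM _ Finset.inter_subset_right, hcard]
  have h4 : hyb μ S T (insert e F) = (m (F ∩ T) + m (insert e (F ∩ T))) * (c / 2) := by
    unfold hyb; rw [i3, hM _ Finset.inter_subset_right, hcard]
  beta_reduce
  rw [h1, h2, h3, h4, Finset.insert_idem, Finset.erase_insert heF, Finset.erase_eq_of_notMem heF]
  obtain ⟨x, hx⟩ : ∃ x : ℝ, x = m (F ∩ T) := ⟨_, rfl⟩
  obtain ⟨y, hy⟩ : ∃ y : ℝ, y = m (insert e (F ∩ T)) := ⟨_, rfl⟩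
  rw [← hx, ← hy]
  have hx0 : 0 < x := by
    rw [hx]; exact hmL.pos _ (Finset.inter_subset_right.trans (Finset.subset_insert _ _))
  have hy0 : 0 < y := by
    rw [hy]; exact hmL.pos _ (Finset.insert_subset_insert _ Finset.inter_subset_right)
  obtain ⟨n1, n2⟩ := hmN e (Finset.mem_insert_self _ _) (F ∩ T)
    (Finset.inter_subset_right.trans (Finset.subset_insert _ _))
    (fun h => heF (Finset.mem_inter.mp h).1)
  rw [← hx, ← hy] at n1 n2
  have hxy : |y - x| ≤ 2 * η * (x + y) := by
    have e1 : 2 * η * (x + y) = (r - 1) * (x + y) / (r + 1) := by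
      rw [hη]; field_simp
    rw [e1, le_div_iff₀ (by linarith)]
    rcases le_total x y with h | h
    · rw [abs_of_nonneg (by linarith)]; nlinarith
    · rw [abs_of_nonpos (by linarith)]; nlinarith
  have e2 : x * c * g F - (x + y) * (c / 2) * g F +
      (y * c * g (insert e F) - (x + y) * (c / 2) * g (insert e F)) =
      (y - x) * (c / 2 * (g (insert e F) - g F)) := by ring
  rw [e2, abs_mul, abs_mul, abs_of_pos (show 0 < c / 2 by linarith)]
  have h5 : 0 ≤ c / 2 * |g (insert e F) - g F| := by positivity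
  have h6 := mul_le_mul_of_nonneg_right hxy h5
  refine h6.trans (le_of_eq (by ring))

/-- Interpolation between the fair law and `μ`, in the order given by `o`. -/
theorem interp (hμ : Law S μ) (hN : Near S μ r) (hr : 1 ≤ r) (g : Finset E → ℝ) (o : E → ℕ)
    (b : E → ℝ) (hb : ∀ e ∈ S, ∀ T, T ⊆ S → e ∉ T → (∀ f ∈ S, o f < o e → f ∈ T) →
      (∀ f ∈ T, o f ≤ o e) →
      em (hyb μ S T) S (fun F => |g (insert e F) - g (F.erase e)|) ≤ b e) :
    |em μ S g - em (un S) S g| ≤ (r - 1) / (2 * (r + 1)) * ∑ e ∈ S, b e := by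
  classical
  have hη0 : 0 ≤ (r - 1) / (2 * (r + 1)) := by apply div_nonneg <;> linarith
  have key : ∀ n : ℕ, ∀ T : Finset E, T.card = n → T ⊆ S →
      (∀ e ∈ T, ∀ f ∈ S, o f < o e → f ∈ T) →
      |em (hyb μ S T) S g - em (un S) S g| ≤ (r - 1) / (2 * (r + 1)) * ∑ e ∈ T, b e := by
    intro n
    induction n with
    | zero =>
      intro T hT _ _
      rw [Finset.card_eq_zero] at hT
      subst hT
      rw [hyb_empty hμ]
      simp
    | succ n ih =>
      intro T hT hTS hdown
      obtain ⟨e, he, hmax⟩ := Finset.exists_max_image T o (Finset.card_pos.mp (by omega))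
      have hTS' : T.erase e ⊆ S := (Finset.erase_subset _ _).trans hTS
      have h1 := ih (T.erase e) (by rw [Finset.card_erase_of_mem he, hT]; rfl) hTS' (by
        intro e' he' f hf hlt
        have h2 := (Finset.mem_erase.mp he').2
        refine Finset.mem_erase.mpr ⟨?_, hdown e' h2 f hf hlt⟩
        rintro rfl
        have := hmax e' h2
        omega)
      have h2 := hyb_step hTS' hμ hN hr (hTS he) (Finset.notMem_erase e T) g
      rw [Finset.insert_erase he] at h2
      have h3 := hb e (hTS he) (T.erase e) hTS' (Finset.notMem_erase e T) (by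
        intro f hf hlt
        refine Finset.mem_erase.mpr ⟨?_, hdown e he f hf hlt⟩
        rintro rfl
        omega) (fun f hf => hmax f (Finset.mem_erase.mp hf).2)
      have h4 := mul_le_mul_of_nonneg_left h3 hη0
      rw [← Finset.add_sum_erase T b he, mul_add]
      have h5 := abs_sub_le (em (hyb μ S T) S g) (em (hyb μ S (T.erase e)) S g) (em (un S) S g)
      linarith
  have h := key _ S rfl (Finset.Subset.refl S) (fun _ _ f hf _ => hf)
  have e1 : em (hyb μ S S) S g = em μ S g := by
    unfold FK.em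
    exact Finset.sum_congr rfl fun F hF => by rw [hyb_full (Finset.mem_powerset.mp hF)]
  rwa [e1] at h

end Q291.NL
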