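import Pool.Agent.Q291.NL.Four

/-!
The four-arm probability for dependent laws: the recursion.
-/

set_option autoImplicit false

namespace Q291.NL

open H974 Finset H12S Q291.EP Q291.FK H389NS H984N TH291.NW

theorem rp {x y a : ℝ} (hx : 0 < x) (h : y ≤ x ^ a) (hy : 0 ≤ y) {b : ℝ} (hb : 0 ≤ b) :
    y ^ b ≤ x ^ (a * b) := by
  rw [Real.rpow_mul hx.le]
  exact Real.rpow_le_rpow hy h hb

theorem four54 : (4:ℝ) ^ (5/4 : ℝ) ≤ 6 := by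
  have h : (4:ℝ) ^ (5/4 : ℝ) = (1024:ℝ) ^ (1/4 : ℝ) := by
    rw [show (5/4 : ℝ) = 5 * (1/4) by norm_num, Real.rpow_mul (by norm_num)]
    norm_num
  rw [h]
  have h2 : (1024:ℝ) ^ (1/4 : ℝ) ≤ ((6:ℝ) ^ (4:ℕ)) ^ (1/4 : ℝ) :=
    Real.rpow_le_rpow (by norm_num) (by norm_num) (by norm_num)
  refine h2.trans (le_of_eq ?_)
  rw [← Real.rpow_natCast, ← Real.rpow_mul (by norm_num)]
  norm_num

theorem two54 : (2:ℝ) ^ (5/4 : ℝ) ≤ 3 := by
  calc (2:ℝ) ^ (5/4 : ℝ) ≤ (2:ℝ) ^ (3/2 : ℝ) :=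
        Real.rpow_le_rpow_of_exponent_le (by norm_num) (by norm_num)
    _ ≤ 3 := by
        have h : (2:ℝ) ^ (3/2 : ℝ) = (8:ℝ) ^ (1/2 : ℝ) := by
          rw [show (3/2 : ℝ) = 3 * (1/2) by norm_num, Real.rpow_mul (by norm_num)]
          norm_num
        rw [h, ← Real.sqrt_eq_rpow, Real.sqrt_le_left (by norm_num)]
        norm_num

theorem sixteen54 : (16:ℝ) ^ (5/4 : ℝ) = 32 := by
  rw [show (16:ℝ) = (2:ℝ) ^ (4:ℝ) by norm_num, ← Real.rpow_mul (by norm_num)]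
  norm_num

theorem numA {K C : ℝ} (hK : 1 ≤ K) (hC : 1 ≤ C) {s k : ℕ} (hk : 2 * s + 2 ≤ k) :
    (if 4 ≤ s then (K * (((s / 4 : ℕ) : ℝ) + 1) ^ (-(5/4) : ℝ)) ^ 2 else 1) *
        (C * (((2 * s + 2 : ℕ) : ℝ) / k) ^ (5/4 : ℝ)) ≤
      108 * (K ^ 2 * C) * (((s:ℝ) + 1) ^ (-(5/4) : ℝ) * (k:ℝ) ^ (-(5/4) : ℝ)) := by
  have hk0 : (0:ℝ) < k := by
    have : 0 < k := by omega
    exact_mod_cast this
  have hs : (0:ℝ) < (s:ℝ) + 1 := by positivity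
  obtain ⟨y, hy⟩ : ∃ y : ℝ, y = ((s:ℝ) + 1) ^ (5/4 : ℝ) := ⟨_, rfl⟩
  obtain ⟨w, hw⟩ : ∃ w : ℝ, w = (k:ℝ) ^ (-(5/4) : ℝ) := ⟨_, rfl⟩
  have hy0 : 0 < y := by rw [hy]; positivity
  have hw0 : 0 < w := by rw [hw]; positivity
  have hyi : ((s:ℝ) + 1) ^ (-(5/4) : ℝ) = y⁻¹ := by rw [hy, Real.rpow_neg hs.le]
  have h1 : (((2 * s + 2 : ℕ) : ℝ) / k) ^ (5/4 : ℝ) ≤ 3 * (y * w) := by
    have e1 : (((2 * s + 2 : ℕ) : ℝ) / k) = 2 * (((s:ℝ) + 1) / k) := by push_cast; ring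
    rw [e1, Real.mul_rpow (by norm_num) (by positivity), Real.div_rpow hs.le hk0.le, ← hy,
      div_eq_mul_inv y, ← Real.rpow_neg hk0.le, ← hw]
    exact mul_le_mul_of_nonneg_right two54 (by positivity)
  rw [hyi, ← hw]
  have hKC : 0 < K ^ 2 * C := by positivity
  split_ifs with h4
  · have h2 : (((s / 4 : ℕ) : ℝ) + 1) ^ (-(5/4) : ℝ) ≤ 6 * y⁻¹ := by
      have h3 : (s:ℝ) + 1 ≤ 4 * (((s / 4 : ℕ) : ℝ) + 1) := by
        have : s + 1 ≤ 4 * (s / 4 + 1) := by omega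
        exact_mod_cast this
      refine (pow_mono_neg (c := 4) (by norm_num) (by norm_num) h3 hs).trans ?_
      rw [hyi]
      exact mul_le_mul_of_nonneg_right four54 (by positivity)
    have h3 : (K * (((s / 4 : ℕ) : ℝ) + 1) ^ (-(5/4) : ℝ)) ^ 2 ≤ (K * (6 * y⁻¹)) ^ 2 := by
      gcongr
    calc (K * (((s / 4 : ℕ) : ℝ) + 1) ^ (-(5/4) : ℝ)) ^ 2 *
          (C * (((2 * s + 2 : ℕ) : ℝ) / k) ^ (5/4 : ℝ))
        ≤ (K * (6 * y⁻¹)) ^ 2 * (C * (3 * (y * w))) := by gcongr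
      _ = 108 * (K ^ 2 * C) * (y⁻¹ * w) := by field_simp; ring
  · rw [one_mul]
    have h2 : y ≤ 32 * y⁻¹ := by
      have h3 : y ^ 2 ≤ 32 := by
        have h5 : y ^ 2 = ((s:ℝ) + 1) ^ (5/2 : ℝ) := by
          rw [hy, ← Real.rpow_natCast, ← Real.rpow_mul hs.le]
          norm_num
        rw [h5]
        have h6 : (s:ℝ) + 1 ≤ 4 := by
          have : s + 1 ≤ 4 := by omega
          exact_mod_cast this
        calc ((s:ℝ) + 1) ^ (5/2 : ℝ) ≤ (4:ℝ) ^ (5/2 : ℝ) :=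
              Real.rpow_le_rpow hs.le h6 (by norm_num)
          _ = 32 := by
              rw [show (4:ℝ) = (2:ℝ) ^ (2:ℝ) by norm_num, ← Real.rpow_mul (by norm_num)]
              norm_num
      rw [← div_eq_mul_inv, le_div_iff₀ hy0]
      nlinarith
    calc C * (((2 * s + 2 : ℕ) : ℝ) / k) ^ (5/4 : ℝ) ≤ C * (3 * (y * w)) := by gcongr
      _ ≤ C * (3 * (32 * y⁻¹ * w)) := by gcongr
      _ = 96 * (1 * C) * (y⁻¹ * w) := by ring
      _ ≤ 108 * (K ^ 2 * C) * (y⁻¹ * w) := by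
          have : (1:ℝ) ≤ K ^ 2 := by nlinarith
          gcongr
          norm_num

theorem numB {K C : ℝ} (hK : 1 ≤ K) (hC : 1 ≤ C) {s t k k1 t1 : ℕ} (ht : t + s = k)
    (hk1 : k1 = k / 16) (ht1 : t1 = min t k1) (hk64 : 64 ≤ k) :
    (K * ((k1:ℝ) + 1) ^ (-(5/4) : ℝ)) *
      ((if 1 ≤ t1 then K * ((t1:ℝ) + 1) ^ (-(5/4) : ℝ) else 1) *
      (if 2 * t + 2 ≤ k / 4 then
        C * (((2 * t + 2 : ℕ) : ℝ) / ((k / 4 : ℕ) : ℝ)) ^ (7/24 : ℝ) else 1)) ≤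
      4096 * (K ^ 2 * C) * ((k:ℝ) ^ (-(37/24) : ℝ) * ((t:ℝ) + 1) ^ (-(23/24) : ℝ)) := by
  have hk0 : (0:ℝ) < k := by
    have : 0 < k := by omega
    exact_mod_cast this
  have htp : (0:ℝ) < (t:ℝ) + 1 := by positivity
  have f1 : ((k1:ℝ) + 1) ^ (-(5/4) : ℝ) ≤ 32 * (k:ℝ) ^ (-(5/4) : ℝ) := by
    have h3 : (k:ℝ) ≤ 16 * ((k1:ℝ) + 1) := by
      have : k ≤ 16 * (k1 + 1) := by omega
      exact_mod_cast this
    rw [← sixteen54]
    exact pow_mono_neg (by norm_num) (by norm_num) h3 hk0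
  have f2 : (if 1 ≤ t1 then K * ((t1:ℝ) + 1) ^ (-(5/4) : ℝ) else 1) ≤
      K * (32 * ((t:ℝ) + 1) ^ (-(5/4) : ℝ)) := by
    split_ifs with h1
    · apply mul_le_mul_of_nonneg_left _ (by linarith)
      have h3 : (t:ℝ) + 1 ≤ 16 * ((t1:ℝ) + 1) := by
        have : t + 1 ≤ 16 * (t1 + 1) := by omega
        exact_mod_cast this
      rw [← sixteen54]
      exact pow_mono_neg (by norm_num) (by norm_num) h3 htp
    · have h2 : t = 0 := by omega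
      rw [h2]
      norm_num
      linarith
  have f3 : (if 2 * t + 2 ≤ k / 4 then
        C * (((2 * t + 2 : ℕ) : ℝ) / ((k / 4 : ℕ) : ℝ)) ^ (7/24 : ℝ) else 1) ≤
      C * (4 * (((t:ℝ) + 1) / k) ^ (7/24 : ℝ)) := by
    have hq : 0 ≤ ((t:ℝ) + 1) / k := by positivity
    have h16 : (16 * (((t:ℝ) + 1) / k)) ^ (7/24 : ℝ) ≤ 4 * (((t:ℝ) + 1) / k) ^ (7/24 : ℝ) := by
      rw [Real.mul_rpow (by norm_num) hq]
      apply mul_le_mul_of_nonneg_right _ (by positivity)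
      calc (16:ℝ) ^ (7/24 : ℝ) ≤ (16:ℝ) ^ (1/2 : ℝ) :=
            Real.rpow_le_rpow_of_exponent_le (by norm_num) (by norm_num)
        _ = 4 := by
            rw [← Real.sqrt_eq_rpow, show (16:ℝ) = 4 ^ 2 by norm_num, Real.sqrt_sq (by norm_num)]
    split_ifs with h1
    · apply mul_le_mul_of_nonneg_left _ (by linarith)
      refine le_trans (Real.rpow_le_rpow (by positivity) ?_ (by norm_num)) h16
      have h2 : (k:ℝ) ≤ 8 * ((k / 4 : ℕ) : ℝ) := by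
        have : k ≤ 8 * (k / 4) := by omega
        exact_mod_cast this
      have h3 : (0:ℝ) < ((k / 4 : ℕ) : ℝ) := by linarith
      rw [div_le_iff₀ h3]
      have e : 16 * (((t:ℝ) + 1) / k) * ((k / 4 : ℕ) : ℝ) =
          2 * ((t:ℝ) + 1) * (8 * ((k / 4 : ℕ) : ℝ) / k) := by ring
      rw [e]
      have h4 : 1 ≤ 8 * ((k / 4 : ℕ) : ℝ) / k := by rw [le_div_iff₀ hk0]; linarith
      push_cast
      nlinarith
    · have h2 : (k:ℝ) ≤ 16 * ((t:ℝ) + 1) := by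
        have : k ≤ 16 * (t + 1) := by omega
        exact_mod_cast this
      have h3 : 1 ≤ 16 * (((t:ℝ) + 1) / k) := by
        rw [← mul_div_assoc, le_div_iff₀ hk0]; linarith
      have h4 : 1 ≤ (16 * (((t:ℝ) + 1) / k)) ^ (7/24 : ℝ) := Real.one_le_rpow h3 (by norm_num)
      have h5 : (1:ℝ) ≤ 4 * (((t:ℝ) + 1) / k) ^ (7/24 : ℝ) := h4.trans h16
      nlinarith
  have e1 : (k:ℝ) ^ (-(37/24) : ℝ) = (k:ℝ) ^ (-(5/4) : ℝ) * ((k:ℝ) ^ (7/24 : ℝ))⁻¹ := by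
    rw [← Real.rpow_neg hk0.le, ← Real.rpow_add hk0]; norm_num
  have e2 : ((t:ℝ) + 1) ^ (-(23/24) : ℝ) =
      ((t:ℝ) + 1) ^ (-(5/4) : ℝ) * ((t:ℝ) + 1) ^ (7/24 : ℝ) := by
    rw [← Real.rpow_add htp]; norm_num
  have e3 : (((t:ℝ) + 1) / k) ^ (7/24 : ℝ) = ((t:ℝ) + 1) ^ (7/24 : ℝ) * ((k:ℝ) ^ (7/24 : ℝ))⁻¹ := by
    rw [Real.div_rpow htp.le hk0.le, div_eq_mul_inv]
  have g2 : 0 ≤ (if 1 ≤ t1 then K * ((t1:ℝ) + 1) ^ (-(5/4) : ℝ) else 1) := by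
    split_ifs <;> positivity
  have g3 : 0 ≤ (if 2 * t + 2 ≤ k / 4 then
        C * (((2 * t + 2 : ℕ) : ℝ) / ((k / 4 : ℕ) : ℝ)) ^ (7/24 : ℝ) else 1) := by
    split_ifs <;> positivity
  have hK0 : 0 ≤ K := by linarith
  refine (mul_le_mul (mul_le_mul_of_nonneg_left f1 hK0) (mul_le_mul f2 f3 g3 (by positivity))
    (mul_nonneg g2 g3) (by positivity)).trans (le_of_eq ?_)
  rw [e1, e2, e3]
  ring

/-- The number of edges at distance `s`. -/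
theorem card_ds (e : Edg) (S : Finset Edg) (s : ℕ) :
    ((S.filter (fun f => ds e f = s)).card : ℝ) ≤ 16 * ((s:ℝ) + 1) := by
  classical
  obtain ⟨P, hP⟩ : ∃ P : Finset (ℤ × ℤ), P =
      ({e.1 - (s:ℤ), e.1 + (s:ℤ)} : Finset ℤ) ×ˢ Finset.Icc (e.2.1 - s) (e.2.1 + s) ∪
      Finset.Icc (e.1 - (s:ℤ)) (e.1 + s) ×ˢ ({e.2.1 - (s:ℤ), e.2.1 + (s:ℤ)} : Finset ℤ) := ⟨_, rfl⟩
  have h1 : S.filter (fun f => ds e f = s) ⊆
      (P ×ˢ (Finset.univ : Finset Bool)).image (fun x => ((x.1.1, x.1.2, x.2) : Edg)) := by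
    intro f hf
    rw [Finset.mem_filter] at hf
    obtain ⟨fx, fy⟩ := ds_le.mp (show ds e f ≤ s by omega)
    have fz := ds_ge.mp (show s ≤ ds e f by omega)
    rw [abs_le] at fx fy
    rw [le_abs, le_abs] at fz
    rw [Finset.mem_image]
    refine ⟨((f.1, f.2.1), f.2.2), ?_, rfl⟩
    rw [Finset.mem_product, hP]
    refine ⟨?_, Finset.mem_univ _⟩
    simp only [Finset.mem_union, Finset.mem_product, Finset.mem_insert, Finset.mem_singleton,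
      Finset.mem_Icc]
    omega
  have h2 : P.card ≤ 8 * (s + 1) := by
    rw [hP]
    refine (Finset.card_union_le _ _).trans ?_
    rw [Finset.card_product, Finset.card_product, Int.card_Icc, Int.card_Icc]
    have c1 : ({e.1 - (s:ℤ), e.1 + (s:ℤ)} : Finset ℤ).card ≤ 2 := Finset.card_le_two
    have c2 : ({e.2.1 - (s:ℤ), e.2.1 + (s:ℤ)} : Finset ℤ).card ≤ 2 := Finset.card_le_two
    have c3 : (e.2.1 + (s:ℤ) + 1 - (e.2.1 - s)).toNat = 2 * s + 1 := by omega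
    have c4 : (e.1 + (s:ℤ) + 1 - (e.1 - s)).toNat = 2 * s + 1 := by omega
    rw [c3, c4]
    nlinarith
  have h3 : (S.filter (fun f => ds e f = s)).card ≤ 16 * (s + 1) := by
    refine (Finset.card_le_card h1).trans (Finset.card_image_le.trans ?_)
    rw [Finset.card_product, Finset.card_univ, Fintype.card_bool]
    omega
  exact_mod_cast h3

/-- The bound for the probability that an edge at distance `s` is pivotal. -/
noncomputable def bb (K C1 C2 : ℝ) (k s : ℕ) : ℝ :=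
  108 * (K ^ 2 * C1) * (((s:ℝ) + 1) ^ (-(5/4) : ℝ) * (k:ℝ) ^ (-(5/4) : ℝ)) +
  4096 * (K ^ 2 * C2) * ((k:ℝ) ^ (-(37/24) : ℝ) * (((k - s : ℕ) : ℝ) + 1) ^ (-(23/24) : ℝ))

theorem sum_bb {K C1 C2 : ℝ} (hC1 : 1 ≤ C1) (hC2 : 1 ≤ C2) (e : Edg) {k : ℕ}
    (hk : 1 ≤ k) : ∑ f ∈ ebx e k, bb K C1 C2 k (ds e f) ≤
      (4608 * C1 + 6291456 * C2) * K ^ 2 * (k:ℝ) ^ (-(1/2) : ℝ) := by
  have hk0 : (0:ℝ) < k := by exact_mod_cast hk
  have hk1 : (1:ℝ) ≤ k := by exact_mod_cast hk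
  have hK2 : 0 ≤ K ^ 2 := sq_nonneg _
  have hbb : ∀ s, 0 ≤ bb K C1 C2 k s := by
    intro s
    unfold bb
    positivity
  have hmap : ∀ f ∈ ebx e k, ds e f ∈ range (k + 1) := by
    intro f hf
    unfold ebx at hf
    have h1 := mem_co hf
    rw [Finset.mem_range, Nat.lt_succ_iff, ds_le, abs_le, abs_le]
    omega
  rw [← Finset.sum_fiberwise_of_maps_to hmap]
  have h1 : ∀ s ∈ range (k + 1), ∑ f ∈ (ebx e k).filter (fun f => ds e f = s),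
      bb K C1 C2 k (ds e f) ≤ 16 * ((s:ℝ) + 1) * bb K C1 C2 k s := by
    intro s _
    have h2 : ∑ f ∈ (ebx e k).filter (fun f => ds e f = s), bb K C1 C2 k (ds e f) =
        ∑ f ∈ (ebx e k).filter (fun f => ds e f = s), bb K C1 C2 k s :=
      Finset.sum_congr rfl fun f hf => by rw [(Finset.mem_filter.mp hf).2]
    rw [h2, Finset.sum_const, nsmul_eq_mul]
    exact mul_le_mul_of_nonneg_right (card_ds e _ s) (hbb s)
  refine (Finset.sum_le_sum h1).trans ?_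
  unfold bb
  have h2 : ∀ s ∈ range (k + 1), 16 * ((s:ℝ) + 1) *
      (108 * (K ^ 2 * C1) * (((s:ℝ) + 1) ^ (-(5/4) : ℝ) * (k:ℝ) ^ (-(5/4) : ℝ)) +
      4096 * (K ^ 2 * C2) * ((k:ℝ) ^ (-(37/24) : ℝ) * (((k - s : ℕ) : ℝ) + 1) ^ (-(23/24) : ℝ))) ≤
      1728 * (K ^ 2 * C1) * (k:ℝ) ^ (-(5/4) : ℝ) * ((s:ℝ) + 1) ^ (-(1/4) : ℝ) +
      131072 * (K ^ 2 * C2) * (k:ℝ) ^ (-(13/24) : ℝ) *
        (((k - s : ℕ) : ℝ) + 1) ^ (-(23/24) : ℝ) := by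
    intro s hs
    rw [Finset.mem_range] at hs
    have hs0 : (0:ℝ) < (s:ℝ) + 1 := by positivity
    rw [mul_add]
    apply add_le_add
    · have e1 : ((s:ℝ) + 1) ^ (-(1/4) : ℝ) = ((s:ℝ) + 1) * ((s:ℝ) + 1) ^ (-(5/4) : ℝ) := by
        have : ((s:ℝ) + 1) * ((s:ℝ) + 1) ^ (-(5/4) : ℝ) =
            ((s:ℝ) + 1) ^ (1:ℝ) * ((s:ℝ) + 1) ^ (-(5/4) : ℝ) := by rw [Real.rpow_one]
        rw [this, ← Real.rpow_add hs0]; norm_num
      rw [e1]
      apply le_of_eq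
      ring
    · have e2 : (k:ℝ) ^ (-(13/24) : ℝ) = (k:ℝ) * (k:ℝ) ^ (-(37/24) : ℝ) := by
        have : (k:ℝ) * (k:ℝ) ^ (-(37/24) : ℝ) =
            (k:ℝ) ^ (1:ℝ) * (k:ℝ) ^ (-(37/24) : ℝ) := by rw [Real.rpow_one]
        rw [this, ← Real.rpow_add hk0]; norm_num
      rw [e2]
      have h3 : (s:ℝ) + 1 ≤ 2 * k := by
        have : s + 1 ≤ 2 * k := by omega
        exact_mod_cast this
      have h4 : 0 ≤ 4096 * (K ^ 2 * C2) * ((k:ℝ) ^ (-(37/24) : ℝ) *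
          (((k - s : ℕ) : ℝ) + 1) ^ (-(23/24) : ℝ)) := by positivity
      calc 16 * ((s:ℝ) + 1) * (4096 * (K ^ 2 * C2) * ((k:ℝ) ^ (-(37/24) : ℝ) *
            (((k - s : ℕ) : ℝ) + 1) ^ (-(23/24) : ℝ)))
          ≤ 16 * (2 * k) * (4096 * (K ^ 2 * C2) * ((k:ℝ) ^ (-(37/24) : ℝ) *
            (((k - s : ℕ) : ℝ) + 1) ^ (-(23/24) : ℝ))) :=
            mul_le_mul_of_nonneg_right (by linarith) h4
        _ = _ := by ring
  refine (Finset.sum_le_sum h2).trans ?_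
  rw [Finset.sum_add_distrib, ← Finset.mul_sum, ← Finset.mul_sum]
  have h3 := pow_sum (b := 1/4) (by norm_num) (by norm_num) (k + 1)
  have h4 := pow_sum (b := 23/24) (by norm_num) (by norm_num) (k + 1)
  have h5 : ∑ s ∈ range (k + 1), (((k - s : ℕ) : ℝ) + 1) ^ (-(23/24) : ℝ) =
      ∑ s ∈ range (k + 1), ((s:ℝ) + 1) ^ (-(23/24) : ℝ) := by
    rw [← Finset.sum_range_reflect (fun s => ((s:ℝ) + 1) ^ (-(23/24) : ℝ)) (k + 1)]
    refine Finset.sum_congr rfl fun s _ => ?_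
    simp
  rw [h5]
  have h2k : ((k + 1 : ℕ) : ℝ) ≤ 2 * k := by push_cast; linarith
  have h6 : ((k + 1 : ℕ) : ℝ) ^ (1 - 1/4 : ℝ) ≤ 2 * (k:ℝ) ^ (3/4 : ℝ) := by
    calc ((k + 1 : ℕ) : ℝ) ^ (1 - 1/4 : ℝ) ≤ (2 * (k:ℝ)) ^ (1 - 1/4 : ℝ) :=
          Real.rpow_le_rpow (by positivity) h2k (by norm_num)
      _ = (2:ℝ) ^ (3/4 : ℝ) * (k:ℝ) ^ (3/4 : ℝ) := by
          rw [Real.mul_rpow (by norm_num) hk0.le]; norm_num
      _ ≤ 2 * (k:ℝ) ^ (3/4 : ℝ) := by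
          apply mul_le_mul_of_nonneg_right _ (by positivity)
          calc (2:ℝ) ^ (3/4 : ℝ) ≤ (2:ℝ) ^ (1:ℝ) :=
                Real.rpow_le_rpow_of_exponent_le (by norm_num) (by norm_num)
            _ = 2 := Real.rpow_one _
  have h7 : ((k + 1 : ℕ) : ℝ) ^ (1 - 23/24 : ℝ) ≤ 2 * (k:ℝ) ^ (1/24 : ℝ) := by
    calc ((k + 1 : ℕ) : ℝ) ^ (1 - 23/24 : ℝ) ≤ (2 * (k:ℝ)) ^ (1 - 23/24 : ℝ) :=
          Real.rpow_le_rpow (by positivity) h2k (by norm_num)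
      _ = (2:ℝ) ^ (1/24 : ℝ) * (k:ℝ) ^ (1/24 : ℝ) := by
          rw [Real.mul_rpow (by norm_num) hk0.le]; norm_num
      _ ≤ 2 * (k:ℝ) ^ (1/24 : ℝ) := by
          apply mul_le_mul_of_nonneg_right _ (by positivity)
          calc (2:ℝ) ^ (1/24 : ℝ) ≤ (2:ℝ) ^ (1:ℝ) :=
                Real.rpow_le_rpow_of_exponent_le (by norm_num) (by norm_num)
            _ = 2 := Real.rpow_one _
  have e1 : (k:ℝ) ^ (-(5/4) : ℝ) * (k:ℝ) ^ (3/4 : ℝ) = (k:ℝ) ^ (-(1/2) : ℝ) := by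
    rw [← Real.rpow_add hk0]; norm_num
  have e2 : (k:ℝ) ^ (-(13/24) : ℝ) * (k:ℝ) ^ (1/24 : ℝ) = (k:ℝ) ^ (-(1/2) : ℝ) := by
    rw [← Real.rpow_add hk0]; norm_num
  have g1 : 1728 * (K ^ 2 * C1) * (k:ℝ) ^ (-(5/4) : ℝ) *
      ∑ s ∈ range (k + 1), ((s:ℝ) + 1) ^ (-(1/4) : ℝ) ≤
      4608 * C1 * K ^ 2 * (k:ℝ) ^ (-(1/2) : ℝ) := by
    have h8 : ∑ s ∈ range (k + 1), ((s:ℝ) + 1) ^ (-(1/4) : ℝ) ≤ 8/3 * (k:ℝ) ^ (3/4 : ℝ) := by
      refine h3.trans ?_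
      rw [div_le_iff₀ (by norm_num)]
      linarith
    calc 1728 * (K ^ 2 * C1) * (k:ℝ) ^ (-(5/4) : ℝ) *
          ∑ s ∈ range (k + 1), ((s:ℝ) + 1) ^ (-(1/4) : ℝ)
        ≤ 1728 * (K ^ 2 * C1) * (k:ℝ) ^ (-(5/4) : ℝ) * (8/3 * (k:ℝ) ^ (3/4 : ℝ)) := by gcongr
      _ = 4608 * C1 * K ^ 2 * ((k:ℝ) ^ (-(5/4) : ℝ) * (k:ℝ) ^ (3/4 : ℝ)) := by ring
      _ = _ := by rw [e1]
  have g2 : 131072 * (K ^ 2 * C2) * (k:ℝ) ^ (-(13/24) : ℝ) *
      ∑ s ∈ range (k + 1), ((s:ℝ) + 1) ^ (-(23/24) : ℝ) ≤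
      6291456 * C2 * K ^ 2 * (k:ℝ) ^ (-(1/2) : ℝ) := by
    have h8 : ∑ s ∈ range (k + 1), ((s:ℝ) + 1) ^ (-(23/24) : ℝ) ≤ 48 * (k:ℝ) ^ (1/24 : ℝ) := by
      refine h4.trans ?_
      rw [div_le_iff₀ (by norm_num)]
      linarith
    calc 131072 * (K ^ 2 * C2) * (k:ℝ) ^ (-(13/24) : ℝ) *
          ∑ s ∈ range (k + 1), ((s:ℝ) + 1) ^ (-(23/24) : ℝ)
        ≤ 131072 * (K ^ 2 * C2) * (k:ℝ) ^ (-(13/24) : ℝ) * (48 * (k:ℝ) ^ (1/24 : ℝ)) := by gcongr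
      _ = 6291456 * C2 * K ^ 2 * ((k:ℝ) ^ (-(13/24) : ℝ) * (k:ℝ) ^ (1/24 : ℝ)) := by ring
      _ = _ := by rw [e2]
  calc _ ≤ 4608 * C1 * K ^ 2 * (k:ℝ) ^ (-(1/2) : ℝ) +
        6291456 * C2 * K ^ 2 * (k:ℝ) ^ (-(1/2) : ℝ) := add_le_add g1 g2
    _ = _ := by ring

/-- Comparison of the four-arm probability with the fair one. -/
theorem compare {K C1 C2 ε r : ℝ} (hK : 1 ≤ K) (hC1 : 1 ≤ C1) (hC2 : 1 ≤ C2)
    (hA : ∀ (c : ℤ × ℤ) (d k : ℕ), 1 ≤ d → d ≤ k → ∀ S : Finset Edg,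
      blk c k ⊆ S → PQ (1/2) S (fun F => A4a c d k ↑F) ≤ C1 * ((d:ℝ) / k) ^ (5/4 : ℝ))
    (hS : ∀ a s : Bool, Sta C2 ε a s) (hr : 1 ≤ r) {k : ℕ} (hk64 : 64 ≤ k)
    (hη : (r - 1) / (2 * (r + 1)) ≤ ε * (k:ℝ) ^ (-(3/4) : ℝ))
    (hNF : ∀ j < k, NF K r j) (e : Edg) {μ : Finset Edg → ℝ} (hμ : Law (ebx e k) μ)
    (hN : Near (ebx e k) μ r) :
    |pr μ (ebx e k) (fun F => A4e k e ↑F) - PQ (1/2) (ebx e k) (fun F => A4e k e ↑F)| ≤
      (r - 1) / (2 * (r + 1)) * ((4608 * C1 + 6291456 * C2) * K ^ 2 * (k:ℝ) ^ (-(1/2) : ℝ)) := by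
  have hη0 : 0 ≤ (r - 1) / (2 * (r + 1)) := by apply div_nonneg <;> linarith
  have h1 := interp hμ hN hr (fun F => ind (A4e k e (↑F : Set Edg))) (ds e)
    (fun f => bb K C1 C2 k (ds e f)) ?_
  · unfold PQ
    rw [← pr_un]
    unfold pr
    exact h1.trans (mul_le_mul_of_nonneg_left (sum_bb hC1 hC2 e (by omega)) hη0)
  · intro f hf T hT hfT _ hTo
    have hbb : 0 ≤ bb K C1 C2 k (ds e f) := by
      unfold bb
      positivity
    have hνL := hyb_law hT hμ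
    have hνN := hyb_near hT hμ hN hr
    by_cases hfe : f = e
    · have e1 : ∀ F : Finset Edg, |ind (A4e k e (↑(insert f F) : Set Edg)) -
          ind (A4e k e (↑(F.erase f) : Set Edg))| = 0 := by
        intro F
        rw [abs_eq_zero, sub_eq_zero]
        apply ind_congr
        rw [hfe]
        have h2 : ∀ G : Set Edg, A4e k e G ↔ A4e k e (G \ {e}) := by
          intro G
          rw [A4e_def, A4e_def]
          have : cfe e k (G \ {e}) = cfe e k G := by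
            unfold cfe
            ext x
            simp only [Set.mem_sdiff, Set.mem_inter_iff, Set.mem_singleton_iff, Finset.mem_coe]
            tauto
          rw [this]
        rw [h2 (↑(insert e F)), h2 (↑(F.erase e))]
        have : ((↑(insert e F) : Set Edg) \ {e}) = ((↑(F.erase e) : Set Edg) \ {e}) := by
          rw [Finset.coe_insert, Finset.coe_erase]
          ext x
          simp only [Set.mem_sdiff, Set.mem_insert_iff, Set.mem_singleton_iff]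
          tauto
        rw [this]
      rw [em_congr (fun F _ => e1 F), hνL.const]
      exact hbb
    · have e1 : ∀ F : Finset Edg, |ind (A4e k e (↑(insert f F) : Set Edg)) -
          ind (A4e k e (↑(F.erase f) : Set Edg))| = ind (PV k e f (↑F : Set Edg)) := by
        intro F
        unfold PV
        rw [Finset.coe_insert, Finset.coe_erase]
        by_cases h2 : A4e k e (insert f (↑F : Set Edg)) <;>
          by_cases h3 : A4e k e ((↑F : Set Edg) \ {f})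
        · rw [ind_of h2, ind_of h3, ind_not_of (fun h => h (iff_of_true h2 h3))]; norm_num
        · rw [ind_of h2, ind_not_of h3, ind_of (fun h => h3 (h.mp h2))]; norm_num
        · rw [ind_not_of h2, ind_of h3, ind_of (fun h => h2 (h.mpr h3))]; norm_num
        · rw [ind_not_of h2, ind_not_of h3, ind_not_of (fun h => h (iff_of_false h2 h3))]
          norm_num
      rw [em_congr (fun F _ => e1 F)]
      have hfk : ds e f ≤ k := by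
        unfold ebx at hf
        have h2 := mem_co hf
        rw [ds_le, abs_le, abs_le]
        omega
      show pr (hyb μ (ebx e k) T) (ebx e k) (fun F => PV k e f ↑F) ≤ _
      by_cases h2 : 2 * ds e f + 2 ≤ k
      · refine (bulk hA hr hNF hμ hN hT hTo hf hfe h2).trans ((numA hK hC1 h2).trans ?_)
        unfold bb
        have : 0 ≤ 4096 * (K ^ 2 * C2) * ((k:ℝ) ^ (-(37/24) : ℝ) *
          (((k - ds e f : ℕ) : ℝ) + 1) ^ (-(23/24) : ℝ)) := by positivity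
        linarith
      · refine (bdry (t := k - ds e f) hS hr hNF hνL hνN hf hfe rfl (by omega) rfl rfl (by omega)
          hk64 hη).trans ((numB (s := ds e f) hK hC2 (by omega) rfl rfl hk64).trans ?_)
        unfold bb
        have : 0 ≤ 108 * (K ^ 2 * C1) * (((ds e f : ℝ) + 1) ^ (-(5/4) : ℝ) *
          (k:ℝ) ^ (-(5/4) : ℝ)) := by positivity
        linarith

/-- The inputs with common constants. -/
theorem inp : ∃ C0 C1 C2 ε : ℝ, 1 ≤ C0 ∧ 1 ≤ C1 ∧ 1 ≤ C2 ∧ 0 < ε ∧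
    (∀ k : ℕ, a4 (1/2) k ≤ C0 * ((k:ℝ) + 1) ^ (-(5/4) : ℝ)) ∧
    (∀ (c : ℤ × ℤ) (d k : ℕ), 1 ≤ d → d ≤ k → ∀ S : Finset Edg,
      blk c k ⊆ S → PQ (1/2) S (fun F => A4a c d k ↑F) ≤ C1 * ((d:ℝ) / k) ^ (5/4 : ℝ)) ∧
    (∀ a s : Bool, Sta C2 ε a s) := by
  obtain ⟨κ0, C0, _, hC0, hst⟩ := stU
  obtain ⟨C1, hC1, hA⟩ := Pool.Agent.W347.DPAA.aa
  obtain ⟨C2, ε, hC2, hε, hS⟩ := hp_all
  refine ⟨C0, max C1 1, C2, ε, hC0, le_max_right _ _, hC2, hε, ?_, ?_, hS⟩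
  · intro k
    have h := (hst (k + 1) (by omega) (1/2) (by
      rw [sub_self, abs_zero]; positivity)).2 k (by omega)
    rw [add_zero] at h
    exact h
  · intro c d k hd hdk S hSS
    refine (hA c d k hd hdk S hSS).trans (mul_le_mul_of_nonneg_right (le_max_left _ _) ?_)
    positivity

/-- **The four-arm probability for dependent laws.** -/
theorem four : ∃ K c : ℝ, 1 ≤ K ∧ 0 < c ∧ ∀ r : ℝ, 1 ≤ r → ∀ n : ℕ, 1 ≤ n →
    (r - 1) / (2 * (r + 1)) ≤ c * (n:ℝ) ^ (-(3/4) : ℝ) → ∀ k ≤ n, NF K r k := by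
  obtain ⟨C0, C1, C2, ε, hC0, hC1, hC2, hε, hcrit, hA, hS⟩ := inp
  obtain ⟨K, hK⟩ : ∃ K : ℝ, K = 2 * C0 + 512 := ⟨_, rfl⟩
  have hK1 : 1 ≤ K := by rw [hK]; linarith
  obtain ⟨C3, hC3⟩ : ∃ C3 : ℝ, C3 = 4608 * C1 + 6291456 * C2 := ⟨_, rfl⟩
  have hC30 : 0 < C3 := by rw [hC3]; linarith
  refine ⟨K, min ε (1 / (6 * C3 * K)), hK1, lt_min hε (by positivity), ?_⟩
  intro r hr n hn hη k
  have hη0 : 0 ≤ (r - 1) / (2 * (r + 1)) := by apply div_nonneg <;> linarith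
  have hn0 : (0:ℝ) < n := by exact_mod_cast hn
  induction k using Nat.strong_induction_on with
  | _ k ih =>
    intro hkn e μ hμ hN
    by_cases hk64 : 64 ≤ k
    · have hk0 : (0:ℝ) < k := by
        have : 0 < k := by omega
        exact_mod_cast this
      have hnk : (n:ℝ) ^ (-(3/4) : ℝ) ≤ (k:ℝ) ^ (-(3/4) : ℝ) :=
        Real.rpow_le_rpow_of_nonpos hk0 (by exact_mod_cast hkn) (by norm_num)
      have hη1 : (r - 1) / (2 * (r + 1)) ≤ ε * (k:ℝ) ^ (-(3/4) : ℝ) :=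
        hη.trans (mul_le_mul (min_le_left _ _) hnk (by positivity) hε.le)
      have hη2 : (r - 1) / (2 * (r + 1)) ≤ 1 / (6 * C3 * K) * (k:ℝ) ^ (-(3/4) : ℝ) :=
        hη.trans (mul_le_mul (min_le_right _ _) hnk (by positivity) (by positivity))
      have h1 := compare hK1 hC1 hC2 hA hS hr hk64 hη1 (fun j hj => ih j hj (by omega)) e hμ hN
      have h2 : PQ (1/2) (ebx e k) (fun F => A4e k e ↑F) ≤ C0 * ((k:ℝ) + 1) ^ (-(5/4) : ℝ) :=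
        (pr_A4e (by norm_num) (by norm_num) (Finset.Subset.refl _)).trans (hcrit k)
      rw [← hC3] at h1
      have h3 : (r - 1) / (2 * (r + 1)) * (C3 * K ^ 2 * (k:ℝ) ^ (-(1/2) : ℝ)) ≤
          K / 2 * ((k:ℝ) + 1) ^ (-(5/4) : ℝ) := by
        have h4 : (k:ℝ) ^ (-(5/4) : ℝ) ≤ 3 * ((k:ℝ) + 1) ^ (-(5/4) : ℝ) := by
          have h5 : (k:ℝ) + 1 ≤ 2 * k := by
            have : k + 1 ≤ 2 * k := by omega
            exact_mod_cast this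
          refine (pow_mono_neg (c := 2) (by norm_num) (by norm_num) h5 (by positivity)).trans ?_
          exact mul_le_mul_of_nonneg_right two54 (by positivity)
        have e1 : (k:ℝ) ^ (-(3/4) : ℝ) * (k:ℝ) ^ (-(1/2) : ℝ) = (k:ℝ) ^ (-(5/4) : ℝ) := by
          rw [← Real.rpow_add hk0]; norm_num
        calc (r - 1) / (2 * (r + 1)) * (C3 * K ^ 2 * (k:ℝ) ^ (-(1/2) : ℝ))
            ≤ (1 / (6 * C3 * K) * (k:ℝ) ^ (-(3/4) : ℝ)) * (C3 * K ^ 2 * (k:ℝ) ^ (-(1/2) : ℝ)) :=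
              mul_le_mul_of_nonneg_right hη2 (by positivity)
          _ = K / 6 * ((k:ℝ) ^ (-(3/4) : ℝ) * (k:ℝ) ^ (-(1/2) : ℝ)) := by
              field_simp
          _ = K / 6 * (k:ℝ) ^ (-(5/4) : ℝ) := by rw [e1]
          _ ≤ K / 6 * (3 * ((k:ℝ) + 1) ^ (-(5/4) : ℝ)) := by gcongr
          _ = _ := by ring
      have h4 := (abs_le.mp h1).2
      have h5 : C0 ≤ K / 2 := by rw [hK]; linarith
      have h6 : 0 < ((k:ℝ) + 1) ^ (-(5/4) : ℝ) := by positivity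
      nlinarith
    · refine (pr_le_one' hμ _).trans ?_
      have h1 : (64:ℝ) ^ (-(5/4) : ℝ) ≤ ((k:ℝ) + 1) ^ (-(5/4) : ℝ) := by
        apply Real.rpow_le_rpow_of_nonpos (by positivity) _ (by norm_num)
        have : k + 1 ≤ 64 := by omega
        exact_mod_cast this
      have h2 : (1:ℝ) / 512 ≤ (64:ℝ) ^ (-(5/4) : ℝ) := by
        rw [Real.rpow_neg (by norm_num), ← one_div]
        apply one_div_le_one_div_of_le (by positivity)
        calc (64:ℝ) ^ (5/4 : ℝ) ≤ (64:ℝ) ^ (3/2 : ℝ) :=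
              Real.rpow_le_rpow_of_exponent_le (by norm_num) (by norm_num)
          _ = 512 := by
              rw [show (64:ℝ) = (2:ℝ) ^ (6:ℝ) by norm_num, ← Real.rpow_mul (by norm_num)]
              norm_num
      have h3 : 512 ≤ K := by rw [hK]; linarith
      nlinarith

end Q291.NL
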